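import Pool.Agent.H98U.GlueOff

/-!
Extension from an arbitrary subset when the rest of the space is a union of `k` pieces with covers
of bounded multiplicity; unions of such pieces and one arbitrary Euclidean piece.
-/

open Finset

namespace Pool.Agent.H98U

open Pool.Agent.H80U

/-- Single scale extension, covers on the side of the domain. -/
theorem dom_single {X : Type} [Fintype X] [MetricSpace X] {n k : ℕ} (A : Set X)
    (hA : A.Nonempty) (B : Fin k → Set X) (hB : ∀ x, x ∉ A → ∃ j, x ∈ B j)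
    (c : ℝ) (hc : 1 ≤ c) (m : ℕ) (hm : 1 ≤ m) (hk : 1 ≤ k) (hC : ∀ j, Cov (B j) c m)
    (g : X → EuclideanSpace ℝ (Fin n))
    (hg : ∀ a ∈ A, ∀ b ∈ A, ‖g a - g b‖ ≤ dist a b) (r : ℝ) (hr : 0 < r) :
    ∃ F : X → EuclideanSpace ℝ (Fin n),
      (∀ x, x ∉ A → Metric.infDist x A ≤ 4 * r → ∀ a ∈ A,
        ‖F x - g a‖ ≤ 132 * c * (r + dist x a)) ∧
      ∀ x y, x ∉ A → y ∉ A → Metric.infDist x A ≤ 4 * r → Metric.infDist y A ≤ 4 * r →
        ‖F x - F y‖ ≤ 1452 * c * √(1 + Real.log (k * m : ℕ)) * dist x y := by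
  classical
  choose 𝒞 hcov hsub hdiam hmult using fun j => hC j (16 * r) (by positivity)
  set W : Set X := {x | x ∉ A ∧ Metric.infDist x A ≤ 4 * r} with hW
  by_cases hWne : W.Nonempty
  swap
  · refine ⟨fun _ => 0, fun x hx hx' => ?_, fun x y hx _ hx' _ => ?_⟩
    · exact absurd ⟨x, hx, hx'⟩ hWne
    · exact absurd ⟨x, hx, hx'⟩ hWne
  let ι := {u : Fin k × Set X // u.2 ∈ 𝒞 u.1 ∧ (u.2 ∩ W).Nonempty}
  have : Fintype ι := Fintype.ofFinite ι
  have hmem : ∀ w ∈ W, ∃ u : ι, w ∈ u.1.2 := fun w hw => by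
    obtain ⟨j, hj⟩ := hB w hw.1
    obtain ⟨C, hC, hwC⟩ := hcov j w hj
    exact ⟨⟨(j, C), hC, ⟨w, hwC, hw⟩⟩, hwC⟩
  have hιne : Nonempty ι := by
    obtain ⟨a, ha⟩ := hWne
    obtain ⟨u, -⟩ := hmem a ha
    exact ⟨u⟩
  choose pt hpt using fun u : ι => u.2.2
  have hiso : Isometry (kur : X → X → ℝ) := kur_isometry
  have hnearA : ∀ x : X, ∃ a ∈ A, Metric.infDist x A = dist x a := fun x =>
    (Set.toFinite A).isCompact.exists_infDist_eq_dist hA x
  choose an hanA han using hnearA
  have hpa : ∀ u : ι, dist (pt u) (an (pt u)) ≤ 4 * r := fun u => by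
    rw [← han]; exact (hpt u).2.2
  have hWne' : (kur '' W).Nonempty := hWne.image _
  have hune : ∀ u : ι, (kur '' (u.1.2 ∩ W)).Nonempty := fun u => u.2.2.image _
  have hnear : ∀ e : X → ℝ, ∃ a ∈ W, Metric.infDist e (kur '' W) = dist e (kur a) := fun e => by
    obtain ⟨b, ⟨a, ha, rfl⟩, hb⟩ :=
      (Set.toFinite (kur '' W)).isCompact.exists_infDist_eq_dist hWne' e
    exact ⟨a, ha, hb⟩
  have hq : ∀ (u : ι) (e : X → ℝ), Metric.infDist e (kur '' (u.1.2 ∩ W)) < 8 * r →
      ∃ q ∈ u.1.2, dist e (kur q) < 8 * r := fun u e h => by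
    obtain ⟨b, ⟨q, hq, rfl⟩, hb⟩ := (Metric.infDist_lt_iff (hune u)).1 h
    exact ⟨q, hq.1, hb⟩
  obtain ⟨F, hF1, hF2⟩ := sel (E := X → ℝ) (ι := ι) (fun u => g (an (pt u)))
    (fun u e => Metric.infDist e (kur '' (u.1.2 ∩ W))) (fun e => Metric.infDist e (kur '' W)) r hr
    (k * m) (Nat.mul_pos hk hm) (56 * c * r) (by positivity)
    (fun u x y => by
      have h1 := Metric.infDist_le_infDist_add_dist (s := kur '' (u.1.2 ∩ W)) (x := x) (y := y)
      have h2 := Metric.infDist_le_infDist_add_dist (s := kur '' (u.1.2 ∩ W)) (x := y) (y := x)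
      rw [dist_comm y x] at h2
      rw [← dist_eq_norm, abs_le]
      constructor <;> linarith)
    (fun x y => by
      have h1 := Metric.infDist_le_infDist_add_dist (s := kur '' W) (x := x) (y := y)
      rw [← dist_eq_norm]
      exact h1)
    (fun x hx => by
      obtain ⟨a, ha, hxa⟩ := hnear x
      obtain ⟨u, hu⟩ := hmem a ha
      refine ⟨u, le_trans (Metric.infDist_le_dist_of_mem
        (Set.mem_image_of_mem kur (Set.mem_inter hu ha))) ?_⟩
      rw [← hxa]; exact hx)
    (fun x hx S hS => by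
      rw [Finset.card_eq_sum_card_fiberwise (f := fun u : ι => u.1.1) (t := Finset.univ)
        (fun u _ => Finset.mem_coe.2 (Finset.mem_univ _))]
      have hfib : ∀ j : Fin k, (S.filter fun u : ι => u.1.1 = j).card ≤ m := by
        intro j
        rcases (S.filter fun u : ι => u.1.1 = j).eq_empty_or_nonempty with h | ⟨u0, hu0⟩
        · rw [h]; simp
        · rw [Finset.mem_filter] at hu0
          obtain ⟨q0, hq0, hq0'⟩ := hq u0 x (hS u0 hu0.1)
          have hq0B : q0 ∈ B j := by
            rw [← hu0.2]; exact hsub _ _ u0.2.1 hq0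
          have h1 : (((S.filter fun u : ι => u.1.1 = j).image fun u : ι => u.1.2 :
              Finset (Set X)) : Set (Set X)) ⊆ {C ∈ 𝒞 j | ∃ q ∈ C, dist q q0 ≤ 16 * r} := by
            intro C hC
            rw [Finset.mem_coe, Finset.mem_image] at hC
            obtain ⟨u, hu, rfl⟩ := hC
            rw [Finset.mem_filter] at hu
            obtain ⟨q, hq1, hq2⟩ := hq u x (hS u hu.1)
            refine ⟨?_, q, hq1, ?_⟩
            · rw [← hu.2]; exact u.2.1
            · have h2 := dist_triangle_left (kur q) (kur q0) x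
              rw [hiso.dist_eq] at h2
              linarith
          have h2 := (Set.encard_le_encard h1).trans (hmult j q0 hq0B)
          rw [Set.encard_coe_eq_coe_finsetCard, Finset.card_image_of_injOn ?_] at h2
          · exact_mod_cast h2
          · intro u hu v hv huv
            rw [Finset.mem_coe, Finset.mem_filter] at hu hv
            exact Subtype.ext (Prod.ext (hu.2.trans hv.2.symm) huv)
      calc _ ≤ ∑ _j : Fin k, m := Finset.sum_le_sum fun j _ => hfib j
        _ = k * m := by simp)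
    (fun x hx u u' hu hu' => by
      obtain ⟨q, hq1, hq2⟩ := hq u x hu
      obtain ⟨q', hq1', hq2'⟩ := hq u' x hu'
      refine (hg _ (hanA _) _ (hanA _)).trans ?_
      have h1 := hdiam _ _ u.2.1 _ (hpt u).1 _ hq1
      have h2 := hdiam _ _ u'.2.1 _ hq1' _ (hpt u').1
      have h3 := dist_triangle_left (kur q) (kur q') x
      rw [hiso.dist_eq] at h3
      have h4 := dist_triangle4 (pt u) q q' (pt u')
      have h6 := dist_triangle4 (an (pt u)) (pt u) (pt u') (an (pt u'))
      rw [dist_comm (an (pt u)) (pt u)] at h6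
      have h7 := hpa u
      have h8 := hpa u'
      have h5 : r ≤ c * r := le_mul_of_one_le_left hr.le hc
      linarith)
  set μ : ℝ := √(1 + Real.log (k * m : ℕ)) with hμ
  have hμ1 : 1 ≤ μ := by
    rw [hμ, Real.one_le_sqrt]
    linarith [Real.log_natCast_nonneg (k * m)]
  have hzero : ∀ x ∈ W, Metric.infDist (kur x) (kur '' W) = 0 := fun x hx =>
    Metric.infDist_zero_of_mem (Set.mem_image_of_mem kur hx)
  have hacc : ∀ x ∈ W, ∀ a ∈ A, ‖F (kur x) - g a‖ ≤ 132 * c * (r + dist x a) := by
    intro x hx a ha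
    obtain ⟨u, hu⟩ := hmem x hx
    have h1 : Metric.infDist (kur x) (kur '' (u.1.2 ∩ W)) = 0 :=
      Metric.infDist_zero_of_mem (Set.mem_image_of_mem kur ⟨hu, hx⟩)
    have h2 := hF1 (kur x) (by rw [hzero x hx]; positivity) u (by rw [h1]; positivity)
    have h3 := hdiam _ _ u.2.1 _ (hpt u).1 _ hu
    have h4 := hg _ (hanA (pt u)) _ ha
    have h5 := dist_triangle4 (an (pt u)) (pt u) x a
    rw [dist_comm (an (pt u)) (pt u)] at h5
    have h6 : F (kur x) - g a = (F (kur x) - g (an (pt u))) + (g (an (pt u)) - g a) := by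
      abel
    have h9 := hpa u
    rw [h6]
    refine (norm_add_le _ _).trans ?_
    have h7 : r ≤ c * r := le_mul_of_one_le_left hr.le hc
    have h8 : dist x a ≤ 132 * c * dist x a := by
      apply le_mul_of_one_le_left dist_nonneg; linarith
    linarith
  refine ⟨fun x => F (kur x), fun x hx hx' a ha => hacc x ⟨hx, hx'⟩ a ha,
    fun x y hxA hyA hx hy => ?_⟩
  have hδ0 : 0 ≤ dist x y := dist_nonneg
  have hcμ : 0 < c * μ := by positivity
  rcases le_or_gt (dist x y) r with hδ | hδ
  · have h1 := hF2 (kur x) (kur y) (by rw [hzero x ⟨hxA, hx⟩]; positivity)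
      (by rw [← dist_eq_norm, hiso.dist_eq]; exact hδ)
    rw [← dist_eq_norm (kur x) (kur y), hiso.dist_eq] at h1
    have e0 : 56 * c * r / r = 56 * c := by field_simp
    have e1 : 15 * μ * (56 * c * r / r) * dist x y = 840 * (c * μ) * dist x y := by
      rw [e0]; ring
    rw [e1] at h1
    refine h1.trans ?_
    have : 0 ≤ c * μ * dist x y := by positivity
    linarith
  · have h1 := hacc x ⟨hxA, hx⟩ _ (hanA x)
    have h2 := hacc y ⟨hyA, hy⟩ _ (hanA x)
    have h3 := dist_triangle_left y (an x) x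
    have e1 : F (kur x) - F (kur y) = (F (kur x) - g (an x)) - (F (kur y) - g (an x)) := by abel
    rw [e1]
    refine (norm_sub_le _ _).trans ?_
    have h4 : dist x (an x) ≤ 4 * r := by rw [← han]; exact hx
    have h5 : 132 * c * (r + dist x (an x)) + 132 * c * (r + dist y (an x)) ≤
        132 * c * (11 * dist x y) := by
      rw [← mul_add]
      apply mul_le_mul_of_nonneg_left _ (by positivity)
      linarith
    have h6 : 132 * c * (11 * dist x y) ≤ 1452 * c * μ * dist x y := by
      have h7 : c * dist x y ≤ c * dist x y * μ := le_mul_of_one_le_right (by positivity) hμ1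
      linarith
    linarith

end Pool.Agent.H98U
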