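import Pool.Agent.H98U.AllBut

/-!
Unions of `k` pieces, all but one of which have covers of bounded multiplicity.
-/

open Finset

namespace Pool.Agent.H98U

open Pool.Agent.H80U

/-- Extension of a Lipschitz map: from a subset with covers, or from a subset whose complement is
covered by `k` subsets with covers. -/
theorem but_ext {X : Type} [Fintype X] [MetricSpace X] {n : ℕ} (k : ℕ) (hk : 1 ≤ k) (A : Set X)
    (hA : A.Nonempty) (c : ℝ) (hc : 1 ≤ c) (m : ℕ) (hm : 1 ≤ m)
    (hC : Cov A c m ∨ ∃ B : Fin k → Set X, (∀ x, x ∉ A → ∃ j, x ∈ B j) ∧ ∀ j, Cov (B j) c m)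
    (D : ℝ) (hD : 1 ≤ D) (g : X → EuclideanSpace ℝ (Fin n))
    (hg : ∀ a ∈ A, ∀ b ∈ A, ‖g a - g b‖ ≤ D * dist a b) :
    ∃ F : X → EuclideanSpace ℝ (Fin n),
      (∀ x y, ‖F x - F y‖ ≤ D * (3432 * c * √(1 + Real.log (k * m : ℕ))) * dist x y) ∧
      ∀ x, ∀ s ∈ A, ‖F x - g s‖ ≤ 6 * (66 * c * D) * dist x s := by
  classical
  have hD0 : 0 < D := by linarith
  set μ : ℝ := √(1 + Real.log (k * m : ℕ)) with hμ
  have hμ1 : 1 ≤ μ := by
    rw [hμ, Real.one_le_sqrt]
    linarith [Real.log_natCast_nonneg (k * m)]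
  have hμm : √(1 + Real.log m) ≤ μ := by
    apply Real.sqrt_le_sqrt
    have h1 : Real.log m ≤ Real.log (k * m : ℕ) :=
      Real.log_le_log (by exact_mod_cast hm) (by exact_mod_cast Nat.le_mul_of_pos_left m hk)
    linarith
  set g' : X → EuclideanSpace ℝ (Fin n) := fun x => D⁻¹ • g x with hg'
  have hgg : ∀ a ∈ A, ∀ b ∈ A, ‖g' a - g' b‖ ≤ dist a b := by
    intro a ha b hb
    rw [hg']; simp only
    rw [← smul_sub, norm_smul, Real.norm_of_nonneg (by positivity), inv_mul_le_iff₀ hD0]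
    exact hg a ha b hb
  have h : ∀ i : ℤ, ∃ F : X → EuclideanSpace ℝ (Fin n),
      (∀ x, x ∉ A → Metric.infDist x A ≤ 4 * (2 : ℝ) ^ i → ∀ a ∈ A,
        ‖F x - g' a‖ ≤ 132 * c * ((2 : ℝ) ^ i + dist x a)) ∧
      ∀ x y, x ∉ A → y ∉ A → Metric.infDist x A ≤ 4 * (2 : ℝ) ^ i →
        Metric.infDist y A ≤ 4 * (2 : ℝ) ^ i →
        ‖F x - F y‖ ≤ 1452 * c * μ * dist x y := by
    intro i
    have hi : (0 : ℝ) < 2 ^ i := by positivity
    rcases hC with hC | ⟨B, hB, hC⟩
    · obtain ⟨F, h1, h2⟩ := nag_single A hA c hc m hm hC g' hgg ((2 : ℝ) ^ i) hi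
      refine ⟨F, fun x _ hx a ha => (h1 x hx a ha).trans ?_, fun x y _ _ hx hy =>
        (h2 x y hx hy).trans ?_⟩
      · apply mul_le_mul_of_nonneg_right _ (by positivity)
        linarith
      · apply mul_le_mul_of_nonneg_right _ dist_nonneg
        apply mul_le_mul _ hμm (Real.sqrt_nonneg _) (by positivity)
        linarith
    · obtain ⟨F, h1, h2⟩ := dom_single A hA B hB c hc m hm hk hC g' hgg ((2 : ℝ) ^ i) hi
      exact ⟨F, h1, h2⟩
  choose F h1 h2 using h
  obtain ⟨G, hG1, hG2⟩ := glue_off A hA g' (132 * c) (1452 * c * μ) (by linarith) (by positivity) F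
    (fun m x hxA hx a ha => h1 m x hxA hx a ha)
    (fun m x y hxA hyA hx hy => h2 m x y hxA hyA hx hy) hgg
  refine ⟨fun x => D • G x, fun x y => ?_, fun x s hs => ?_⟩
  · rw [← smul_sub, norm_smul, Real.norm_of_nonneg hD0.le, mul_assoc]
    apply mul_le_mul_of_nonneg_left _ hD0.le
    refine (hG1 x y).trans (mul_le_mul_of_nonneg_right ?_ dist_nonneg)
    have h7 : c ≤ c * μ := le_mul_of_one_le_right (by positivity) hμ1
    linarith
  · have e1 : D • G x - g s = D • (G x - g' s) := by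
      rw [smul_sub, hg']; simp only
      rw [smul_smul, mul_inv_cancel₀ hD0.ne', one_smul]
    rw [e1, norm_smul, Real.norm_of_nonneg hD0.le]
    calc D * ‖G x - g' s‖ ≤ D * (3 * (132 * c) * dist x s) :=
          mul_le_mul_of_nonneg_left (hG2 x s hs) hD0.le
      _ = 6 * (66 * c * D) * dist x s := by ring

lemma cov_empty {X : Type*} [MetricSpace X] (c : ℝ) (m : ℕ) : Cov (∅ : Set X) c m := by
  intro s hs
  exact ⟨∅, fun a ha => absurd ha (Set.notMem_empty a), fun C hC => absurd hC (Set.notMem_empty C),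
    fun C hC => absurd hC (Set.notMem_empty C), fun p hp => absurd hp (Set.notMem_empty p)⟩

lemma cov_singleton {X : Type*} [MetricSpace X] (x : X) (c : ℝ) (hc : 1 ≤ c) (m : ℕ)
    (hm : 1 ≤ m) : Cov ({x} : Set X) c m := by
  intro s hs
  refine ⟨{{x}}, fun a ha => ⟨{x}, rfl, ha⟩, fun C hC => ?_, fun C hC y hy z hz => ?_,
    fun p hp => ?_⟩
  · rw [Set.mem_singleton_iff.1 hC]
  · rw [Set.mem_singleton_iff.1 hC] at hy hz
    rw [Set.mem_singleton_iff.1 hy, Set.mem_singleton_iff.1 hz, dist_self]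
    positivity
  · refine le_trans (Set.encard_le_encard (t := {{x}}) fun C hC => hC.1) ?_
    rw [Set.encard_singleton]
    exact_mod_cast hm

/-- Finite unions, one exceptional piece. -/
theorem but_finite_embed {X : Type} [Fintype X] [MetricSpace X] {k : ℕ} (c : ℝ) (hc : 1 ≤ c)
    (m : ℕ) (hm : 1 ≤ m)
    (A : Fin k → Set X) (hne : ∀ i, (A i).Nonempty) (hcov : ∀ x, ∃ i, x ∈ A i)
    (i0 : Fin k) (hP : ∀ i, i ≠ i0 → Cov (A i) c m) {H : Type*} [NormedAddCommGroup H] [InnerProductSpace ℝ H]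
    (D : ℝ) (hD : 1 ≤ D) (g : Fin k → X → H)
    (hg : ∀ i, ∀ x ∈ A i, ∀ y ∈ A i, dist x y ≤ ‖g i x - g i y‖ ∧
      ‖g i x - g i y‖ ≤ D * dist x y) :
    ∃ (H' : Type) (_ : NormedAddCommGroup H') (_ : InnerProductSpace ℝ H') (f : X → H'),
      ∀ x y, dist x y ≤ ‖f x - f y‖ ∧
        ‖f x - f y‖ ≤ 1300000 * D * c * (1 + Real.log k +
          √((1 + Real.log m) * (1 + Real.log k))) * dist x y := by
  classical
  by_cases hX : IsEmpty X
  · exact ⟨ℝ, inferInstance, inferInstance, fun _ => 0, fun x => (hX.false x).elim⟩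
  rw [not_isEmpty_iff] at hX
  obtain ⟨x0⟩ := hX
  have hk : 1 ≤ k := by
    obtain ⟨i, -⟩ := hcov x0
    have := i.2; omega
  have hD0 : 0 < D := by linarith
  have hc0 : 0 < c := by linarith
  -- reduction to a finite dimensional space
  let S : Finset H := Finset.univ.image fun p : Fin k × X => g p.1 p.2
  let V : Submodule ℝ H := Submodule.span ℝ (S : Set H)
  have : FiniteDimensional ℝ V := FiniteDimensional.span_finset ℝ S
  let b := stdOrthonormalBasis ℝ V
  have hV : ∀ i x, g i x ∈ V := fun i x =>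
    Submodule.subset_span (Finset.mem_coe.2 (Finset.mem_image.2 ⟨(i, x), Finset.mem_univ _, rfl⟩))
  let g' : Fin k → X → EuclideanSpace ℝ (Fin (Module.finrank ℝ V)) := fun i x =>
    b.repr ⟨g i x, hV i x⟩
  have hg' : ∀ i x y, ‖g' i x - g' i y‖ = ‖g i x - g i y‖ := by
    intro i x y
    simp only [g']
    rw [← map_sub, LinearIsometryEquiv.norm_map]
    rfl
  have hCC : ∀ i, Cov (A i) c m ∨ ∃ B : Fin k → Set X, (∀ x, x ∉ A i → ∃ j, x ∈ B j) ∧
      ∀ j, Cov (B j) c m := by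
    intro i
    by_cases hi : i = i0
    · right
      refine ⟨fun j => if j = i0 then ∅ else A j, fun x hx => ?_, fun j => ?_⟩
      · obtain ⟨j, hj⟩ := hcov x
        have hji : j ≠ i0 := by
          rintro rfl
          rw [hi] at hx
          exact hx hj
        refine ⟨j, ?_⟩
        simp only [if_neg hji]
        exact hj
      · by_cases hj : j = i0
        · simp only [if_pos hj]; exact cov_empty c m
        · simp only [if_neg hj]; exact hP j hj
    · exact Or.inl (hP i hi)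
  choose F hF1 hF2 using fun i => but_ext k hk (A i) (hne i) c hc m hm (hCC i) D hD (g' i)
    (fun x hx y hy => by rw [hg']; exact (hg i x hx y hy).2)
  have hlog : 0 ≤ Real.log m := Real.log_natCast_nonneg m
  obtain ⟨H', i1, i2, f, hf⟩ := finite_embed_of_ext A hne hcov g' (66 * c * D) (by nlinarith)
    (fun i x hx y hy => by rw [hg']; exact (hg i x hx y hy).1)
    (D * (3432 * c * √(1 + Real.log (k * m : ℕ)))) (by positivity) F hF1 hF2
  refine ⟨H', i1, i2, f, fun x y => ⟨(hf x y).1, ?_⟩⟩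
  have hρ0 : 0 ≤ dist x y := dist_nonneg
  have hkm : Real.log (k * m : ℕ) = Real.log k + Real.log m := by
    push_cast
    exact Real.log_mul (by exact_mod_cast (by omega : k ≠ 0)) (by exact_mod_cast (by omega : m ≠ 0))
  set l := 1 + Real.log k with hl
  have hl1 : 1 ≤ l := by
    have : 0 ≤ Real.log k := Real.log_nonneg (by exact_mod_cast hk)
    linarith
  set μ := 1 + Real.log m with hμ
  have hμ1 : 1 ≤ μ := by linarith
  have hT1 : ((Nat.log 2 k : ℕ) : ℝ) + 1 ≤ 3 / 2 * l := log2_le k hk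
  have hT0 : (0 : ℝ) ≤ ((Nat.log 2 k : ℕ) : ℝ) + 1 := by positivity
  have hs0 : 0 ≤ √(μ * l) := Real.sqrt_nonneg _
  have hs2 : √(μ * l) ^ 2 = μ * l := Real.sq_sqrt (by positivity)
  have hK2 : √(1 + Real.log (k * m : ℕ)) ^ 2 ≤ μ + l := by
    rw [Real.sq_sqrt (by linarith [Real.log_natCast_nonneg (k * m)]), hkm]
    linarith
  refine le_of_sq_le_sq ?_ (by positivity)
  refine (hf x y).2.trans ?_
  have h1 : 512 * ((28 * (66 * c * D)) ^ 2 * (((Nat.log 2 k : ℕ) : ℝ) + 1) +
      4 * (D * (3432 * c * √(1 + Real.log (k * m : ℕ)))) ^ 2) ≤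
      (D * c) ^ 2 * (512 * (1848 ^ 2 * (3 / 2 * l) + 4 * (3432 ^ 2 * (μ + l)))) := by
    have e1 : 512 * ((28 * (66 * c * D)) ^ 2 * (((Nat.log 2 k : ℕ) : ℝ) + 1) +
      4 * (D * (3432 * c * √(1 + Real.log (k * m : ℕ)))) ^ 2) =
      (D * c) ^ 2 * (512 * (1848 ^ 2 * (((Nat.log 2 k : ℕ) : ℝ) + 1) +
        4 * (3432 ^ 2 * √(1 + Real.log (k * m : ℕ)) ^ 2))) := by
      ring
    rw [e1]
    apply mul_le_mul_of_nonneg_left _ (by positivity)
    gcongr
  have h2 : 42 * (((Nat.log 2 k : ℕ) : ℝ) + 1) ≤ 63 * l := by linarith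
  have h3 : 512 * ((28 * (66 * c * D)) ^ 2 * (((Nat.log 2 k : ℕ) : ℝ) + 1) +
      4 * (D * (3432 * c * √(1 + Real.log (k * m : ℕ)))) ^ 2) *
        (42 * (((Nat.log 2 k : ℕ) : ℝ) + 1)) ≤
      (D * c) ^ 2 * (512 * (1848 ^ 2 * (3 / 2 * l) + 4 * (3432 ^ 2 * (μ + l)))) * (63 * l) :=
    mul_le_mul h1 h2 (by positivity) (by positivity)
  have h4 : 512 * (1848 ^ 2 * (3 / 2 * l) + 4 * (3432 ^ 2 * (μ + l))) * (63 * l) ≤
      (1300000 * (l + √(μ * l))) ^ 2 := by
    have e1 : (1300000 * (l + √(μ * l))) ^ 2 =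
        1690000000000 * l ^ 2 + 3380000000000 * (l * √(μ * l)) +
          1690000000000 * √(μ * l) ^ 2 := by
      ring
    rw [e1, hs2]
    have e2 : 0 ≤ l * √(μ * l) := by positivity
    have e3 : 0 ≤ μ * l := by positivity
    have e5 : 512 * (1848 ^ 2 * (3 / 2 * l) + 4 * (3432 ^ 2 * (μ + l))) * (63 * l) =
        1684961574912 * l ^ 2 + 1519725182976 * (μ * l) := by ring
    rw [e5]
    nlinarith [sq_nonneg l]
  calc _ ≤ (D * c) ^ 2 * (512 * (1848 ^ 2 * (3 / 2 * l) + 4 * (3432 ^ 2 * (μ + l)))) * (63 * l) *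
        dist x y ^ 2 := mul_le_mul_of_nonneg_right h3 (by positivity)
    _ = (D * c) ^ 2 * (512 * (1848 ^ 2 * (3 / 2 * l) + 4 * (3432 ^ 2 * (μ + l))) * (63 * l)) *
        dist x y ^ 2 := by ring
    _ ≤ (D * c) ^ 2 * (1300000 * (l + √(μ * l))) ^ 2 * dist x y ^ 2 :=
        mul_le_mul_of_nonneg_right (mul_le_mul_of_nonneg_left h4 (by positivity)) (by positivity)
    _ = (1300000 * D * c * (l + √(μ * l)) * dist x y) ^ 2 := by ring

theorem but_finite_subset_embed.{u} {k : ℕ} (c : ℝ) (hc : 1 ≤ c) (m : ℕ) (hm : 1 ≤ m)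
    {X : Type u} [MetricSpace X]
    (A : Fin k → Set X) (hcov : ∀ x, ∃ i, x ∈ A i) (i0 : Fin k)
    (hP : ∀ i, i ≠ i0 → Cov (A i) c m)
    {H : Type*} [NormedAddCommGroup H] [InnerProductSpace ℝ H] (D : ℝ) (hD : 1 ≤ D)
    (g : Fin k → X → H)
    (hg : ∀ i, ∀ x ∈ A i, ∀ y ∈ A i, dist x y ≤ ‖g i x - g i y‖ ∧
      ‖g i x - g i y‖ ≤ D * dist x y)
    (S : Finset X) :
    ∃ (H' : Type) (_ : NormedAddCommGroup H') (_ : InnerProductSpace ℝ H')
      (f : X → H'), ∀ x ∈ S, ∀ y ∈ S, dist x y ≤ ‖f x - f y‖ ∧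
        ‖f x - f y‖ ≤ 1300000 * D * c * (1 + Real.log k +
          √((1 + Real.log m) * (1 + Real.log k))) * dist x y := by
  classical
  by_cases hS : S = ∅
  · subst hS
    exact ⟨ℝ, inferInstance, inferInstance, fun _ => 0, fun x hx => by simp at hx⟩
  obtain ⟨x0, hx0⟩ := Finset.nonempty_iff_ne_empty.2 hS
  obtain ⟨e⟩ : Nonempty (Pt S.card ≃ S) := ⟨(S.equivFin.symm : Fin S.card ≃ S)⟩
  let emb : Pt S.card → X := fun j => (e j : X)
  have hemb : Function.Injective emb := fun a b h => e.injective (Subtype.ext h)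
  let : MetricSpace (Pt S.card) := MetricSpace.induced emb hemb inferInstance
  have hd : ∀ a b : Pt S.card, dist a b = dist (emb a) (emb b) := fun a b => rfl
  -- classes missing `S` are replaced by a singleton
  let A' : Fin k → Set X := fun i => if ∃ x ∈ S, x ∈ A i then A i else {x0}
  have hA'1 : ∀ i, (∃ x ∈ S, x ∈ A i) → A' i = A i := fun i h => if_pos h
  have hA'2 : ∀ i, ¬ (∃ x ∈ S, x ∈ A i) → A' i = {x0} := fun i h => if_neg h
  obtain ⟨H', j1, j2, f, hf⟩ := but_finite_embed (X := Pt S.card) c hc m hm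
    (fun i => emb ⁻¹' (A' i))
    (fun i => by
      by_cases h : ∃ x ∈ S, x ∈ A i
      · obtain ⟨x, hx, hxA⟩ := h
        refine ⟨e.symm ⟨x, hx⟩, ?_⟩
        show emb (e.symm ⟨x, hx⟩) ∈ A' i
        rw [hA'1 i ⟨x, hx, hxA⟩]
        simpa [emb] using hxA
      · refine ⟨e.symm ⟨x0, hx0⟩, ?_⟩
        show emb (e.symm ⟨x0, hx0⟩) ∈ A' i
        rw [hA'2 i h]
        simp [emb])
    (fun a => by
      obtain ⟨i, hi⟩ := hcov (emb a)
      refine ⟨i, ?_⟩
      show emb a ∈ A' i
      rw [hA'1 i ⟨emb a, (e a).2, hi⟩]; exact hi)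
    i0
    (fun i hi => by
      refine Cov.preimage ?_ emb fun a b => (hd a b).symm
      by_cases h : ∃ x ∈ S, x ∈ A i
      · rw [hA'1 i h]; exact hP i hi
      · rw [hA'2 i h]; exact cov_singleton x0 c hc m hm)
    D hD (fun i a => g i (emb a))
    (fun i a ha b hb => by
      by_cases h : ∃ x ∈ S, x ∈ A i
      · have ha' : emb a ∈ A' i := ha
        have hb' : emb b ∈ A' i := hb
        rw [hA'1 i h] at ha' hb'
        exact hg i _ ha' _ hb'
      · have ha' : emb a ∈ A' i := ha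
        have hb' : emb b ∈ A' i := hb
        rw [hA'2 i h, Set.mem_singleton_iff] at ha' hb'
        have hab : a = b := hemb (ha'.trans hb'.symm)
        subst hab
        simp)
  refine ⟨H', j1, j2, fun x => if hx : x ∈ S then f (e.symm ⟨x, hx⟩) else 0, ?_⟩
  intro x hx y hy
  have h1 := hf (e.symm ⟨x, hx⟩) (e.symm ⟨y, hy⟩)
  have h2 : dist (e.symm ⟨x, hx⟩) (e.symm ⟨y, hy⟩) = dist x y := by
    rw [hd]
    simp [emb]
  rw [h2] at h1
  simp only [dif_pos hx, dif_pos hy]
  exact h1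

/-- Unions of `k` Euclidean pieces, all but one with covers of bounded multiplicity. -/
theorem but_main.{u} (k : ℕ) (c : ℝ) (hc : 1 ≤ c) (m : ℕ) (hm : 1 ≤ m) (D : ℝ) (hD : 1 ≤ D)
    (X : Type u) [MetricSpace X] (A : Fin k → Set X) (hcov : ⋃ i, A i = Set.univ)
    (i0 : Fin k) (hP : ∀ i, i ≠ i0 → Cov (A i) c m)
    (hA : ∀ i, ∃ g : A i → lp (fun _ : ℕ => ℝ) 2, ∀ x y : A i,
      dist x y ≤ ‖g x - g y‖ ∧ ‖g x - g y‖ ≤ D * dist x y) :
    ∃ f : X → lp (fun _ : ℕ => ℝ) 2, ∀ x y, dist x y ≤ ‖f x - f y‖ ∧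
      ‖f x - f y‖ ≤ 1300000 * D * c * (1 + Real.log k +
          √((1 + Real.log m) * (1 + Real.log k))) * dist x y := by
  classical
  have hcov' : ∀ x, ∃ i, x ∈ A i := by
    intro x
    have : x ∈ ⋃ i, A i := by rw [hcov]; exact Set.mem_univ x
    simpa using this
  choose g hg using hA
  let G : Fin k → X → lp (fun _ : ℕ => ℝ) 2 := fun i x => if hx : x ∈ A i then g i ⟨x, hx⟩ else 0
  have hG : ∀ i, ∀ x ∈ A i, ∀ y ∈ A i, dist x y ≤ ‖G i x - G i y‖ ∧
      ‖G i x - G i y‖ ≤ D * dist x y := by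
    intro i x hx y hy
    simp only [G, dif_pos hx, dif_pos hy]
    exact hg i ⟨x, hx⟩ ⟨y, hy⟩
  have hlog : 0 ≤ Real.log m := Real.log_natCast_nonneg m
  have hlogk : 0 ≤ Real.log k := Real.log_natCast_nonneg k
  obtain ⟨H, i1, i2, i3, f, hf⟩ := finite_to_all (1300000 * D * c * (1 + Real.log k +
      √((1 + Real.log m) * (1 + Real.log k))))
    (fun S => but_finite_subset_embed c hc m hm A hcov' i0 hP D hD G hG S)
  -- separability
  have := l2_separable
  have hsepA : ∀ i, TopologicalSpace.IsSeparable (A i) := by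
    intro i
    have h1 : TopologicalSpace.IsSeparable (Set.range (g i)) :=
      TopologicalSpace.IsSeparable.of_separableSpace _
    have hLip : LipschitzWith (Real.toNNReal D) (g i) := LipschitzWith.of_dist_le_mul fun x y => by
      rw [dist_eq_norm, Real.coe_toNNReal _ (by linarith)]; exact (hg i x y).2
    have hAnti : AntilipschitzWith 1 (g i) := AntilipschitzWith.of_le_mul_dist fun x y => by
      rw [dist_eq_norm, NNReal.coe_one, one_mul]; exact (hg i x y).1
    have h2 : Topology.IsInducing (g i) :=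
      (hAnti.isUniformInducing hLip.uniformContinuous).isInducing
    have h3 : TopologicalSpace.SeparableSpace (A i) := by
      have : SecondCountableTopology (A i) := by
        have : SecondCountableTopology (lp (fun _ : ℕ => ℝ) 2) :=
          UniformSpace.secondCountable_of_separable _
        exact h2.secondCountableTopology
      infer_instance
    exact TopologicalSpace.IsSeparable.of_subtype _
  have hsepX : TopologicalSpace.SeparableSpace X := by
    rw [← TopologicalSpace.isSeparable_univ_iff, ← hcov]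
    exact TopologicalSpace.IsSeparable.iUnion hsepA
  have hcont : Continuous f := by
    have : LipschitzWith (Real.toNNReal (1300000 * D * c * (1 + Real.log k +
        √((1 + Real.log m) * (1 + Real.log k))))) f := by
      refine LipschitzWith.of_dist_le_mul fun x y => ?_
      rw [dist_eq_norm, Real.coe_toNNReal _ (by positivity)]
      exact (hf x y).2
    exact this.continuous
  obtain ⟨F, hF⟩ := to_l2 f (TopologicalSpace.isSeparable_range hcont)
  exact ⟨F, fun x y => by rw [hF]; exact hf x y⟩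

end Pool.Agent.H98U
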