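import Pool.Agent.H98U.LowEmbed
import Pool.Agent.H80U.Final

/-!
Unions of `k` pieces of `ℝⁿ`: arbitrary metric spaces.
-/

open Finset

namespace Pool.Agent.H98U

open Pool.Agent.H80U

theorem low_finite_subset_embed.{u} {k n : ℕ} {X : Type u} [MetricSpace X] (A : Fin k → Set X)
    (hcov : ∀ x, ∃ i, x ∈ A i)
    (D : ℝ) (hD : 1 ≤ D) (g : Fin k → X → EuclideanSpace ℝ (Fin n))
    (hg : ∀ i, ∀ x ∈ A i, ∀ y ∈ A i, dist x y ≤ ‖g i x - g i y‖ ∧
      ‖g i x - g i y‖ ≤ D * dist x y)
    (S : Finset X) :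
    ∃ (H' : Type) (_ : NormedAddCommGroup H') (_ : InnerProductSpace ℝ H')
      (f : X → H'), ∀ x ∈ S, ∀ y ∈ S, dist x y ≤ ‖f x - f y‖ ∧
        ‖f x - f y‖ ≤
          D * (7000 * (1 + Real.log k) + 800 * √(n * (1 + Real.log k))) * dist x y := by
  classical
  by_cases hS : S = ∅
  · subst hS
    exact ⟨ℝ, inferInstance, inferInstance, fun _ => 0, fun x hx => by simp at hx⟩
  obtain ⟨x0, hx0⟩ := Finset.nonempty_iff_ne_empty.2 hS
  obtain ⟨e⟩ : Nonempty (Pt S.card ≃ S) := ⟨(S.equivFin.symm : Fin S.card ≃ S)⟩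
  let emb : Pt S.card → X := fun j => (e j : X)
  have hemb : Function.Injective emb := fun a b h => e.injective (Subtype.ext h)
  let : MetricSpace (Pt S.card) := MetricSpace.induced emb hemb inferInstance
  have hd : ∀ a b : Pt S.card, dist a b = dist (emb a) (emb b) := fun a b => rfl
  obtain ⟨i0, hi0⟩ := hcov x0
  -- index replacement for classes missing `S`
  let s : Fin k → Fin k := fun i => if ∃ x ∈ S, x ∈ A i then i else i0
  obtain ⟨H', j1, j2, f, hf⟩ := low_finite_embed (X := Pt S.card) (fun i => emb ⁻¹' (A (s i)))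
    (fun i => by
      by_cases h : ∃ x ∈ S, x ∈ A i
      · obtain ⟨x, hx, hxA⟩ := h
        refine ⟨e.symm ⟨x, hx⟩, ?_⟩
        have hs : s i = i := if_pos ⟨x, hx, hxA⟩
        show emb (e.symm ⟨x, hx⟩) ∈ A (s i)
        rw [hs]
        simpa [emb] using hxA
      · refine ⟨e.symm ⟨x0, hx0⟩, ?_⟩
        have hs : s i = i0 := if_neg h
        show emb (e.symm ⟨x0, hx0⟩) ∈ A (s i)
        rw [hs]
        simpa [emb] using hi0)
    (fun a => by
      obtain ⟨i, hi⟩ := hcov (emb a)
      refine ⟨i, ?_⟩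
      have hs : s i = i := if_pos ⟨emb a, (e a).2, hi⟩
      show emb a ∈ A (s i)
      rw [hs]; exact hi)
    D hD (fun i a => g (s i) (emb a))
    (fun i a ha b hb => hg (s i) _ ha _ hb)
  refine ⟨H', j1, j2, fun x => if hx : x ∈ S then f (e.symm ⟨x, hx⟩) else 0, ?_⟩
  intro x hx y hy
  have h1 := hf (e.symm ⟨x, hx⟩) (e.symm ⟨y, hy⟩)
  have h2 : dist (e.symm ⟨x, hx⟩) (e.symm ⟨y, hy⟩) = dist x y := by
    rw [hd]
    simp [emb]
  rw [h2] at h1
  simp only [dif_pos hx, dif_pos hy]
  exact h1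

theorem low_main.{u} (k n : ℕ) (D : ℝ) (hD : 1 ≤ D) (X : Type u) [MetricSpace X] (A : Fin k → Set X)
    (hcov : ⋃ i, A i = Set.univ)
    (hA : ∀ i, ∃ g : A i → EuclideanSpace ℝ (Fin n), ∀ x y : A i,
      dist x y ≤ ‖g x - g y‖ ∧ ‖g x - g y‖ ≤ D * dist x y) :
    ∃ f : X → lp (fun _ : ℕ => ℝ) 2, ∀ x y, dist x y ≤ ‖f x - f y‖ ∧
      ‖f x - f y‖ ≤
          D * (7000 * (1 + Real.log k) + 800 * √(n * (1 + Real.log k))) * dist x y := by
  classical
  have hcov' : ∀ x, ∃ i, x ∈ A i := by
    intro x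
    have : x ∈ ⋃ i, A i := by rw [hcov]; exact Set.mem_univ x
    simpa using this
  choose g hg using hA
  let G : Fin k → X → EuclideanSpace ℝ (Fin n) := fun i x =>
    if hx : x ∈ A i then g i ⟨x, hx⟩ else 0
  have hG : ∀ i, ∀ x ∈ A i, ∀ y ∈ A i, dist x y ≤ ‖G i x - G i y‖ ∧
      ‖G i x - G i y‖ ≤ D * dist x y := by
    intro i x hx y hy
    simp only [G, dif_pos hx, dif_pos hy]
    exact hg i ⟨x, hx⟩ ⟨y, hy⟩
  obtain ⟨H, i1, i2, i3, f, hf⟩ := finite_to_all
    (D * (7000 * (1 + Real.log k) + 800 * √(n * (1 + Real.log k))))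
    (fun S => low_finite_subset_embed A hcov' D hD G hG S)
  -- separability
  have := l2_separable
  have hsepA : ∀ i, TopologicalSpace.IsSeparable (A i) := by
    intro i
    have h1 : TopologicalSpace.IsSeparable (Set.range (g i)) :=
      TopologicalSpace.IsSeparable.of_separableSpace _
    have hLip : LipschitzWith (Real.toNNReal D) (g i) := LipschitzWith.of_dist_le_mul fun x y => by
      rw [dist_eq_norm, Real.coe_toNNReal _ (by linarith)]; exact (hg i x y).2
    have hAnti : AntilipschitzWith 1 (g i) := AntilipschitzWith.of_le_mul_dist fun x y => by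
      rw [dist_eq_norm, NNReal.coe_one, one_mul]; exact (hg i x y).1
    have h2 : Topology.IsInducing (g i) :=
      (hAnti.isUniformInducing hLip.uniformContinuous).isInducing
    have h3 : TopologicalSpace.SeparableSpace (A i) := by
      have : SecondCountableTopology (A i) := by
        exact h2.secondCountableTopology
      infer_instance
    exact TopologicalSpace.IsSeparable.of_subtype _
  have hsepX : TopologicalSpace.SeparableSpace X := by
    rw [← TopologicalSpace.isSeparable_univ_iff, ← hcov]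
    exact TopologicalSpace.IsSeparable.iUnion hsepA
  have hcont : Continuous f := by
    have : LipschitzWith (Real.toNNReal
        (D * (7000 * (1 + Real.log k) + 800 * √(n * (1 + Real.log k))))) f := by
      refine LipschitzWith.of_dist_le_mul fun x y => ?_
      rw [dist_eq_norm, Real.coe_toNNReal _ (by positivity)]
      exact (hf x y).2
    exact this.continuous
  obtain ⟨F, hF⟩ := to_l2 f (TopologicalSpace.isSeparable_range hcont)
  exact ⟨F, fun x y => by rw [hF]; exact hf x y⟩

end Pool.Agent.H98U
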