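import Pool.Agent.H98U.Single
import Pool.Agent.H98U.LowFinal

/-!
Unions of `k` doubling pieces.
-/

open Finset

namespace Pool.Agent.H98U

open Pool.Agent.H80U

/-- Extension of a Lipschitz map of a doubling subset. -/
theorem dbl_ext {X : Type} [Fintype X] [MetricSpace X] {n : ℕ} (A : Set X) (hA : A.Nonempty)
    (lam : ℕ) (hlam : 2 ≤ lam) (hP : Pack A lam) (D : ℝ) (hD : 1 ≤ D)
    (g : X → EuclideanSpace ℝ (Fin n))
    (hg : ∀ a ∈ A, ∀ b ∈ A, ‖g a - g b‖ ≤ D * dist a b) :
    ∃ F : X → EuclideanSpace ℝ (Fin n),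
      (∀ x y, ‖F x - F y‖ ≤ D * (129 * √(8 * (1 + Real.log lam)) + 1690) * dist x y) ∧
      ∀ x, ∀ s ∈ A, ‖F x - g s‖ ≤ 6 * (33 * D) * dist x s := by
  classical
  have hlog : 0 ≤ Real.log lam := Real.log_natCast_nonneg lam
  have hD0 : 0 < D := by linarith
  set K : ℝ := √(8 * (1 + Real.log lam)) with hK
  have hK0 : 0 < K := Real.sqrt_pos.2 (by positivity)
  have hK2 : K ^ 2 = 8 * (1 + Real.log lam) := Real.sq_sqrt (by positivity)
  set g' : X → EuclideanSpace ℝ (Fin n) := fun x => D⁻¹ • g x with hg'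
  have hgg : ∀ a ∈ A, ∀ b ∈ A, ‖g' a - g' b‖ ≤ dist a b := by
    intro a ha b hb
    rw [hg']; simp only
    rw [← smul_sub, norm_smul, Real.norm_of_nonneg (by positivity), inv_mul_le_iff₀ hD0]
    exact hg a ha b hb
  have h := fun m : ℤ => single A hA lam hlam hP g' hgg ((2 : ℝ) ^ m) (by positivity) K hK0 hK2
  choose F h1 h2 using h
  obtain ⟨G, hG1, hG2⟩ := glue A hA g' 65 (129 * K + 715) (by norm_num) (by positivity) F
    (fun m x hx a ha => h1 m x hx a ha) (fun m x y hx hy => h2 m x y hx hy) hgg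
  refine ⟨fun x => D • G x, fun x y => ?_, fun x s hs => ?_⟩
  · rw [← smul_sub, norm_smul, Real.norm_of_nonneg hD0.le, mul_assoc]
    apply mul_le_mul_of_nonneg_left _ hD0.le
    have := hG1 x y
    have e : (129 * K + 715 + 15 * 65) = 129 * K + 1690 := by ring
    rw [e] at this
    exact this
  · have e1 : D • G x - g s = D • (G x - g' s) := by
      rw [smul_sub, hg']; simp only
      rw [smul_smul, mul_inv_cancel₀ hD0.ne', one_smul]
    rw [e1, norm_smul, Real.norm_of_nonneg hD0.le]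
    have h3 := hG2 x s hs
    have h4 : 0 ≤ D * dist x s := by positivity
    calc D * ‖G x - g' s‖ ≤ D * (3 * 65 * dist x s) := mul_le_mul_of_nonneg_left h3 hD0.le
      _ ≤ 6 * (33 * D) * dist x s := by nlinarith

/-- Finite unions of `k` doubling pieces. -/
theorem dbl_finite_embed {X : Type} [Fintype X] [MetricSpace X] {k lam : ℕ} (hlam : 2 ≤ lam)
    (A : Fin k → Set X) (hne : ∀ i, (A i).Nonempty) (hcov : ∀ x, ∃ i, x ∈ A i)
    (hP : ∀ i, Pack (A i) lam) {H : Type*} [NormedAddCommGroup H] [InnerProductSpace ℝ H]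
    (D : ℝ) (hD : 1 ≤ D) (g : Fin k → X → H)
    (hg : ∀ i, ∀ x ∈ A i, ∀ y ∈ A i, dist x y ≤ ‖g i x - g i y‖ ∧
      ‖g i x - g i y‖ ≤ D * dist x y) :
    ∃ (H' : Type) (_ : NormedAddCommGroup H') (_ : InnerProductSpace ℝ H') (f : X → H'),
      ∀ x y, dist x y ≤ ‖f x - f y‖ ∧
        ‖f x - f y‖ ≤ D * (210000 * (1 + Real.log k) +
          900000 * √((1 + Real.log lam) * (1 + Real.log k))) * dist x y := by
  classical
  by_cases hX : IsEmpty X
  · exact ⟨ℝ, inferInstance, inferInstance, fun _ => 0, fun x => (hX.false x).elim⟩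
  rw [not_isEmpty_iff] at hX
  obtain ⟨x0⟩ := hX
  have hk : 1 ≤ k := by
    obtain ⟨i, -⟩ := hcov x0
    have := i.2; omega
  have hD0 : 0 < D := by linarith
  -- reduction to a finite dimensional space
  let S : Finset H := Finset.univ.image fun p : Fin k × X => g p.1 p.2
  let V : Submodule ℝ H := Submodule.span ℝ (S : Set H)
  have : FiniteDimensional ℝ V := FiniteDimensional.span_finset ℝ S
  let b := stdOrthonormalBasis ℝ V
  have hV : ∀ i x, g i x ∈ V := fun i x =>
    Submodule.subset_span (Finset.mem_coe.2 (Finset.mem_image.2 ⟨(i, x), Finset.mem_univ _, rfl⟩))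
  let g' : Fin k → X → EuclideanSpace ℝ (Fin (Module.finrank ℝ V)) := fun i x =>
    b.repr ⟨g i x, hV i x⟩
  have hg' : ∀ i x y, ‖g' i x - g' i y‖ = ‖g i x - g i y‖ := by
    intro i x y
    simp only [g']
    rw [← map_sub, LinearIsometryEquiv.norm_map]
    rfl
  choose F hF1 hF2 using fun i => dbl_ext (A i) (hne i) lam hlam (hP i) D hD (g' i)
    (fun x hx y hy => by rw [hg']; exact (hg i x hx y hy).2)
  have hlog : 0 ≤ Real.log lam := Real.log_natCast_nonneg lam
  obtain ⟨H', i1, i2, f, hf⟩ := finite_embed_of_ext A hne hcov g' (33 * D) (by linarith)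
    (fun i x hx y hy => by rw [hg']; exact (hg i x hx y hy).1)
    (D * (129 * √(8 * (1 + Real.log lam)) + 1690)) (by positivity) F hF1 hF2
  refine ⟨H', i1, i2, f, fun x y => ⟨(hf x y).1, ?_⟩⟩
  have hρ0 : 0 ≤ dist x y := dist_nonneg
  set l := 1 + Real.log k with hl
  have hl1 : 1 ≤ l := by
    have : 0 ≤ Real.log k := Real.log_nonneg (by exact_mod_cast hk)
    linarith
  set μ := 1 + Real.log lam with hμ
  have hμ1 : 1 ≤ μ := by linarith
  have hT1 : ((Nat.log 2 k : ℕ) : ℝ) + 1 ≤ 3 / 2 * l := log2_le k hk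
  have hT0 : (0 : ℝ) ≤ ((Nat.log 2 k : ℕ) : ℝ) + 1 := by positivity
  have hs0 : 0 ≤ √(μ * l) := Real.sqrt_nonneg _
  have hs2 : √(μ * l) ^ 2 = μ * l := Real.sq_sqrt (by positivity)
  have hK2 : √(8 * μ) ^ 2 = 8 * μ := Real.sq_sqrt (by positivity)
  have hL2 : (129 * √(8 * μ) + 1690) ^ 2 ≤ 5978456 * μ := by
    nlinarith [sq_nonneg (129 * √(8 * μ) - 1690)]
  refine le_of_sq_le_sq ?_ (by positivity)
  refine (hf x y).2.trans ?_
  have h1 : 512 * ((28 * (33 * D)) ^ 2 * (((Nat.log 2 k : ℕ) : ℝ) + 1) +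
      4 * (D * (129 * √(8 * μ) + 1690)) ^ 2) ≤
      D ^ 2 * (512 * (924 ^ 2 * (3 / 2 * l) + 4 * (5978456 * μ))) := by
    have e1 : 512 * ((28 * (33 * D)) ^ 2 * (((Nat.log 2 k : ℕ) : ℝ) + 1) +
      4 * (D * (129 * √(8 * μ) + 1690)) ^ 2) =
      D ^ 2 * (512 * (924 ^ 2 * (((Nat.log 2 k : ℕ) : ℝ) + 1) +
        4 * (129 * √(8 * μ) + 1690) ^ 2)) := by
      ring
    rw [e1]
    apply mul_le_mul_of_nonneg_left _ (by positivity)
    gcongr
  have h2 : 42 * (((Nat.log 2 k : ℕ) : ℝ) + 1) ≤ 63 * l := by linarith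
  have h3 : 512 * ((28 * (33 * D)) ^ 2 * (((Nat.log 2 k : ℕ) : ℝ) + 1) +
      4 * (D * (129 * √(8 * μ) + 1690)) ^ 2) * (42 * (((Nat.log 2 k : ℕ) : ℝ) + 1)) ≤
      D ^ 2 * (512 * (924 ^ 2 * (3 / 2 * l) + 4 * (5978456 * μ))) * (63 * l) :=
    mul_le_mul h1 h2 (by positivity) (by positivity)
  have h4 : 512 * (924 ^ 2 * (3 / 2 * l) + 4 * (5978456 * μ)) * (63 * l) ≤
      (210000 * l + 900000 * √(μ * l)) ^ 2 := by
    have e1 : (210000 * l + 900000 * √(μ * l)) ^ 2 =
        44100000000 * l ^ 2 + 378000000000 * (l * √(μ * l)) +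
          810000000000 * √(μ * l) ^ 2 := by
      ring
    rw [e1, hs2]
    have e2 : 0 ≤ l * √(μ * l) := by positivity
    have e3 : 0 ≤ μ * l := by positivity
    have e5 : 512 * (924 ^ 2 * (3 / 2 * l) + 4 * (5978456 * μ)) * (63 * l) =
        41309097984 * l ^ 2 + 771364306944 * (μ * l) := by ring
    rw [e5]
    nlinarith [sq_nonneg l]
  calc _ ≤ D ^ 2 * (512 * (924 ^ 2 * (3 / 2 * l) + 4 * (5978456 * μ))) * (63 * l) *
        dist x y ^ 2 := mul_le_mul_of_nonneg_right h3 (by positivity)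
    _ = D ^ 2 * (512 * (924 ^ 2 * (3 / 2 * l) + 4 * (5978456 * μ)) * (63 * l)) *
        dist x y ^ 2 := by ring
    _ ≤ D ^ 2 * (210000 * l + 900000 * √(μ * l)) ^ 2 * dist x y ^ 2 :=
        mul_le_mul_of_nonneg_right (mul_le_mul_of_nonneg_left h4 (by positivity)) (by positivity)
    _ = (D * (210000 * l + 900000 * √(μ * l)) * dist x y) ^ 2 := by ring

lemma Pack.preimage {X Y : Type*} [MetricSpace X] [MetricSpace Y] {A : Set X} {lam : ℕ}
    (hP : Pack A lam) (e : Y → X) (he : ∀ a b, dist (e a) (e b) = dist a b) :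
    Pack (e ⁻¹' A) lam := by
  classical
  intro j p r hp hr S hSA hS hsep
  have hinj : Function.Injective e := by
    intro a b hab
    have := he a b
    rw [hab, dist_self] at this
    exact dist_eq_zero.1 this.symm
  have h1 := hP j (e p) r hp hr (S.image e)
    (fun q hq => by
      obtain ⟨q', hq', rfl⟩ := Finset.mem_image.1 hq
      exact hSA q' hq')
    (fun q hq => by
      obtain ⟨q', hq', rfl⟩ := Finset.mem_image.1 hq
      rw [he]; exact hS q' hq')
    (fun q hq q2 hq2 hne => by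
      obtain ⟨q', hq', rfl⟩ := Finset.mem_image.1 hq
      obtain ⟨q2', hq2', rfl⟩ := Finset.mem_image.1 hq2
      rw [he]
      exact hsep q' hq' q2' hq2' fun h => hne (by rw [h]))
  rwa [Finset.card_image_of_injective _ hinj] at h1

theorem dbl_finite_subset_embed.{u} {k lam : ℕ} (hlam : 2 ≤ lam) {X : Type u} [MetricSpace X]
    (A : Fin k → Set X) (hcov : ∀ x, ∃ i, x ∈ A i) (hP : ∀ i, Pack (A i) lam)
    {H : Type*} [NormedAddCommGroup H] [InnerProductSpace ℝ H] (D : ℝ) (hD : 1 ≤ D)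
    (g : Fin k → X → H)
    (hg : ∀ i, ∀ x ∈ A i, ∀ y ∈ A i, dist x y ≤ ‖g i x - g i y‖ ∧
      ‖g i x - g i y‖ ≤ D * dist x y)
    (S : Finset X) :
    ∃ (H' : Type) (_ : NormedAddCommGroup H') (_ : InnerProductSpace ℝ H')
      (f : X → H'), ∀ x ∈ S, ∀ y ∈ S, dist x y ≤ ‖f x - f y‖ ∧
        ‖f x - f y‖ ≤ D * (210000 * (1 + Real.log k) +
          900000 * √((1 + Real.log lam) * (1 + Real.log k))) * dist x y := by
  classical
  by_cases hS : S = ∅
  · subst hS
    exact ⟨ℝ, inferInstance, inferInstance, fun _ => 0, fun x hx => by simp at hx⟩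
  obtain ⟨x0, hx0⟩ := Finset.nonempty_iff_ne_empty.2 hS
  obtain ⟨e⟩ : Nonempty (Pt S.card ≃ S) := ⟨(S.equivFin.symm : Fin S.card ≃ S)⟩
  let emb : Pt S.card → X := fun j => (e j : X)
  have hemb : Function.Injective emb := fun a b h => e.injective (Subtype.ext h)
  let : MetricSpace (Pt S.card) := MetricSpace.induced emb hemb inferInstance
  have hd : ∀ a b : Pt S.card, dist a b = dist (emb a) (emb b) := fun a b => rfl
  obtain ⟨i0, hi0⟩ := hcov x0
  -- index replacement for classes missing `S`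
  let s : Fin k → Fin k := fun i => if ∃ x ∈ S, x ∈ A i then i else i0
  obtain ⟨H', j1, j2, f, hf⟩ := dbl_finite_embed (X := Pt S.card) hlam
    (fun i => emb ⁻¹' (A (s i)))
    (fun i => by
      by_cases h : ∃ x ∈ S, x ∈ A i
      · obtain ⟨x, hx, hxA⟩ := h
        refine ⟨e.symm ⟨x, hx⟩, ?_⟩
        have hs : s i = i := if_pos ⟨x, hx, hxA⟩
        show emb (e.symm ⟨x, hx⟩) ∈ A (s i)
        rw [hs]
        simpa [emb] using hxA
      · refine ⟨e.symm ⟨x0, hx0⟩, ?_⟩
        have hs : s i = i0 := if_neg h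
        show emb (e.symm ⟨x0, hx0⟩) ∈ A (s i)
        rw [hs]
        simpa [emb] using hi0)
    (fun a => by
      obtain ⟨i, hi⟩ := hcov (emb a)
      refine ⟨i, ?_⟩
      have hs : s i = i := if_pos ⟨emb a, (e a).2, hi⟩
      show emb a ∈ A (s i)
      rw [hs]; exact hi)
    (fun i => (hP (s i)).preimage emb fun a b => (hd a b).symm)
    D hD (fun i a => g (s i) (emb a))
    (fun i a ha b hb => hg (s i) _ ha _ hb)
  refine ⟨H', j1, j2, fun x => if hx : x ∈ S then f (e.symm ⟨x, hx⟩) else 0, ?_⟩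
  intro x hx y hy
  have h1 := hf (e.symm ⟨x, hx⟩) (e.symm ⟨y, hy⟩)
  have h2 : dist (e.symm ⟨x, hx⟩) (e.symm ⟨y, hy⟩) = dist x y := by
    rw [hd]
    simp [emb]
  rw [h2] at h1
  simp only [dif_pos hx, dif_pos hy]
  exact h1

/-- Unions of `k` doubling Euclidean pieces. -/
theorem dbl_main.{u} (k lam : ℕ) (hlam : 2 ≤ lam) (D : ℝ) (hD : 1 ≤ D) (X : Type u)
    [MetricSpace X] (A : Fin k → Set X) (hcov : ⋃ i, A i = Set.univ)
    (hdbl : ∀ i, ∀ (p : A i) (r : ℝ), 0 < r → ∃ T : Finset (A i), T.card ≤ lam ∧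
      ∀ q : A i, dist q p ≤ 2 * r → ∃ t ∈ T, dist q t ≤ r)
    (hA : ∀ i, ∃ g : A i → lp (fun _ : ℕ => ℝ) 2, ∀ x y : A i,
      dist x y ≤ ‖g x - g y‖ ∧ ‖g x - g y‖ ≤ D * dist x y) :
    ∃ f : X → lp (fun _ : ℕ => ℝ) 2, ∀ x y, dist x y ≤ ‖f x - f y‖ ∧
      ‖f x - f y‖ ≤ D * (210000 * (1 + Real.log k) +
          900000 * √((1 + Real.log lam) * (1 + Real.log k))) * dist x y := by
  classical
  have hcov' : ∀ x, ∃ i, x ∈ A i := by
    intro x
    have : x ∈ ⋃ i, A i := by rw [hcov]; exact Set.mem_univ x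
    simpa using this
  choose g hg using hA
  let G : Fin k → X → lp (fun _ : ℕ => ℝ) 2 := fun i x => if hx : x ∈ A i then g i ⟨x, hx⟩ else 0
  have hG : ∀ i, ∀ x ∈ A i, ∀ y ∈ A i, dist x y ≤ ‖G i x - G i y‖ ∧
      ‖G i x - G i y‖ ≤ D * dist x y := by
    intro i x hx y hy
    simp only [G, dif_pos hx, dif_pos hy]
    exact hg i ⟨x, hx⟩ ⟨y, hy⟩
  have hlog : 0 ≤ Real.log lam := Real.log_natCast_nonneg lam
  have hlogk : 0 ≤ Real.log k := Real.log_natCast_nonneg k
  obtain ⟨H, i1, i2, i3, f, hf⟩ := finite_to_all (D * (210000 * (1 + Real.log k) +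
      900000 * √((1 + Real.log lam) * (1 + Real.log k))))
    (fun S => dbl_finite_subset_embed hlam A hcov' (fun i => pack_of_doubling _ lam (hdbl i))
      D hD G hG S)
  -- separability
  have := l2_separable
  have hsepA : ∀ i, TopologicalSpace.IsSeparable (A i) := by
    intro i
    have h1 : TopologicalSpace.IsSeparable (Set.range (g i)) :=
      TopologicalSpace.IsSeparable.of_separableSpace _
    have hLip : LipschitzWith (Real.toNNReal D) (g i) := LipschitzWith.of_dist_le_mul fun x y => by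
      rw [dist_eq_norm, Real.coe_toNNReal _ (by linarith)]; exact (hg i x y).2
    have hAnti : AntilipschitzWith 1 (g i) := AntilipschitzWith.of_le_mul_dist fun x y => by
      rw [dist_eq_norm, NNReal.coe_one, one_mul]; exact (hg i x y).1
    have h2 : Topology.IsInducing (g i) :=
      (hAnti.isUniformInducing hLip.uniformContinuous).isInducing
    have h3 : TopologicalSpace.SeparableSpace (A i) := by
      have : SecondCountableTopology (A i) := by
        have : SecondCountableTopology (lp (fun _ : ℕ => ℝ) 2) :=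
          UniformSpace.secondCountable_of_separable _
        exact h2.secondCountableTopology
      infer_instance
    exact TopologicalSpace.IsSeparable.of_subtype _
  have hsepX : TopologicalSpace.SeparableSpace X := by
    rw [← TopologicalSpace.isSeparable_univ_iff, ← hcov]
    exact TopologicalSpace.IsSeparable.iUnion hsepA
  have hcont : Continuous f := by
    have : LipschitzWith (Real.toNNReal (D * (210000 * (1 + Real.log k) +
        900000 * √((1 + Real.log lam) * (1 + Real.log k))))) f := by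
      refine LipschitzWith.of_dist_le_mul fun x y => ?_
      rw [dist_eq_norm, Real.coe_toNNReal _ (by positivity)]
      exact (hf x y).2
    exact this.continuous
  obtain ⟨F, hF⟩ := to_l2 f (TopologicalSpace.isSeparable_range hcont)
  exact ⟨F, fun x y => by rw [hF]; exact hf x y⟩

end Pool.Agent.H98U
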