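import Pool.Agent.H98U.JL
import Pool.Agent.H98U.LowFinal

/-!
Unions of `k` finite Euclidean pieces with at most `N` points each.
-/

open Finset

namespace Pool.Agent.H98U

/-- Johnson-Lindenstrauss, bi-Lipschitz constant `4` -/
theorem jl {d N m : ℕ} (S : Finset (EuclideanSpace ℝ (Fin d))) (hS : S.card ≤ N)
    (hm : 400 * (Real.log (2 * (N : ℝ) ^ 2) + 1) ≤ m) :
    ∃ T : EuclideanSpace ℝ (Fin d) → EuclideanSpace ℝ (Fin m), ∀ x ∈ S, ∀ y ∈ S,
      ‖x - y‖ ≤ ‖T x - T y‖ ∧ ‖T x - T y‖ ≤ 4 * ‖x - y‖ := by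
  classical
  by_cases hne : ∃ x ∈ S, ∃ y ∈ S, x ≠ y
  swap
  · refine ⟨fun _ => 0, fun x hx y hy => ?_⟩
    have : x = y := by
      by_contra h; exact hne ⟨x, hx, y, hy, h⟩
    subst this; simp
  obtain ⟨x0, hx0, y0, hy0, hxy0⟩ := hne
  let ι := {p : S × S // (p.1 : EuclideanSpace ℝ (Fin d)) ≠ p.2}
  have hι : 0 < Fintype.card ι := Fintype.card_pos_iff.2 ⟨⟨(⟨x0, hx0⟩, ⟨y0, hy0⟩), hxy0⟩⟩
  have hcard : Fintype.card ι ≤ N ^ 2 := by
    calc Fintype.card ι ≤ Fintype.card (S × S) := Fintype.card_subtype_le _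
      _ = S.card * S.card := by rw [Fintype.card_prod, Fintype.card_coe]
      _ ≤ N ^ 2 := by rw [sq]; exact Nat.mul_le_mul hS hS
  have hm' : 400 * (Real.log (2 * Fintype.card ι) + 1) ≤ m := by
    refine le_trans ?_ hm
    have h1 : Real.log (2 * Fintype.card ι) ≤ Real.log (2 * (N : ℝ) ^ 2) := by
      apply Real.log_le_log
      · have : (0 : ℝ) < Fintype.card ι := by exact_mod_cast hι
        positivity
      · have : (Fintype.card ι : ℝ) ≤ (N : ℝ) ^ 2 := by exact_mod_cast hcard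
        linarith
    linarith
  set w : ι → EuclideanSpace ℝ (Fin d) := fun p => (p.1.1 : EuclideanSpace ℝ (Fin d)) - p.1.2
    with hw
  have hwn : ∀ p, 0 < ‖w p‖ := fun p => norm_pos_iff.2 (sub_ne_zero.2 p.2)
  obtain ⟨ε, hε⟩ := jl_unit (m := m) (fun p : ι => (‖w p‖)⁻¹ • w p)
    (fun p => by
      rw [norm_smul, norm_inv, norm_norm, inv_mul_cancel₀ (hwn p).ne']) hm' hι
  have hm0 : (0 : ℝ) < m := by
    have h1 : (1 : ℝ) ≤ Fintype.card ι := by exact_mod_cast hι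
    have h2 : 0 ≤ Real.log (2 * Fintype.card ι) := Real.log_nonneg (by linarith)
    linarith
  have hprs : ∀ (θ : Fin d → Bool) (c : ℝ) (v : EuclideanSpace ℝ (Fin d)),
      pr θ (c • v) = c * pr θ v := by
    intro θ c v
    unfold pr
    rw [Finset.mul_sum]
    exact Finset.sum_congr rfl fun l _ => by simp; ring
  refine ⟨fun x => WithLp.toLp 2 (fun r => 2 / √m * pr (ε r) x), fun x hx y hy => ?_⟩
  by_cases hxy : x = y
  · subst hxy; simp
  have h1 := hε ⟨(⟨x, hx⟩, ⟨y, hy⟩), hxy⟩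
  have hn : 0 < ‖x - y‖ := norm_pos_iff.2 (sub_ne_zero.2 hxy)
  have h2 : ∑ r, pr (ε r) ((‖w ⟨(⟨x, hx⟩, ⟨y, hy⟩), hxy⟩‖)⁻¹ • w ⟨(⟨x, hx⟩, ⟨y, hy⟩), hxy⟩) ^ 2 =
      (‖x - y‖ ^ 2)⁻¹ * ∑ r, pr (ε r) (x - y) ^ 2 := by
    rw [Finset.mul_sum]
    refine Finset.sum_congr rfl fun r _ => ?_
    rw [hprs]
    simp only [hw]
    rw [mul_pow, inv_pow]
  rw [h2] at h1
  have h3 : ‖(WithLp.toLp 2 (fun r => 2 / √m * pr (ε r) x) : EuclideanSpace ℝ (Fin m)) -
      WithLp.toLp 2 (fun r => 2 / √m * pr (ε r) y)‖ ^ 2 = 4 / m * ∑ r, pr (ε r) (x - y) ^ 2 := by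
    rw [norm_sq', Finset.mul_sum]
    refine Finset.sum_congr rfl fun r _ => ?_
    rw [pr_sub]
    have h4 : (√(m : ℝ)) ^ 2 = m := Real.sq_sqrt hm0.le
    have h5 : (2 / √(m : ℝ)) ^ 2 = 4 / m := by rw [div_pow, h4]; norm_num
    simp only [PiLp.sub_apply]
    rw [← mul_sub, mul_pow, h5]
  set Q := ∑ r, pr (ε r) (x - y) ^ 2 with hQ
  have hn2 : 0 < ‖x - y‖ ^ 2 := by positivity
  have h6 : (m : ℝ) / 4 * ‖x - y‖ ^ 2 ≤ Q := by
    have := h1.1
    rw [inv_mul_eq_div, le_div_iff₀ hn2] at this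
    exact this
  have h7 : Q ≤ 4 * m * ‖x - y‖ ^ 2 := by
    have := h1.2
    rw [inv_mul_eq_div, div_le_iff₀ hn2] at this
    exact this
  constructor
  · refine le_of_sq_le_sq ?_ (norm_nonneg _)
    rw [h3, div_mul_eq_mul_div, le_div_iff₀ hm0]
    linarith
  · refine le_of_sq_le_sq ?_ (by positivity)
    rw [h3, div_mul_eq_mul_div, div_le_iff₀ hm0]
    linarith

/-- Johnson-Lindenstrauss in an arbitrary inner product space -/
theorem jl' {H : Type*} [NormedAddCommGroup H] [InnerProductSpace ℝ H] {N m : ℕ}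
    (S : Finset H) (hS : S.card ≤ N)
    (hm : 400 * (Real.log (2 * (N : ℝ) ^ 2) + 1) ≤ m) :
    ∃ T : H → EuclideanSpace ℝ (Fin m), ∀ x ∈ S, ∀ y ∈ S,
      ‖x - y‖ ≤ ‖T x - T y‖ ∧ ‖T x - T y‖ ≤ 4 * ‖x - y‖ := by
  classical
  set V : Submodule ℝ H := Submodule.span ℝ (S : Set H) with hV
  have : FiniteDimensional ℝ V := FiniteDimensional.span_finset ℝ S
  let b := stdOrthonormalBasis ℝ V
  let φ : H → EuclideanSpace ℝ (Fin (Module.finrank ℝ V)) := fun x =>
    if hx : x ∈ V then b.repr ⟨x, hx⟩ else 0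
  have hφ : ∀ x ∈ S, ∀ y ∈ S, ‖φ x - φ y‖ = ‖x - y‖ := by
    intro x hx y hy
    have hx' : x ∈ V := Submodule.subset_span hx
    have hy' : y ∈ V := Submodule.subset_span hy
    simp only [φ, dif_pos hx', dif_pos hy']
    rw [← map_sub, LinearIsometryEquiv.norm_map]
    rfl
  obtain ⟨T, hT⟩ := jl (S.image φ) (Finset.card_image_le.trans hS) hm
  refine ⟨fun x => T (φ x), fun x hx y hy => ?_⟩
  have h1 := hT (φ x) (Finset.mem_image_of_mem φ hx) (φ y) (Finset.mem_image_of_mem φ hy)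
  rw [hφ x hx y hy] at h1
  exact h1

/-- Unions of `k` Euclidean pieces with at most `N` points. -/
theorem fin_main.{u} (k N : ℕ) (X : Type u) [MetricSpace X] (A : Fin k → Set X)
    (hcov : ⋃ i, A i = Set.univ)
    (hfin : ∀ i, (A i).Finite ∧ (A i).ncard ≤ N)
    (hA : ∀ i, ∃ g : A i → lp (fun _ : ℕ => ℝ) 2, Isometry g) :
    ∃ f : X → lp (fun _ : ℕ => ℝ) 2, ∀ x y, dist x y ≤ ‖f x - f y‖ ∧
      ‖f x - f y‖ ≤
        (28000 * (1 + Real.log k) + 91000 * √((1 + Real.log N) * (1 + Real.log k))) *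
          dist x y := by
  classical
  set m : ℕ := ⌈400 * (Real.log (2 * (N : ℝ) ^ 2) + 1)⌉₊ with hm
  have hm1 : 400 * (Real.log (2 * (N : ℝ) ^ 2) + 1) ≤ m := Nat.le_ceil _
  have hlogN : 0 ≤ Real.log N := Real.log_natCast_nonneg N
  have hlogk : 0 ≤ Real.log k := Real.log_natCast_nonneg k
  have hm2 : (m : ℝ) ≤ 800 * (1 + Real.log N) := by
    have h1 : Real.log (2 * (N : ℝ) ^ 2) ≤ 0.7 + 2 * Real.log N := by
      rcases Nat.eq_zero_or_pos N with h0 | h0
      · subst h0; norm_num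
      · have hN : (0 : ℝ) < N := by exact_mod_cast h0
        rw [Real.log_mul (by norm_num) (by positivity), Real.log_pow]
        have := Real.log_two_lt_d9
        push_cast
        linarith
    have h0 : 0 ≤ 400 * (Real.log (2 * (N : ℝ) ^ 2) + 1) := by
      rcases Nat.eq_zero_or_pos N with h0 | h0
      · subst h0; simp
      · have hN : (1 : ℝ) ≤ N := by exact_mod_cast h0
        have : 0 ≤ Real.log (2 * (N : ℝ) ^ 2) := Real.log_nonneg (by nlinarith)
        linarith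
    have h2 := Nat.ceil_lt_add_one h0
    rw [← hm] at h2
    linarith
  have key := low_main k m 4 (by norm_num) X A hcov (fun i => by
    obtain ⟨g, hg⟩ := hA i
    have : Fintype (A i) := (hfin i).1.fintype
    have hc : (Finset.univ.image g).card ≤ N := by
      refine Finset.card_image_le.trans ?_
      rw [Finset.card_univ, ← Nat.card_eq_fintype_card]
      exact (hfin i).2
    obtain ⟨T, hT⟩ := jl' (m := m) (Finset.univ.image g) hc hm1
    refine ⟨fun x => T (g x), fun x y => ?_⟩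
    have h1 := hT (g x) (Finset.mem_image_of_mem g (Finset.mem_univ x)) (g y)
      (Finset.mem_image_of_mem g (Finset.mem_univ y))
    rw [← dist_eq_norm (g x) (g y), hg.dist_eq] at h1
    exact h1)
  obtain ⟨f, hf⟩ := key
  refine ⟨f, fun x y => ⟨(hf x y).1, (hf x y).2.trans ?_⟩⟩
  apply mul_le_mul_of_nonneg_right _ dist_nonneg
  have h1 : √((m : ℝ) * (1 + Real.log k)) ≤
      28.4 * √((1 + Real.log N) * (1 + Real.log k)) := by
    have h2 : (28.4 : ℝ) = √(28.4 ^ 2) := by rw [Real.sqrt_sq (by norm_num)]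
    rw [h2, ← Real.sqrt_mul (by positivity)]
    apply Real.sqrt_le_sqrt
    have h3 : (m : ℝ) * (1 + Real.log k) ≤ 800 * (1 + Real.log N) * (1 + Real.log k) :=
      mul_le_mul_of_nonneg_right hm2 (by linarith)
    have h4 : 0 ≤ (1 + Real.log N) * (1 + Real.log k) := by positivity
    nlinarith
  have h0 : 0 ≤ √((1 + Real.log N) * (1 + Real.log k)) := Real.sqrt_nonneg _
  linarith

end Pool.Agent.H98U
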