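import Pool.Agent.H98U.LowExt

/-!
The Johnson-Lindenstrauss lemma with signs.
-/

open Finset

namespace Pool.Agent.H98U

/-- the Gaussian integral with a linear term -/
lemma gauss_shift (a : ℝ) : ∫ x : ℝ, Real.exp (-x ^ 2 + a * x) = √Real.pi * Real.exp (a ^ 2 / 4) := by
  have h1 : ∀ x : ℝ, Real.exp (-x ^ 2 + a * x) =
      Real.exp (a ^ 2 / 4) * Real.exp (-1 * (x - a / 2) ^ 2) := by
    intro x
    rw [← Real.exp_add]; congr 1; ring
  simp only [h1]
  rw [MeasureTheory.integral_const_mul,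
    MeasureTheory.integral_sub_right_eq_self (fun x : ℝ => Real.exp (-1 * x ^ 2)) (a / 2),
    integral_gaussian, div_one, mul_comm]

lemma gauss_shift_int (a : ℝ) :
    MeasureTheory.Integrable (fun x : ℝ => Real.exp (-x ^ 2 + a * x)) := by
  have h1 : ∀ x : ℝ, Real.exp (-x ^ 2 + a * x) =
      Real.exp (a ^ 2 / 4) * Real.exp (-1 * (x - a / 2) ^ 2) := by
    intro x
    rw [← Real.exp_add]; congr 1; ring
  simp only [h1]
  exact ((integrable_exp_neg_mul_sq (b := 1) one_pos).comp_sub_right (a / 2)).const_mul _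

/-- moment generating function of a sign sum -/
lemma mgf_lin {d : ℕ} (u : EuclideanSpace ℝ (Fin d)) (x : ℝ) :
    (∑ θ : Fin d → Bool, Real.exp (x * pr θ u)) / 2 ^ d ≤ Real.exp (x ^ 2 * ‖u‖ ^ 2 / 2) := by
  have h1 : ∀ θ : Fin d → Bool, Real.exp (x * pr θ u) = ∏ l, Real.exp (x * (sg (θ l) * u l)) := by
    intro θ
    unfold pr
    rw [Finset.mul_sum, Real.exp_sum]
  have h2 : ∑ θ : Fin d → Bool, ∏ l, Real.exp (x * (sg (θ l) * u l)) =
      ∏ l, ∑ b : Bool, Real.exp (x * (sg b * u l)) := by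
    rw [Finset.prod_univ_sum, Fintype.piFinset_univ]
  have h3 : ∀ l, ∑ b : Bool, Real.exp (x * (sg b * u l)) = 2 * Real.cosh (x * u l) := by
    intro l
    rw [Fintype.sum_bool, Real.cosh_eq]
    simp [sg]
    ring
  simp only [h1, h2, h3]
  rw [Finset.prod_mul_distrib, Finset.prod_const, Finset.card_univ, Fintype.card_fin,
    mul_div_assoc, mul_comm, div_mul_cancel₀ _ (by positivity)]
  calc ∏ l, Real.cosh (x * u l) ≤ ∏ l, Real.exp ((x * u l) ^ 2 / 2) :=
        Finset.prod_le_prod (fun l _ => (Real.cosh_pos _).le) fun l _ =>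
          Real.cosh_le_exp_half_sq _
    _ = Real.exp (x ^ 2 * ‖u‖ ^ 2 / 2) := by
        rw [← Real.exp_sum, norm_sq', Finset.mul_sum, Finset.sum_div]
        congr 1
        exact Finset.sum_congr rfl fun l _ => by ring

/-- exponential moment of the square of a sign sum -/
lemma mgf_sq {d : ℕ} (u : EuclideanSpace ℝ (Fin d)) (hu : ‖u‖ = 1) :
    (∑ θ : Fin d → Bool, Real.exp (pr θ u ^ 2 / 4)) / 2 ^ d ≤ √2 := by
  have hpi : 0 < √Real.pi := Real.sqrt_pos.2 Real.pi_pos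
  have h1 : ∀ θ : Fin d → Bool, Real.exp (pr θ u ^ 2 / 4) =
      (√Real.pi)⁻¹ * ∫ x : ℝ, Real.exp (-x ^ 2 + pr θ u * x) := by
    intro θ
    rw [gauss_shift]; field_simp
  simp only [h1]
  rw [← Finset.mul_sum, ← MeasureTheory.integral_finsetSum _ (fun θ _ => gauss_shift_int _)]
  have h2 : ∫ x : ℝ, ∑ θ : Fin d → Bool, Real.exp (-x ^ 2 + pr θ u * x) ≤
      ∫ x : ℝ, 2 ^ d * Real.exp (-(1 / 2) * x ^ 2) := by
    apply MeasureTheory.integral_mono
    · exact MeasureTheory.integrable_finsetSum _ fun θ _ => gauss_shift_int _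
    · exact (integrable_exp_neg_mul_sq (b := 1 / 2) (by norm_num)).const_mul _
    · intro x
      have h3 := mgf_lin u x
      rw [div_le_iff₀ (by positivity), hu] at h3
      have h4 : ∀ θ : Fin d → Bool, Real.exp (-x ^ 2 + pr θ u * x) =
          Real.exp (-x ^ 2) * Real.exp (x * pr θ u) := by
        intro θ; rw [← Real.exp_add, mul_comm x]
      simp only [h4]
      rw [← Finset.mul_sum]
      calc Real.exp (-x ^ 2) * ∑ θ : Fin d → Bool, Real.exp (x * pr θ u)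
          ≤ Real.exp (-x ^ 2) * (Real.exp (x ^ 2 * 1 ^ 2 / 2) * 2 ^ d) :=
            mul_le_mul_of_nonneg_left h3 (Real.exp_pos _).le
        _ = 2 ^ d * Real.exp (-(1 / 2) * x ^ 2) := by
            rw [← mul_assoc, ← Real.exp_add, mul_comm]
            congr 2; ring
  have h5 : ∫ x : ℝ, 2 ^ d * Real.exp (-(1 / 2) * x ^ 2) = 2 ^ d * (√2 * √Real.pi) := by
    rw [MeasureTheory.integral_const_mul, integral_gaussian, ← Real.sqrt_mul (by norm_num)]
    congr 2; ring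
  rw [h5] at h2
  rw [div_le_iff₀ (by positivity)]
  calc (√Real.pi)⁻¹ * ∫ x : ℝ, ∑ θ : Fin d → Bool, Real.exp (-x ^ 2 + pr θ u * x)
      ≤ (√Real.pi)⁻¹ * (2 ^ d * (√2 * √Real.pi)) :=
        mul_le_mul_of_nonneg_left h2 (by positivity)
    _ = √2 * 2 ^ d := by field_simp

/-- second moment of a sign sum -/
lemma sum_pr_sq {d : ℕ} (u : EuclideanSpace ℝ (Fin d)) :
    ∑ θ : Fin d → Bool, pr θ u ^ 2 = 2 ^ d * ‖u‖ ^ 2 := by
  have h1 : ∀ θ : Fin d → Bool, pr θ u ^ 2 = ∑ l, ∑ m, u l * u m * (sg (θ l) * sg (θ m)) := by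
    intro θ
    unfold pr
    rw [sq, Finset.sum_mul_sum]
    exact Finset.sum_congr rfl fun l _ => Finset.sum_congr rfl fun m _ => by ring
  simp only [h1]
  rw [Finset.sum_comm, norm_sq', Finset.mul_sum]
  refine Finset.sum_congr rfl fun l _ => ?_
  rw [Finset.sum_comm]
  simp only [← Finset.mul_sum, sum_sg_sg, mul_ite, mul_zero]
  rw [Finset.sum_ite_eq Finset.univ l (fun m => u l * u m * 2 ^ d)]
  simp only [Finset.mem_univ, if_true]
  ring

/-- lower exponential moment -/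
lemma mgf_low {d : ℕ} (u : EuclideanSpace ℝ (Fin d)) (hu : ‖u‖ = 1) :
    (∑ θ : Fin d → Bool, Real.exp (-(pr θ u ^ 2) / 100)) / 2 ^ d ≤ Real.exp (-(3 / 400)) := by
  have hN : (0 : ℝ) < 2 ^ d := by positivity
  have hs2 : √2 ≤ 3 / 2 := by
    rw [Real.sqrt_le_left (by norm_num)]; norm_num
  have h1 : ∀ t : ℝ, 0 ≤ t → Real.exp (-t / 100) ≤ 1 - t / 100 + 1 / 625 * Real.exp (t / 4) := by
    intro t ht
    have h2 : Real.exp (-(t / 100)) ≤ 1 - t / 100 + (t / 100) ^ 2 / 2 := by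
      set s := t / 100 with hs
      have hs0 : 0 ≤ s := by positivity
      have h3 := Real.quadratic_le_exp_of_nonneg hs0
      have h4 : 0 < 1 - s + s ^ 2 / 2 := by nlinarith [sq_nonneg (s - 1)]
      have h5 := mul_le_mul_of_nonneg_left h3 h4.le
      have h6 : 1 ≤ (1 - s + s ^ 2 / 2) * Real.exp s := by
        nlinarith [sq_nonneg (s ^ 2)]
      rw [Real.exp_neg, inv_le_iff_one_le_mul₀ (Real.exp_pos _)]
      exact h6
    have h4 := Real.quadratic_le_exp_of_nonneg (show 0 ≤ t / 4 by positivity)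
    rw [neg_div]
    nlinarith
  have h2 : ∑ θ : Fin d → Bool, Real.exp (-(pr θ u ^ 2) / 100) ≤
      ∑ θ : Fin d → Bool, (1 - pr θ u ^ 2 / 100 + 1 / 625 * Real.exp (pr θ u ^ 2 / 4)) :=
    Finset.sum_le_sum fun θ _ => h1 _ (sq_nonneg _)
  have h3 : ∑ θ : Fin d → Bool, (1 - pr θ u ^ 2 / 100 + 1 / 625 * Real.exp (pr θ u ^ 2 / 4)) =
      2 ^ d - 2 ^ d / 100 + 1 / 625 * ∑ θ : Fin d → Bool, Real.exp (pr θ u ^ 2 / 4) := by
    rw [Finset.sum_add_distrib, Finset.sum_sub_distrib, ← Finset.mul_sum, ← Finset.sum_div,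
      sum_pr_sq, hu]
    simp
  have h4 := mgf_sq u hu
  rw [div_le_iff₀ hN] at h4
  rw [div_le_iff₀ hN]
  have h5 := Real.add_one_le_exp (-(3 / 400 : ℝ))
  have h6 : ∑ θ : Fin d → Bool, Real.exp (pr θ u ^ 2 / 4) ≤ 3 / 2 * 2 ^ d :=
    h4.trans (mul_le_mul_of_nonneg_right hs2 hN.le)
  rw [h3] at h2
  nlinarith

/-- Johnson-Lindenstrauss for unit vectors -/
lemma jl_unit {d m : ℕ} {ι : Type*} [Fintype ι] (u : ι → EuclideanSpace ℝ (Fin d))
    (hu : ∀ j, ‖u j‖ = 1) (hm : 400 * (Real.log (2 * Fintype.card ι) + 1) ≤ m)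
    (hι : 0 < Fintype.card ι) :
    ∃ ε : Fin m → Fin d → Bool, ∀ j,
      (m : ℝ) / 4 ≤ ∑ r, pr (ε r) (u j) ^ 2 ∧ ∑ r, pr (ε r) (u j) ^ 2 ≤ 4 * m := by
  classical
  have hN : (0 : ℝ) < 2 ^ d := by positivity
  set M : ℝ := ((Fintype.card ι : ℕ) : ℝ) with hM
  have hM0 : 0 < M := by rw [hM]; exact_mod_cast hι
  have hs2 : √2 ≤ 3 / 2 := by
    rw [Real.sqrt_le_left (by norm_num)]; norm_num
  -- potential
  set Φ : (Fin m → Fin d → Bool) → ℝ := fun ε => ∑ j,
    (Real.exp (m / 400) * ∏ r, Real.exp (-(pr (ε r) (u j) ^ 2) / 100) +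
      Real.exp (-(m : ℝ)) * ∏ r, Real.exp (pr (ε r) (u j) ^ 2 / 4)) with hΦ
  have hsum : ∑ ε, Φ ε < (2 ^ d) ^ m := by
    have e1 : ∑ ε, Φ ε = ∑ j, (Real.exp (m / 400) *
        (∑ θ : Fin d → Bool, Real.exp (-(pr θ (u j) ^ 2) / 100)) ^ m +
        Real.exp (-(m : ℝ)) * (∑ θ : Fin d → Bool, Real.exp (pr θ (u j) ^ 2 / 4)) ^ m) := by
      rw [hΦ, Finset.sum_comm]
      refine Finset.sum_congr rfl fun j _ => ?_
      rw [Finset.sum_add_distrib, ← Finset.mul_sum, ← Finset.mul_sum, Fintype.sum_pow,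
        Fintype.sum_pow]
    rw [e1]
    have e2 : ∀ j, Real.exp (m / 400) *
        (∑ θ : Fin d → Bool, Real.exp (-(pr θ (u j) ^ 2) / 100)) ^ m +
        Real.exp (-(m : ℝ)) * (∑ θ : Fin d → Bool, Real.exp (pr θ (u j) ^ 2 / 4)) ^ m ≤
        2 * Real.exp (-(m / 200 : ℝ)) * (2 ^ d) ^ m := by
      intro j
      have a1 := mgf_low (u j) (hu j)
      have a2 := mgf_sq (u j) (hu j)
      rw [div_le_iff₀ hN] at a1 a2
      have a3 : Real.exp (m / 400) *
          (∑ θ : Fin d → Bool, Real.exp (-(pr θ (u j) ^ 2) / 100)) ^ m ≤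
          Real.exp (-(m / 200 : ℝ)) * (2 ^ d) ^ m := by
        calc _ ≤ Real.exp (m / 400) * (Real.exp (-(3 / 400)) * 2 ^ d) ^ m := by
              apply mul_le_mul_of_nonneg_left _ (Real.exp_pos _).le
              exact pow_le_pow_left₀ (Finset.sum_nonneg fun θ _ => (Real.exp_pos _).le) a1 m
          _ = Real.exp (-(m / 200 : ℝ)) * (2 ^ d) ^ m := by
              rw [mul_pow, ← Real.exp_nat_mul, ← mul_assoc, ← Real.exp_add]
              congr 2; ring
      have a4 : Real.exp (-(m : ℝ)) *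
          (∑ θ : Fin d → Bool, Real.exp (pr θ (u j) ^ 2 / 4)) ^ m ≤
          Real.exp (-(m / 200 : ℝ)) * (2 ^ d) ^ m := by
        have a5 : √2 ≤ Real.exp (1 / 2) := by
          have := Real.add_one_le_exp (1 / 2 : ℝ)
          linarith
        calc _ ≤ Real.exp (-(m : ℝ)) * (Real.exp (1 / 2) * 2 ^ d) ^ m := by
              apply mul_le_mul_of_nonneg_left _ (Real.exp_pos _).le
              exact pow_le_pow_left₀ (Finset.sum_nonneg fun θ _ => (Real.exp_pos _).le)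
                (a2.trans (mul_le_mul_of_nonneg_right a5 hN.le)) m
          _ = Real.exp (-(m : ℝ) + m * (1 / 2)) * (2 ^ d) ^ m := by
              rw [mul_pow, ← Real.exp_nat_mul, ← mul_assoc, ← Real.exp_add]
          _ ≤ Real.exp (-(m / 200 : ℝ)) * (2 ^ d) ^ m := by
              apply mul_le_mul_of_nonneg_right _ (by positivity)
              apply Real.exp_le_exp.2
              have : (0 : ℝ) ≤ m := Nat.cast_nonneg m
              linarith
      linarith
    calc _ ≤ ∑ _j : ι, 2 * Real.exp (-(m / 200 : ℝ)) * (2 ^ d) ^ m :=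
          Finset.sum_le_sum fun j _ => e2 j
      _ = (2 * M * Real.exp (-(m / 200 : ℝ))) * (2 ^ d) ^ m := by
          rw [Finset.sum_const, Finset.card_univ, nsmul_eq_mul]; ring
      _ < 1 * (2 ^ d) ^ m := by
          apply mul_lt_mul_of_pos_right _ (by positivity)
          have b1 : 2 * M = Real.exp (Real.log (2 * M)) := by
            rw [Real.exp_log (by positivity)]
          rw [b1, ← Real.exp_add, Real.exp_lt_one_iff]
          have b2 : 0 ≤ Real.log (2 * M) := by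
            apply Real.log_nonneg
            have : (1 : ℝ) ≤ M := by rw [hM]; exact_mod_cast hι
            linarith
          linarith
      _ = (2 ^ d) ^ m := one_mul _
  obtain ⟨ε, hε⟩ : ∃ ε, Φ ε < 1 := by
    by_contra hcon
    push Not at hcon
    have h1 : ∑ _ε : Fin m → Fin d → Bool, (1 : ℝ) ≤ ∑ ε, Φ ε :=
      Finset.sum_le_sum fun ε _ => hcon ε
    have h2 : ∑ _ε : Fin m → Fin d → Bool, (1 : ℝ) = (2 ^ d) ^ m := by simp
    linarith
  refine ⟨ε, fun j => ?_⟩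
  have hnn : ∀ j, 0 ≤ Real.exp (m / 400) * ∏ r, Real.exp (-(pr (ε r) (u j) ^ 2) / 100) +
      Real.exp (-(m : ℝ)) * ∏ r, Real.exp (pr (ε r) (u j) ^ 2 / 4) := fun j => by positivity
  have h1 := (Finset.single_le_sum (fun j _ => hnn j) (Finset.mem_univ j)).trans_lt hε
  rw [← Real.exp_sum, ← Real.exp_sum, ← Real.exp_add, ← Real.exp_add] at h1
  have p1 := Real.exp_pos ((m : ℝ) / 400 + ∑ r, -(pr (ε r) (u j) ^ 2) / 100)
  have p2 := Real.exp_pos (-(m : ℝ) + ∑ r, pr (ε r) (u j) ^ 2 / 4)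
  have h2 : Real.exp ((m : ℝ) / 400 + ∑ r, -(pr (ε r) (u j) ^ 2) / 100) < 1 := by linarith
  have h3 : Real.exp (-(m : ℝ) + ∑ r, pr (ε r) (u j) ^ 2 / 4) < 1 := by linarith
  rw [Real.exp_lt_one_iff] at h2 h3
  rw [← Finset.sum_div, Finset.sum_neg_distrib] at h2
  rw [← Finset.sum_div] at h3
  constructor <;> linarith

end Pool.Agent.H98U
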