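import Mathlib

/-!
Sharp Lipschitz extension of an isometric map of one piece into `ℝⁿ`: Lipschitz constant
`2 √n + 1` and additive accuracy `6 · dist`.  Rademacher averages of one-dimensional
infimal convolutions.
-/

open Finset

namespace Pool.Agent.H98U

/-- the sign of a Boolean -/
noncomputable def sg (b : Bool) : ℝ := if b then 1 else -1

lemma sg_sq (b : Bool) : sg b * sg b = 1 := by
  cases b <;> simp [sg]

lemma sg_not (b : Bool) : sg (!b) = - sg b := by
  cases b <;> simp [sg]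

/-- flip one coordinate of a vertex of the cube -/
def flp {n : ℕ} (l : Fin n) : (Fin n → Bool) ≃ (Fin n → Bool) :=
  Function.Involutive.toPerm (fun θ => Function.update θ l (!(θ l))) (by
    intro θ
    funext m
    by_cases h : m = l
    · subst h; simp
    · simp [Function.update_of_ne h])

lemma flp_same {n : ℕ} (l : Fin n) (θ : Fin n → Bool) : flp l θ l = !(θ l) := by
  simp [flp]

lemma flp_ne {n : ℕ} {l m : Fin n} (h : m ≠ l) (θ : Fin n → Bool) : flp l θ m = θ m := by
  simp [flp, Function.update_of_ne h]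

lemma flp_flp {n : ℕ} (l : Fin n) (θ : Fin n → Bool) : flp l (flp l θ) = θ := by
  funext m
  by_cases h : m = l
  · subst h; rw [flp_same, flp_same, Bool.not_not]
  · rw [flp_ne h, flp_ne h]

lemma sum_flp {n : ℕ} (l : Fin n) (f : (Fin n → Bool) → ℝ) :
    ∑ θ, f (flp l θ) = ∑ θ, f θ := Equiv.sum_comp (flp l) f

lemma sum_sg_sg {n : ℕ} (l m : Fin n) :
    ∑ θ : Fin n → Bool, sg (θ l) * sg (θ m) = if l = m then (2 : ℝ) ^ n else 0 := by
  by_cases h : l = m
  · subst h
    rw [if_pos rfl]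
    simp [sg_sq]
  · rw [if_neg h]
    have h1 := sum_flp l (fun θ => sg (θ l) * sg (θ m))
    have h2 : ∀ θ : Fin n → Bool, sg (flp l θ l) * sg (flp l θ m) = - (sg (θ l) * sg (θ m)) := by
      intro θ
      rw [flp_same, flp_ne (Ne.symm h), sg_not]; ring
    simp only [h2, Finset.sum_neg_distrib] at h1
    linarith

/-- the first level Fourier coefficient -/
noncomputable def cf {n : ℕ} (f : (Fin n → Bool) → ℝ) (l : Fin n) : ℝ :=
  (∑ θ : Fin n → Bool, sg (θ l) * f θ) / 2 ^ n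

lemma cf_sub {n : ℕ} (f f' : (Fin n → Bool) → ℝ) (l : Fin n) :
    cf (fun θ => f θ - f' θ) l = cf f l - cf f' l := by
  unfold cf
  rw [← sub_div, ← Finset.sum_sub_distrib]
  congr 1
  exact Finset.sum_congr rfl fun θ _ => by ring

/-- Bessel's inequality on the cube -/
lemma bessel {n : ℕ} (f : (Fin n → Bool) → ℝ) :
    ∑ l, cf f l ^ 2 ≤ (∑ θ, f θ ^ 2) / 2 ^ n := by
  have hN : (0 : ℝ) < 2 ^ n := by positivity
  have h0 : 0 ≤ ∑ θ : Fin n → Bool, (f θ - ∑ l, cf f l * sg (θ l)) ^ 2 :=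
    Finset.sum_nonneg fun θ _ => sq_nonneg _
  have h1 : ∑ θ : Fin n → Bool, (f θ - ∑ l, cf f l * sg (θ l)) ^ 2 =
      ∑ θ, f θ ^ 2 - 2 * ∑ l, cf f l * ∑ θ : Fin n → Bool, sg (θ l) * f θ +
        ∑ l, ∑ m, cf f l * cf f m * ∑ θ : Fin n → Bool, sg (θ l) * sg (θ m) := by
    have e1 : ∀ θ : Fin n → Bool, (f θ - ∑ l, cf f l * sg (θ l)) ^ 2 =
        f θ ^ 2 - 2 * ∑ l, cf f l * (sg (θ l) * f θ) +
          ∑ l, ∑ m, cf f l * cf f m * (sg (θ l) * sg (θ m)) := by
      intro θ
      have e2 : (∑ l, cf f l * sg (θ l)) ^ 2 =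
          ∑ l, ∑ m, cf f l * cf f m * (sg (θ l) * sg (θ m)) := by
        rw [sq, Finset.sum_mul_sum]
        exact Finset.sum_congr rfl fun l _ => Finset.sum_congr rfl fun m _ => by ring
      have e3 : ∑ l, cf f l * (sg (θ l) * f θ) = (∑ l, cf f l * sg (θ l)) * f θ := by
        rw [Finset.sum_mul]
        exact Finset.sum_congr rfl fun l _ => by ring
      rw [← e2, e3]; ring
    simp only [e1]
    rw [Finset.sum_add_distrib, Finset.sum_sub_distrib, ← Finset.mul_sum]
    congr 1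
    · congr 2
      rw [Finset.sum_comm]
      exact Finset.sum_congr rfl fun l _ => by rw [Finset.mul_sum]
    · rw [Finset.sum_comm]
      refine Finset.sum_congr rfl fun l _ => ?_
      rw [Finset.sum_comm]
      exact Finset.sum_congr rfl fun m _ => by rw [Finset.mul_sum]
  have h2 : ∀ l, ∑ θ : Fin n → Bool, sg (θ l) * f θ = 2 ^ n * cf f l := by
    intro l; unfold cf; field_simp
  have h3 : ∑ l, ∑ m, cf f l * cf f m * ∑ θ : Fin n → Bool, sg (θ l) * sg (θ m) =
      2 ^ n * ∑ l, cf f l ^ 2 := by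
    simp only [sum_sg_sg, mul_ite, mul_zero]
    rw [Finset.mul_sum]
    refine Finset.sum_congr rfl fun l _ => ?_
    rw [Finset.sum_ite_eq Finset.univ l (fun m => cf f l * cf f m * 2 ^ n)]
    simp only [Finset.mem_univ, if_true]
    ring
  have h4 : ∑ l, cf f l * ∑ θ : Fin n → Bool, sg (θ l) * f θ = 2 ^ n * ∑ l, cf f l ^ 2 := by
    rw [Finset.mul_sum]
    exact Finset.sum_congr rfl fun l _ => by rw [h2]; ring
  rw [h1, h3, h4] at h0
  rw [le_div_iff₀ hN]
  linarith

/-- flip argument: if the discrete derivatives of `f` are dominated by a vector field, so are the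
first level coefficients -/
lemma flip_avg {n : ℕ} (f : (Fin n → Bool) → ℝ) (v : (Fin n → Bool) → Fin n → ℝ)
    (h : ∀ θ l, f θ - f (flp l θ) ≤ 2 * sg (θ l) * v (flp l θ) l)
    (R : ℝ) (hR : ∑ θ, ∑ l, v θ l ^ 2 ≤ 2 ^ n * R) :
    ∑ l, cf f l ^ 2 ≤ 2 * R := by
  have hN : (0 : ℝ) < 2 ^ n := by positivity
  have hcard : ((Finset.univ : Finset (Fin n → Bool)).card : ℝ) = 2 ^ n := by
    simp
  -- the coefficient as an average of derivatives
  have h1 : ∀ l, cf f l = (∑ θ : Fin n → Bool, sg (θ l) * ((f θ - f (flp l θ)) / 2)) / 2 ^ n := by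
    intro l
    unfold cf
    congr 1
    have e1 := sum_flp l (fun θ => sg (θ l) * f θ)
    simp only [flp_same, sg_not] at e1
    have e2 : ∑ θ : Fin n → Bool, sg (θ l) * ((f θ - f (flp l θ)) / 2) =
        (∑ θ : Fin n → Bool, sg (θ l) * f θ + ∑ θ : Fin n → Bool, -sg (θ l) * f (flp l θ)) / 2 := by
      rw [← Finset.sum_add_distrib, Finset.sum_div]
      exact Finset.sum_congr rfl fun θ _ => by ring
    rw [e2, e1]; ring
  have h2 : ∀ (θ : Fin n → Bool) l, (sg (θ l) * ((f θ - f (flp l θ)) / 2)) ^ 2 ≤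
      v θ l ^ 2 + v (flp l θ) l ^ 2 := by
    intro θ l
    have a1 := h θ l
    have a2 := h (flp l θ) l
    rw [flp_flp, flp_same, sg_not] at a2
    have a3 : (sg (θ l) * ((f θ - f (flp l θ)) / 2)) ^ 2 = ((f θ - f (flp l θ)) / 2) ^ 2 := by
      rw [mul_pow, sq (sg (θ l)), sg_sq, one_mul]
    rw [a3]
    have a4 : -(|v θ l|) ≤ (f θ - f (flp l θ)) / 2 := by
      have : f (flp l θ) - f θ ≤ 2 * |v θ l| := by
        refine a2.trans ?_
        have := neg_abs_le (v θ l)
        have h5 := le_abs_self (v θ l)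
        rcases Bool.eq_false_or_eq_true (θ l) with hb | hb <;> rw [hb] <;> simp [sg] <;> linarith
      linarith
    have a5 : (f θ - f (flp l θ)) / 2 ≤ |v (flp l θ) l| := by
      have : f θ - f (flp l θ) ≤ 2 * |v (flp l θ) l| := by
        refine a1.trans ?_
        have := neg_abs_le (v (flp l θ) l)
        have h5 := le_abs_self (v (flp l θ) l)
        rcases Bool.eq_false_or_eq_true (θ l) with hb | hb <;> rw [hb] <;> simp [sg] <;> linarith
      linarith
    rw [← sq_abs (v θ l), ← sq_abs (v (flp l θ) l)]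
    rcases le_total 0 ((f θ - f (flp l θ)) / 2) with h6 | h6
    · nlinarith [abs_nonneg (v (flp l θ) l), sq_nonneg (|v θ l|)]
    · nlinarith [abs_nonneg (v θ l), sq_nonneg (|v (flp l θ) l|)]
  have h3 : ∀ l, cf f l ^ 2 ≤ (∑ θ : Fin n → Bool, 2 * v θ l ^ 2) / 2 ^ n := by
    intro l
    rw [h1 l, div_pow]
    have e1 := sq_sum_le_card_mul_sum_sq (s := (Finset.univ : Finset (Fin n → Bool)))
      (f := fun θ => sg (θ l) * ((f θ - f (flp l θ)) / 2))
    rw [hcard] at e1
    have e2 : ∑ θ : Fin n → Bool, (sg (θ l) * ((f θ - f (flp l θ)) / 2)) ^ 2 ≤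
        ∑ θ : Fin n → Bool, 2 * v θ l ^ 2 := by
      calc _ ≤ ∑ θ : Fin n → Bool, (v θ l ^ 2 + v (flp l θ) l ^ 2) :=
            Finset.sum_le_sum fun θ _ => h2 θ l
        _ = ∑ θ : Fin n → Bool, 2 * v θ l ^ 2 := by
            rw [Finset.sum_add_distrib, sum_flp l (fun θ => v θ l ^ 2), ← two_mul,
              Finset.mul_sum]
    rw [div_le_div_iff₀ (by positivity) hN]
    calc (∑ θ : Fin n → Bool, sg (θ l) * ((f θ - f (flp l θ)) / 2)) ^ 2 * 2 ^ n
        ≤ (2 ^ n * ∑ θ : Fin n → Bool, 2 * v θ l ^ 2) * 2 ^ n := by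
          apply mul_le_mul_of_nonneg_right _ hN.le
          exact e1.trans (mul_le_mul_of_nonneg_left e2 hN.le)
      _ = (∑ θ : Fin n → Bool, 2 * v θ l ^ 2) * (2 ^ n) ^ 2 := by ring
  calc ∑ l, cf f l ^ 2 ≤ ∑ l, (∑ θ : Fin n → Bool, 2 * v θ l ^ 2) / 2 ^ n :=
        Finset.sum_le_sum fun l _ => h3 l
    _ = (∑ θ : Fin n → Bool, 2 * ∑ l, v θ l ^ 2) / 2 ^ n := by
        rw [← Finset.sum_div, Finset.sum_comm]
        congr 1
        exact Finset.sum_congr rfl fun θ _ => by rw [Finset.mul_sum]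
    _ ≤ 2 * R := by
        rw [← Finset.mul_sum, div_le_iff₀ hN]
        linarith

lemma flip_bound {n : ℕ} (f : (Fin n → Bool) → ℝ) (v : (Fin n → Bool) → Fin n → ℝ)
    (h : ∀ θ l, f θ - f (flp l θ) ≤ 2 * sg (θ l) * v (flp l θ) l)
    (R : ℝ) (hR : ∀ θ, ∑ l, v θ l ^ 2 ≤ R) :
    ∑ l, cf f l ^ 2 ≤ 2 * R := by
  refine flip_avg f v h R ((Finset.sum_le_sum fun θ _ => hR θ).trans (le_of_eq ?_))
  simp

/-- pairing with a sign vector -/
noncomputable def pr {n : ℕ} (θ : Fin n → Bool) (v : EuclideanSpace ℝ (Fin n)) : ℝ :=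
  ∑ l, sg (θ l) * v l

lemma pr_sub {n : ℕ} (θ : Fin n → Bool) (v w : EuclideanSpace ℝ (Fin n)) :
    pr θ (v - w) = pr θ v - pr θ w := by
  unfold pr
  rw [← Finset.sum_sub_distrib]
  exact Finset.sum_congr rfl fun l _ => by simp; ring

lemma norm_sq' {n : ℕ} (v : EuclideanSpace ℝ (Fin n)) : ‖v‖ ^ 2 = ∑ l, v l ^ 2 := by
  rw [EuclideanSpace.norm_sq_eq]
  exact Finset.sum_congr rfl fun l _ => by rw [Real.norm_eq_abs, sq_abs]

lemma pr_abs {n : ℕ} (θ : Fin n → Bool) (v : EuclideanSpace ℝ (Fin n)) :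
    |pr θ v| ≤ √n * ‖v‖ := by
  have h1 : pr θ v ^ 2 ≤ n * ‖v‖ ^ 2 := by
    unfold pr
    have h2 := Finset.sum_mul_sq_le_sq_mul_sq Finset.univ (fun l => sg (θ l)) (fun l => v l)
    have h3 : ∑ l : Fin n, sg (θ l) ^ 2 = n := by
      simp [sq, sg_sq]
    rw [h3, ← norm_sq'] at h2
    exact h2
  rw [← Real.sqrt_sq (norm_nonneg v), ← Real.sqrt_mul (Nat.cast_nonneg n)]
  exact Real.abs_le_sqrt h1

lemma cf_pr {n : ℕ} (v : EuclideanSpace ℝ (Fin n)) (l : Fin n) :
    cf (fun θ => pr θ v) l = v l := by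
  have hN : (0 : ℝ) < 2 ^ n := by positivity
  unfold cf pr
  rw [div_eq_iff hN.ne']
  have h1 : ∀ θ : Fin n → Bool, sg (θ l) * ∑ m, sg (θ m) * v m =
      ∑ m, v m * (sg (θ l) * sg (θ m)) := by
    intro θ
    rw [Finset.mul_sum]
    exact Finset.sum_congr rfl fun m _ => by ring
  simp only [h1]
  rw [Finset.sum_comm]
  simp only [← Finset.mul_sum, sum_sg_sg, mul_ite, mul_zero]
  rw [Finset.sum_ite_eq Finset.univ l (fun m => v m * 2 ^ n)]
  simp

/-- Sharp extension of a bi-Lipschitz map of one piece into `ℝⁿ`. -/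
theorem low_ext {X : Type} [Fintype X] [MetricSpace X] {n : ℕ} (D : ℝ) (hD : 1 ≤ D)
    (A : Set X) (hA : A.Nonempty) (g : X → EuclideanSpace ℝ (Fin n))
    (hg : ∀ x ∈ A, ∀ y ∈ A, ‖g x - g y‖ ≤ D * dist x y) :
    ∃ F : X → EuclideanSpace ℝ (Fin n),
      (∀ x y, ‖F x - F y‖ ≤ D * (2 * √n + 1) * dist x y) ∧
      ∀ x, ∀ s ∈ A, ‖F x - g s‖ ≤ 6 * D * dist x s := by
  classical
  set L : ℝ := D * (2 * √n + 1) with hL
  have hn0 : 0 ≤ √(n : ℝ) := Real.sqrt_nonneg _
  have hD0 : 0 < D := by linarith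
  have hLp : 0 < L := by positivity
  have hLn : √(n : ℝ) * D ≤ L / 2 := by rw [hL]; nlinarith
  -- minimisers
  have hmin : ∀ (θ : Fin n → Bool) (x : X), ∃ b ∈ A, ∀ c ∈ A,
      pr θ (g b) + L * dist x b ≤ pr θ (g c) + L * dist x c := by
    intro θ x
    obtain ⟨a, ha⟩ := hA
    obtain ⟨b, hb, hb2⟩ := Finset.exists_min_image (Finset.univ.filter (· ∈ A))
      (fun b => pr θ (g b) + L * dist x b) ⟨a, by simpa using ha⟩
    exact ⟨b, by simpa using hb, fun c hc => hb2 c (by simpa using hc)⟩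
  choose b hbA hb using hmin
  set U : X → (Fin n → Bool) → ℝ := fun x θ => pr θ (g (b θ x)) + L * dist x (b θ x) with hU
  refine ⟨fun x => WithLp.toLp 2 (cf (U x)), fun x y => ?_, fun x s hs => ?_⟩
  · -- Lipschitz bound
    have hlip : ∀ x y θ, U x θ - U y θ ≤ L * dist x y := by
      intro x y θ
      have h1 := hb θ x (b θ y) (hbA θ y)
      have h2 := dist_triangle x y (b θ y)
      simp only [hU]
      nlinarith
    have h1 : ‖WithLp.toLp 2 (cf (U x)) - WithLp.toLp 2 (cf (U y))‖ ^ 2 ≤ (L * dist x y) ^ 2 := by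
      rw [norm_sq']
      have e1 : ∀ l, (WithLp.toLp 2 (cf (U x)) - WithLp.toLp 2 (cf (U y)) :
          EuclideanSpace ℝ (Fin n)) l = cf (fun θ => U x θ - U y θ) l := by
        intro l
        rw [cf_sub]; simp
      simp only [e1]
      refine (bessel _).trans ?_
      rw [div_le_iff₀ (by positivity)]
      have e2 : ∀ θ ∈ (Finset.univ : Finset (Fin n → Bool)),
          (U x θ - U y θ) ^ 2 ≤ (L * dist x y) ^ 2 := by
        intro θ _
        have h2 := hlip x y θ
        have h3 := hlip y x θ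
        rw [dist_comm] at h3
        exact sq_le_sq' (by linarith) h2
      refine (Finset.sum_le_sum e2).trans ?_
      rw [Finset.sum_const, nsmul_eq_mul]
      simp [mul_comm]
    exact le_of_sq_le_sq h1 (by positivity)
  · -- accuracy
    have hd0 : 0 ≤ dist x s := dist_nonneg
    have hdist : ∀ θ, dist (b θ x) s ≤ 4 * dist x s := by
      intro θ
      have h1 := hb θ x s hs
      have h2 := pr_abs θ (g (b θ x) - g s)
      rw [pr_sub] at h2
      have h2' : √(n : ℝ) * ‖g (b θ x) - g s‖ ≤ L / 2 * dist (b θ x) s := by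
        calc √(n : ℝ) * ‖g (b θ x) - g s‖ ≤ √(n : ℝ) * (D * dist (b θ x) s) :=
              mul_le_mul_of_nonneg_left (hg _ (hbA θ x) s hs) hn0
          _ = √(n : ℝ) * D * dist (b θ x) s := by ring
          _ ≤ L / 2 * dist (b θ x) s := mul_le_mul_of_nonneg_right hLn dist_nonneg
      have h3 := (abs_le.1 h2).1
      have h4 := dist_triangle (b θ x) x s
      rw [dist_comm (b θ x) x] at h4
      have h6 : L * dist x (b θ x) ≤ L * dist x s + L / 2 * dist (b θ x) s := by linarith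
      have h7 : dist x (b θ x) ≤ dist x s + dist (b θ x) s / 2 := by
        have : L * dist x (b θ x) ≤ L * (dist x s + dist (b θ x) s / 2) := by linarith
        exact le_of_mul_le_mul_left this hLp
      linarith
    have h1 : ‖WithLp.toLp 2 (cf (U x)) - g s‖ ^ 2 ≤ (6 * D * dist x s) ^ 2 := by
      rw [norm_sq']
      have e1 : ∀ l, (WithLp.toLp 2 (cf (U x)) - g s : EuclideanSpace ℝ (Fin n)) l =
          cf (fun θ => U x θ - pr θ (g s)) l := by
        intro l
        rw [cf_sub, cf_pr]; simp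
      simp only [e1]
      have e2 := flip_bound (fun θ => U x θ - pr θ (g s)) (fun θ l => (g (b θ x) - g s) l)
        (fun θ l => by
          have h2 := hb θ x (b (flp l θ) x) (hbA _ x)
          have h3 : pr θ (g (b (flp l θ) x)) - pr θ (g s) -
              (pr (flp l θ) (g (b (flp l θ) x)) - pr (flp l θ) (g s)) =
              2 * sg (θ l) * (g (b (flp l θ) x) - g s) l := by
            rw [← pr_sub, ← pr_sub]
            generalize (g (b (flp l θ) x) - g s) = w
            unfold pr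
            rw [← Finset.sum_sub_distrib, Finset.sum_eq_single l]
            · rw [flp_same, sg_not]; ring
            · intro m _ hm
              rw [flp_ne hm]; ring
            · intro h; exact absurd (Finset.mem_univ l) h
          simp only [hU] at h2 ⊢
          linarith)
        ((4 * D * dist x s) ^ 2) (fun θ => by
          rw [← norm_sq']
          refine pow_le_pow_left₀ (norm_nonneg _) ?_ 2
          calc ‖g (b θ x) - g s‖ ≤ D * dist (b θ x) s := hg _ (hbA θ x) s hs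
            _ ≤ D * (4 * dist x s) := mul_le_mul_of_nonneg_left (hdist θ) hD0.le
            _ = 4 * D * dist x s := by ring)
      refine e2.trans ?_
      nlinarith [sq_nonneg (D * dist x s)]
    exact le_of_sq_le_sq h1 (by positivity)

end Pool.Agent.H98U
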