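import Pool.Agent.H80U.Embed
import Pool.Agent.H98U.LowExt

/-!
The embedding of finite unions of pieces whose isometric maps extend with Lipschitz constant `L`
and accuracy `6`.
-/

open Finset

namespace Pool.Agent.H98U

open Pool.Agent.H80U

set_option linter.unusedSectionVars false
set_option linter.unusedVariables false

/-- Finite unions of `k` Euclidean pieces whose isometric maps have Lipschitz extensions -/
theorem finite_embed_of_ext {X : Type} [Fintype X] [MetricSpace X] {k : ℕ} (A : Fin k → Set X)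
    (hne : ∀ i, (A i).Nonempty) (hcov : ∀ x, ∃ i, x ∈ A i)
    {H : Type} [NormedAddCommGroup H] [InnerProductSpace ℝ H] (g : Fin k → X → H) (D : ℝ) (hD : 1 ≤ D)
    (hg : ∀ i, ∀ x ∈ A i, ∀ y ∈ A i, dist x y ≤ ‖g i x - g i y‖)
    (L : ℝ) (hLp : 0 < L) (F : Fin k → X → H)
    (hF1 : ∀ i x y, ‖F i x - F i y‖ ≤ L * dist x y)
    (hF2 : ∀ i x, ∀ s ∈ A i, ‖F i x - g i s‖ ≤ 6 * D * dist x s) :
    ∃ (H' : Type) (_ : NormedAddCommGroup H') (_ : InnerProductSpace ℝ H') (f : X → H'),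
      ∀ x y, dist x y ≤ ‖f x - f y‖ ∧
        ‖f x - f y‖ ^ 2 ≤ 512 * ((28 * D) ^ 2 * ((Nat.log 2 k : ℕ) + 1) + 4 * L ^ 2) *
          (42 * ((Nat.log 2 k : ℕ) + 1)) * dist x y ^ 2 := by
  classical
  by_cases hX : IsEmpty X
  · exact ⟨ℝ, inferInstance, inferInstance, fun _ => 0, fun x => (hX.false x).elim⟩
  rw [not_isEmpty_iff] at hX
  obtain ⟨x0⟩ := hX
  have hk : 1 ≤ k := by
    obtain ⟨i, -⟩ := hcov x0
    have := i.2; omega
  have hD0 : 0 < D := by linarith
  obtain ⟨B, hB⟩ : ∃ B : ℝ, ∀ x y : X, dist x y ≤ B := by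
    obtain ⟨p, -, hmax⟩ := Finset.exists_max_image (Finset.univ : Finset (X × X))
      (fun p : X × X => dist p.1 p.2) ⟨(x0, x0), Finset.mem_univ _⟩
    exact ⟨dist p.1 p.2, fun x y => hmax (x, y) (Finset.mem_univ _)⟩
  -- scales
  have hsc : ∀ s : ℝ, ∃ m : ℤ, 0 < s → ∀ s' d : ℝ, 0 ≤ d →
      1 / 64 * (min s d) ^ 2 ≤ qm m s s' d := by
    intro s
    by_cases hs : 0 < s
    · obtain ⟨m, hm⟩ := exists_scale hs
      exact ⟨m, fun _ => hm⟩
    · exact ⟨0, fun h => absurd h hs⟩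
  choose mm hmm using hsc
  set Z : Finset ℤ := Finset.univ.image
    (fun p : Finset (Fin k) × Fin k × X => mm (psi A B p.1 p.2.1 p.2.2)) with hZ
  set T := Nat.log 2 k with hT
  have hkT : k < 2 ^ (T + 1) := Nat.lt_pow_succ_log_self (by norm_num) k
  set q : X → X → ℝ := fun x y => ∑ t : Fin (T + 1), ∑ I, wt k (1 / 2 ^ ((t : ℕ) + 1)) I *
    QQ A B L Z F I x y with hq
  have hp01 : ∀ t : ℕ, (0 : ℝ) ≤ 1 / 2 ^ (t + 1) ∧ (1 : ℝ) / 2 ^ (t + 1) ≤ 1 := by
    intro t
    refine ⟨by positivity, ?_⟩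
    rw [div_le_one (by positivity)]
    exact one_le_pow₀ (by norm_num)
  have hqHD : HD q := by
    refine HD.sum _ fun t => HD.sum _ fun I => ?_
    exact (QQ_HD A B L hLp Z F I).smul (wt_nonneg k (hp01 t).1 (hp01 t).2 I)
  have hup : ∀ x y, q x y ≤ 42 * (T + 1) * dist x y ^ 2 := by
    intro x y
    have h1 : ∀ t : Fin (T + 1), ∑ I, wt k (1 / 2 ^ ((t : ℕ) + 1)) I * QQ A B L Z F I x y ≤
        42 * dist x y ^ 2 := by
      intro t
      calc _ ≤ ∑ I, wt k (1 / 2 ^ ((t : ℕ) + 1)) I * (42 * dist x y ^ 2) :=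
            Finset.sum_le_sum fun I _ => mul_le_mul_of_nonneg_left
              (QQ_le A B L hLp Z F (fun i => hF1 i) I x y) (wt_nonneg k (hp01 t).1 (hp01 t).2 I)
        _ = 42 * dist x y ^ 2 := by rw [← Finset.sum_mul, wt_sum, one_mul]
    calc q x y ≤ ∑ _t : Fin (T + 1), 42 * dist x y ^ 2 := Finset.sum_le_sum fun t _ => h1 t
      _ = 42 * (T + 1) * dist x y ^ 2 := by
        rw [Finset.sum_const, Finset.card_univ, Fintype.card_fin, nsmul_eq_mul]
        push_cast; ring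
  -- lower bound
  have hlo : ∀ x y, 1 / 512 * min ((dist x y / (28 * D)) ^ 2 / (T + 1)) ((dist x y / (2 * L)) ^ 2) ≤
      q x y := by
    intro x y
    set ρ := dist x y with hρ
    have hρ0 : 0 ≤ ρ := dist_nonneg
    set e := ρ / (28 * D) with he
    have he0 : 0 ≤ e := by positivity
    set v := ρ / (2 * L) with hv
    have hv0 : 0 ≤ v := by positivity
    set d : Fin k → ℝ := fun i => Metric.infDist x (A i) with hd
    have hd0 : ∀ i, 0 ≤ d i := fun i => Metric.infDist_nonneg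
    have heB : e ≤ B := by
      have := hB x y
      have : e ≤ ρ := by rw [he]; exact div_le_self hρ0 (by linarith)
      linarith
    have hlow : ∀ i, Metric.infDist x (A i) ≤ e → Metric.infDist y (A i) ≤ e →
        v * L ≤ ‖F i x - F i y‖ := by
      intro i hx hy
      obtain ⟨s, hs, hsd⟩ := (Set.toFinite (A i)).isCompact.exists_infDist_eq_dist (hne i) x
      obtain ⟨s', hs', hsd'⟩ := (Set.toFinite (A i)).isCompact.exists_infDist_eq_dist (hne i) y
      have a1 := hF2 i x s hs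
      have a2 := hF2 i y s' hs'
      have a3 := hg i s hs s' hs'
      have a4 : dist x s ≤ e := by rw [← hsd]; exact hx
      have a5 : dist y s' ≤ e := by rw [← hsd']; exact hy
      have a6 : ρ ≤ dist x s + dist s s' + dist y s' := by
        have := dist_triangle4 x s s' y
        rw [dist_comm s' y] at this
        exact this
      have a7 : ‖g i s - g i s'‖ ≤ ‖F i x - g i s‖ + ‖F i x - F i y‖ + ‖F i y - g i s'‖ := by
        have : g i s - g i s' = -(F i x - g i s) + (F i x - F i y) + (F i y - g i s') := by abel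
        rw [this]
        refine (norm_add_le _ _).trans (add_le_add_left ((norm_add_le _ _).trans ?_) _)
        rw [norm_neg]
      have a8 : v * L = ρ / 2 := by rw [hv]; field_simp
      rw [a8]
      have a9 : 28 * (D * e) = ρ := by rw [he]; field_simp
      have a10 : e ≤ D * e := by nlinarith
      have a11 : 6 * D * dist x s ≤ 6 * (D * e) := by
        have := mul_le_mul_of_nonneg_left a4 hD0.le
        linarith
      have a12 : 6 * D * dist y s' ≤ 6 * (D * e) := by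
        have := mul_le_mul_of_nonneg_left (show dist y s' ≤ e by rw [← hsd']; exact hy) hD0.le
        linarith
      linarith
    have hlev : ∀ t ∈ Finset.range (T + 1), 1 / 512 * (min (tau d e (t + 1) - tau d e t) v) ^ 2 ≤
        ∑ I, wt k (1 / 2 ^ (t + 1)) I * QQ A B L Z F I x y := by
      intro t _
      rcases eq_or_lt_of_le (tau_mono d e t) with h1 | h1
      · rw [h1, sub_self, min_eq_left hv0]
        have : 0 ≤ ∑ I, wt k (1 / 2 ^ (t + 1)) I * QQ A B L Z F I x y :=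
          Finset.sum_nonneg fun I _ => mul_nonneg (wt_nonneg k (hp01 t).1 (hp01 t).2 I)
            (QQ_nonneg A B L Z F I x y)
        simpa using this
      · have h2 := sample t (Finset.univ.filter fun i => Metric.infDist x (A i) < tau d e (t + 1))
          (Finset.univ.filter fun i => Metric.infDist x (A i) ≤ tau d e t)
          (fun i hi => by
            rw [Finset.mem_filter] at hi ⊢
            exact ⟨hi.1, lt_of_le_of_lt hi.2 h1⟩)
          (tau_card d e t (lt_of_lt_of_le h1 (tau_le d e (t + 1))))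
          (tau_card_lt d e (t + 1))
          (fun I => QQ A B L Z F I x y) (fun I => QQ_nonneg A B L Z F I x y)
          (1 / 64 * (min (tau d e (t + 1) - tau d e t) v) ^ 2) (by positivity)
          (fun J hJ => QQ_dichotomy A B L hLp Z F x y
            (fun I i hpos => ⟨mm (psi A B I i x), by
              rw [hZ, Finset.mem_image]
              exact ⟨(I, i, x), Finset.mem_univ _, rfl⟩, fun s' d' hd' => hmm _ hpos s' d' hd'⟩)
            e (tau d e t) (tau d e (t + 1)) v h1 (tau_le d e (t + 1)) heB hv0 hlow J hJ)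
        refine le_trans (le_of_eq ?_) h2
        ring
    have hsum : ∑ t ∈ Finset.range (T + 1), (tau d e (t + 1) - tau d e t) = e := by
      rw [Finset.sum_range_sub (tau d e), tau_top d e (T + 1) hkT]
      obtain ⟨i, hi⟩ := hcov x
      rw [tau_zero d e hd0 he0 (i := i) (Metric.infDist_zero_of_mem hi), sub_zero]
    have hcs := sum_min_sq T (fun t => tau d e (t + 1) - tau d e t)
      (fun t => by linarith [tau_mono d e t]) e v hv0 hsum he0
    have hqsum : q x y = ∑ t ∈ Finset.range (T + 1), ∑ I, wt k (1 / 2 ^ (t + 1)) I *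
        QQ A B L Z F I x y := by
      rw [hq]
      exact Fin.sum_univ_eq_sum_range (fun t => ∑ I, wt k (1 / 2 ^ (t + 1)) I *
        QQ A B L Z F I x y) (T + 1)
    rw [hqsum]
    calc 1 / 512 * min (e ^ 2 / (T + 1)) (v ^ 2)
        ≤ 1 / 512 * ∑ t ∈ Finset.range (T + 1), (min (tau d e (t + 1) - tau d e t) v) ^ 2 :=
          mul_le_mul_of_nonneg_left hcs (by norm_num)
      _ = ∑ t ∈ Finset.range (T + 1), 1 / 512 * (min (tau d e (t + 1) - tau d e t) v) ^ 2 := by
          rw [Finset.mul_sum]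
      _ ≤ _ := Finset.sum_le_sum hlev
  -- rescaling
  set Λ : ℝ := 512 * ((28 * D) ^ 2 * (T + 1) + 4 * L ^ 2) with hΛ
  have hΛ0 : 0 ≤ Λ := by positivity
  obtain ⟨H', i1, i2, f, hf⟩ := hqHD.smul hΛ0
  refine ⟨H', i1, i2, f, fun x y => ?_⟩
  have hρ0 : 0 ≤ dist x y := dist_nonneg
  have hlow : dist x y ^ 2 ≤ ‖f x - f y‖ ^ 2 := by
    rw [hf]
    refine le_trans ?_ (mul_le_mul_of_nonneg_left (hlo x y) hΛ0)
    have e1 : Λ * (1 / 512 * min ((dist x y / (28 * D)) ^ 2 / (T + 1)) ((dist x y / (2 * L)) ^ 2)) =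
        ((28 * D) ^ 2 * (T + 1) + 4 * L ^ 2) *
          min ((dist x y / (28 * D)) ^ 2 / (T + 1)) ((dist x y / (2 * L)) ^ 2) := by
      rw [hΛ]; ring
    rw [e1]
    rcases min_choice ((dist x y / (28 * D)) ^ 2 / ((T : ℝ) + 1)) ((dist x y / (2 * L)) ^ 2) with h1 | h1
    · rw [h1]
      have e2 : (28 * D) ^ 2 * ((T : ℝ) + 1) * ((dist x y / (28 * D)) ^ 2 / (T + 1)) = dist x y ^ 2 := by
        field_simp
      have e3 : 0 ≤ 4 * L ^ 2 * ((dist x y / (28 * D)) ^ 2 / (T + 1)) := by positivity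
      linarith
    · rw [h1]
      have e2 : 4 * L ^ 2 * (dist x y / (2 * L)) ^ 2 = dist x y ^ 2 := by
        field_simp
        ring
      have e3 : 0 ≤ (28 * D) ^ 2 * ((T : ℝ) + 1) * (dist x y / (2 * L)) ^ 2 := by positivity
      linarith
  have hupp : ‖f x - f y‖ ^ 2 ≤ Λ * (42 * ((T : ℝ) + 1)) * dist x y ^ 2 := by
    rw [hf]
    refine (mul_le_mul_of_nonneg_left (hup x y) hΛ0).trans (le_of_eq ?_)
    ring
  constructor
  · exact le_of_sq_le_sq hlow (norm_nonneg _)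
  · exact hupp

/-- Finite unions of `k` pieces of `ℝⁿ`. -/
theorem low_finite_embed {X : Type} [Fintype X] [MetricSpace X] {k n : ℕ} (A : Fin k → Set X)
    (hne : ∀ i, (A i).Nonempty) (hcov : ∀ x, ∃ i, x ∈ A i)
    (D : ℝ) (hD : 1 ≤ D) (g : Fin k → X → EuclideanSpace ℝ (Fin n))
    (hg : ∀ i, ∀ x ∈ A i, ∀ y ∈ A i, dist x y ≤ ‖g i x - g i y‖ ∧
      ‖g i x - g i y‖ ≤ D * dist x y) :
    ∃ (H' : Type) (_ : NormedAddCommGroup H') (_ : InnerProductSpace ℝ H') (f : X → H'),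
      ∀ x y, dist x y ≤ ‖f x - f y‖ ∧
        ‖f x - f y‖ ≤
          D * (7000 * (1 + Real.log k) + 800 * √(n * (1 + Real.log k))) * dist x y := by
  classical
  by_cases hX : IsEmpty X
  · exact ⟨ℝ, inferInstance, inferInstance, fun _ => 0, fun x => (hX.false x).elim⟩
  rw [not_isEmpty_iff] at hX
  obtain ⟨x0⟩ := hX
  have hk : 1 ≤ k := by
    obtain ⟨i, -⟩ := hcov x0
    have := i.2; omega
  have hD0 : 0 < D := by linarith
  choose F hF1 hF2 using fun i => low_ext D hD (A i) (hne i) (g i)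
    (fun x hx y hy => (hg i x hx y hy).2)
  have hn0 : 0 ≤ √(n : ℝ) := Real.sqrt_nonneg _
  obtain ⟨H', i1, i2, f, hf⟩ := finite_embed_of_ext A hne hcov g D hD
    (fun i x hx y hy => (hg i x hx y hy).1) (D * (2 * √n + 1)) (by positivity) F hF1 hF2
  refine ⟨H', i1, i2, f, fun x y => ⟨(hf x y).1, ?_⟩⟩
  have hρ0 : 0 ≤ dist x y := dist_nonneg
  set lam := 1 + Real.log k with hlam
  have hlam1 : 1 ≤ lam := by
    have : 0 ≤ Real.log k := Real.log_nonneg (by exact_mod_cast hk)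
    linarith
  have hT1 : ((Nat.log 2 k : ℕ) : ℝ) + 1 ≤ 3 / 2 * lam := log2_le k hk
  have hT0 : (0 : ℝ) ≤ ((Nat.log 2 k : ℕ) : ℝ) + 1 := by positivity
  have hs0 : 0 ≤ √(n * lam) := Real.sqrt_nonneg _
  have hs2 : √(n * lam) ^ 2 = n * lam := Real.sq_sqrt (by positivity)
  have hn2 : √(n : ℝ) ^ 2 = n := Real.sq_sqrt (Nat.cast_nonneg n)
  have hL2 : (2 * √(n : ℝ) + 1) ^ 2 ≤ 40 / 9 * n + 10 := by
    nlinarith [sq_nonneg (2 * √(n : ℝ) / 3 - 3)]
  refine le_of_sq_le_sq ?_ (by positivity)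
  refine (hf x y).2.trans ?_
  have h1 : 512 * ((28 * D) ^ 2 * (((Nat.log 2 k : ℕ) : ℝ) + 1) +
      4 * (D * (2 * √(n : ℝ) + 1)) ^ 2) ≤
      D ^ 2 * (512 * (28 ^ 2 * (3 / 2 * lam) + 4 * (40 / 9 * n + 10))) := by
    have e1 : 512 * ((28 * D) ^ 2 * (((Nat.log 2 k : ℕ) : ℝ) + 1) +
      4 * (D * (2 * √(n : ℝ) + 1)) ^ 2) =
      D ^ 2 * (512 * (28 ^ 2 * (((Nat.log 2 k : ℕ) : ℝ) + 1) + 4 * (2 * √(n : ℝ) + 1) ^ 2)) := by
      ring
    rw [e1]
    apply mul_le_mul_of_nonneg_left _ (by positivity)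
    gcongr
  have h2 : 42 * (((Nat.log 2 k : ℕ) : ℝ) + 1) ≤ 63 * lam := by linarith
  have h3 : 512 * ((28 * D) ^ 2 * (((Nat.log 2 k : ℕ) : ℝ) + 1) +
      4 * (D * (2 * √(n : ℝ) + 1)) ^ 2) * (42 * (((Nat.log 2 k : ℕ) : ℝ) + 1)) ≤
      D ^ 2 * (512 * (28 ^ 2 * (3 / 2 * lam) + 4 * (40 / 9 * n + 10))) * (63 * lam) :=
    mul_le_mul h1 h2 (by positivity) (by positivity)
  have h4 : 512 * (28 ^ 2 * (3 / 2 * lam) + 4 * (40 / 9 * n + 10)) * (63 * lam) ≤
      (7000 * lam + 800 * √(n * lam)) ^ 2 := by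
    have e1 : (7000 * lam + 800 * √(n * lam)) ^ 2 =
        49000000 * lam ^ 2 + 11200000 * (lam * √(n * lam)) + 640000 * √(n * lam) ^ 2 := by
      ring
    rw [e1, hs2]
    have e2 : 0 ≤ lam * √(n * lam) := by positivity
    have e3 : 0 ≤ (n : ℝ) * lam := by positivity
    have e4 : lam ≤ lam ^ 2 := by nlinarith
    have e5 : 512 * (28 ^ 2 * (3 / 2 * lam) + 4 * (40 / 9 * (n : ℝ) + 10)) * (63 * lam) =
        37933056 * lam ^ 2 + 573440 * (n * lam) + 1290240 * lam := by ring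
    rw [e5]
    nlinarith
  calc _ ≤ D ^ 2 * (512 * (28 ^ 2 * (3 / 2 * lam) + 4 * (40 / 9 * n + 10))) * (63 * lam) *
        dist x y ^ 2 := mul_le_mul_of_nonneg_right h3 (by positivity)
    _ = D ^ 2 * (512 * (28 ^ 2 * (3 / 2 * lam) + 4 * (40 / 9 * n + 10)) * (63 * lam)) *
        dist x y ^ 2 := by ring
    _ ≤ D ^ 2 * (7000 * lam + 800 * √(n * lam)) ^ 2 * dist x y ^ 2 :=
        mul_le_mul_of_nonneg_right (mul_le_mul_of_nonneg_left h4 (by positivity)) (by positivity)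
    _ = (D * (7000 * lam + 800 * √(n * lam)) * dist x y) ^ 2 := by ring

end Pool.Agent.H98U
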