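import Pool.Agent.H98U.Part

/-!
Spaces which are the union of `k` pieces with covers of bounded multiplicity and `s` arbitrary
Euclidean pieces.
-/

open Finset

namespace Pool.Agent.H98U

open Pool.Agent.H80U

/-- Finite spaces: `k` pieces with covers of bounded multiplicity and one further piece `Y`. -/
theorem mix_finite_embed {X : Type} [Fintype X] [MetricSpace X] {k : ℕ} (hk : 1 ≤ k) (c : ℝ)
    (hc : 1 ≤ c) (m : ℕ) (hm : 1 ≤ m) (A : Fin k → Set X) (hne : ∀ i, (A i).Nonempty)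
    (hP : ∀ i, Cov (A i) c m) (Y : Set X) (hcov : ∀ x, x ∉ Y → ∃ i, x ∈ A i)
    {H : Type*} [NormedAddCommGroup H] [InnerProductSpace ℝ H]
    (D : ℝ) (hD : 1 ≤ D) (g : Fin k → X → H)
    (hg : ∀ i, ∀ x ∈ A i, ∀ y ∈ A i, dist x y ≤ ‖g i x - g i y‖ ∧
      ‖g i x - g i y‖ ≤ D * dist x y)
    (E : ℝ) (hE : 1 ≤ E) (gY : X → H)
    (hgY : ∀ x ∈ Y, ∀ y ∈ Y, dist x y ≤ ‖gY x - gY y‖ ∧ ‖gY x - gY y‖ ≤ E * dist x y) :
    ∃ (H' : Type) (_ : NormedAddCommGroup H') (_ : InnerProductSpace ℝ H') (f : X → H'),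
      ∀ x y, dist x y ≤ ‖f x - f y‖ ∧
        ‖f x - f y‖ ≤ c * (D * (360000 * (1 + Real.log k) +
          1100000 * √((1 + Real.log m) * (1 + Real.log k))) +
          3432 * E * √(1 + Real.log k + Real.log m)) * dist x y := by
  classical
  obtain ⟨H', i1, i2, f, hf⟩ := nag_part_embed c hc m hm A hne hk hP D hD g hg
  have hlk : 0 ≤ Real.log k := Real.log_natCast_nonneg k
  have hlm : 0 ≤ Real.log m := Real.log_natCast_nonneg m
  have hc0 : 0 < c := by linarith
  have hE0 : 0 < E := by linarith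
  have hD0 : 0 < D := by linarith
  set a : ℝ := D * c * (360000 * (1 + Real.log k) +
          1100000 * √((1 + Real.log m) * (1 + Real.log k))) with ha
  set b : ℝ := E * (3432 * c * √(1 + Real.log k + Real.log m)) with hb
  have ha0 : 0 ≤ a := by positivity
  have hb0 : 0 ≤ b := by positivity
  have hab : c * (D * (360000 * (1 + Real.log k) +
          1100000 * √((1 + Real.log m) * (1 + Real.log k))) +
          3432 * E * √(1 + Real.log k + Real.log m)) = a + b := by rw [ha, hb]; ring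
  rw [hab]
  by_cases hY : Y.Nonempty
  swap
  · refine ⟨H', i1, i2, f, fun x y => ⟨(hf x y).1 (hcov x fun h => hY ⟨x, h⟩),
      (hf x y).2.trans ?_⟩⟩
    apply mul_le_mul_of_nonneg_right _ dist_nonneg
    linarith
  -- reduction to a finite dimensional space
  let S : Finset H := Finset.univ.image gY
  let V : Submodule ℝ H := Submodule.span ℝ (S : Set H)
  have : FiniteDimensional ℝ V := FiniteDimensional.span_finset ℝ S
  let bb := stdOrthonormalBasis ℝ V
  have hV : ∀ x, gY x ∈ V := fun x =>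
    Submodule.subset_span (Finset.mem_coe.2 (Finset.mem_image.2 ⟨x, Finset.mem_univ _, rfl⟩))
  let g' : X → EuclideanSpace ℝ (Fin (Module.finrank ℝ V)) := fun x => bb.repr ⟨gY x, hV x⟩
  have hg' : ∀ x y, ‖g' x - g' y‖ = ‖gY x - gY y‖ := by
    intro x y
    simp only [g']
    rw [← map_sub, LinearIsometryEquiv.norm_map]
    rfl
  obtain ⟨F, hF1, hF2⟩ := but_ext k hk Y hY c hc m hm (Or.inr ⟨A, hcov, hP⟩) E hE g'
    (fun x hx y hy => by rw [hg']; exact (hgY x hx y hy).2)
  have hkm : Real.log (k * m : ℕ) = Real.log k + Real.log m := by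
    push_cast
    exact Real.log_mul (by exact_mod_cast (by omega : k ≠ 0)) (by exact_mod_cast (by omega : m ≠ 0))
  rw [hkm, ← add_assoc, ← hb] at hF1
  have hFY : ∀ x ∈ Y, F x = g' x := fun x hx => by
    have h1 := hF2 x x hx
    rw [dist_self, mul_zero] at h1
    exact sub_eq_zero.1 (norm_le_zero_iff.1 h1)
  refine ⟨WithLp 2 (H' × EuclideanSpace ℝ (Fin (Module.finrank ℝ V))), inferInstance,
    inferInstance, fun x => WithLp.toLp 2 (f x, F x), fun x y => ?_⟩
  have hn : ‖(WithLp.toLp 2 (f x, F x) : WithLp 2 (H' × EuclideanSpace ℝ _)) -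
      WithLp.toLp 2 (f y, F y)‖ ^ 2 = ‖f x - f y‖ ^ 2 + ‖F x - F y‖ ^ 2 := by
    rw [WithLp.prod_norm_sq_eq_of_L2]; rfl
  have hd : 0 ≤ dist x y := dist_nonneg
  constructor
  · refine le_of_sq_le_sq ?_ (norm_nonneg _)
    rw [hn]
    by_cases hx : ∃ i, x ∈ A i
    · have h1 := pow_le_pow_left₀ hd ((hf x y).1 hx) 2
      nlinarith [sq_nonneg ‖F x - F y‖]
    by_cases hy : ∃ i, y ∈ A i
    · have h1 := (hf y x).1 hy
      rw [dist_comm, norm_sub_rev] at h1
      have h2 := pow_le_pow_left₀ hd h1 2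
      nlinarith [sq_nonneg ‖F x - F y‖]
    have hxY : x ∈ Y := by
      by_contra h; exact hx (hcov x h)
    have hyY : y ∈ Y := by
      by_contra h; exact hy (hcov y h)
    have h1 : dist x y ≤ ‖F x - F y‖ := by
      rw [hFY x hxY, hFY y hyY, hg']
      exact (hgY x hxY y hyY).1
    have h2 := pow_le_pow_left₀ hd h1 2
    nlinarith [sq_nonneg ‖f x - f y‖]
  · refine le_of_sq_le_sq ?_ (by positivity)
    rw [hn]
    have h1 := pow_le_pow_left₀ (norm_nonneg _) (hf x y).2 2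
    have h2 := pow_le_pow_left₀ (norm_nonneg _) (hF1 x y) 2
    have h3 : 0 ≤ a * b * dist x y ^ 2 := by positivity
    nlinarith

theorem mix_finite_subset_embed.{u} {k : ℕ} (hk : 1 ≤ k) (c : ℝ) (hc : 1 ≤ c) (m : ℕ)
    (hm : 1 ≤ m) {X : Type u} [MetricSpace X]
    (A : Fin k → Set X) (hP : ∀ i, Cov (A i) c m) (Y : Set X) (hcov : ∀ x, x ∉ Y → ∃ i, x ∈ A i)
    {H : Type*} [NormedAddCommGroup H] [InnerProductSpace ℝ H] (D : ℝ) (hD : 1 ≤ D)
    (g : Fin k → X → H)
    (hg : ∀ i, ∀ x ∈ A i, ∀ y ∈ A i, dist x y ≤ ‖g i x - g i y‖ ∧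
      ‖g i x - g i y‖ ≤ D * dist x y)
    (E : ℝ) (hE : 1 ≤ E) (gY : X → H)
    (hgY : ∀ x ∈ Y, ∀ y ∈ Y, dist x y ≤ ‖gY x - gY y‖ ∧ ‖gY x - gY y‖ ≤ E * dist x y)
    (S : Finset X) :
    ∃ (H' : Type) (_ : NormedAddCommGroup H') (_ : InnerProductSpace ℝ H')
      (f : X → H'), ∀ x ∈ S, ∀ y ∈ S, dist x y ≤ ‖f x - f y‖ ∧
        ‖f x - f y‖ ≤ c * (D * (360000 * (1 + Real.log k) +
          1100000 * √((1 + Real.log m) * (1 + Real.log k))) +
          3432 * E * √(1 + Real.log k + Real.log m)) * dist x y := by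
  classical
  by_cases hS : S = ∅
  · subst hS
    exact ⟨ℝ, inferInstance, inferInstance, fun _ => 0, fun x hx => by simp at hx⟩
  obtain ⟨x0, hx0⟩ := Finset.nonempty_iff_ne_empty.2 hS
  obtain ⟨e⟩ : Nonempty (Pt S.card ≃ S) := ⟨(S.equivFin.symm : Fin S.card ≃ S)⟩
  let emb : Pt S.card → X := fun j => (e j : X)
  have hemb : Function.Injective emb := fun a b h => e.injective (Subtype.ext h)
  let : MetricSpace (Pt S.card) := MetricSpace.induced emb hemb inferInstance
  have hd : ∀ a b : Pt S.card, dist a b = dist (emb a) (emb b) := fun a b => rfl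
  -- classes missing `S` are replaced by a singleton
  let A' : Fin k → Set X := fun i => if ∃ x ∈ S, x ∈ A i then A i else {x0}
  have hA'1 : ∀ i, (∃ x ∈ S, x ∈ A i) → A' i = A i := fun i h => if_pos h
  have hA'2 : ∀ i, ¬ (∃ x ∈ S, x ∈ A i) → A' i = {x0} := fun i h => if_neg h
  obtain ⟨H', j1, j2, f, hf⟩ := mix_finite_embed (X := Pt S.card) hk c hc m hm
    (fun i => emb ⁻¹' (A' i))
    (fun i => by
      by_cases h : ∃ x ∈ S, x ∈ A i
      · obtain ⟨x, hx, hxA⟩ := h
        refine ⟨e.symm ⟨x, hx⟩, ?_⟩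
        show emb (e.symm ⟨x, hx⟩) ∈ A' i
        rw [hA'1 i ⟨x, hx, hxA⟩]
        simpa [emb] using hxA
      · refine ⟨e.symm ⟨x0, hx0⟩, ?_⟩
        show emb (e.symm ⟨x0, hx0⟩) ∈ A' i
        rw [hA'2 i h]
        simp [emb])
    (fun i => by
      refine Cov.preimage ?_ emb fun a b => (hd a b).symm
      by_cases h : ∃ x ∈ S, x ∈ A i
      · rw [hA'1 i h]; exact hP i
      · rw [hA'2 i h]; exact cov_singleton x0 c hc m hm)
    (emb ⁻¹' Y)
    (fun a ha => by
      obtain ⟨i, hi⟩ := hcov (emb a) ha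
      refine ⟨i, ?_⟩
      show emb a ∈ A' i
      rw [hA'1 i ⟨emb a, (e a).2, hi⟩]; exact hi)
    D hD (fun i a => g i (emb a))
    (fun i a ha b hb => by
      by_cases h : ∃ x ∈ S, x ∈ A i
      · have ha' : emb a ∈ A' i := ha
        have hb' : emb b ∈ A' i := hb
        rw [hA'1 i h] at ha' hb'
        exact hg i _ ha' _ hb'
      · have ha' : emb a ∈ A' i := ha
        have hb' : emb b ∈ A' i := hb
        rw [hA'2 i h, Set.mem_singleton_iff] at ha' hb'
        have hab : a = b := hemb (ha'.trans hb'.symm)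
        subst hab
        simp)
    E hE (fun a => gY (emb a)) (fun a ha b hb => hgY _ ha _ hb)
  refine ⟨H', j1, j2, fun x => if hx : x ∈ S then f (e.symm ⟨x, hx⟩) else 0, ?_⟩
  intro x hx y hy
  have h1 := hf (e.symm ⟨x, hx⟩) (e.symm ⟨y, hy⟩)
  have h2 : dist (e.symm ⟨x, hx⟩) (e.symm ⟨y, hy⟩) = dist x y := by
    rw [hd]
    simp [emb]
  rw [h2] at h1
  simp only [dif_pos hx, dif_pos hy]
  exact h1

/-- embedding of a subset -/
def Emb {X : Type*} [MetricSpace X] (T : Set X) (C : ℝ) : Prop :=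
  ∃ g : T → lp (fun _ : ℕ => ℝ) 2, ∀ x y : T, dist x y ≤ ‖g x - g y‖ ∧
    ‖g x - g y‖ ≤ C * dist x y

lemma Emb.mono {X : Type*} [MetricSpace X] {T : Set X} {C C' : ℝ} (h : Emb T C) (hC : C ≤ C') :
    Emb T C' := by
  obtain ⟨g, hg⟩ := h
  exact ⟨g, fun x y => ⟨(hg x y).1, (hg x y).2.trans (mul_le_mul_of_nonneg_right hC dist_nonneg)⟩⟩

lemma emb_empty {X : Type*} [MetricSpace X] (C : ℝ) : Emb (∅ : Set X) C :=
  ⟨fun _ => 0, fun x => absurd x.2 (Set.notMem_empty _)⟩

lemma Emb.separable {X : Type*} [MetricSpace X] {T : Set X} {C : ℝ} (hC : 0 ≤ C) (h : Emb T C) :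
    TopologicalSpace.IsSeparable T := by
  obtain ⟨g, hg⟩ := h
  have := l2_separable
  have hLip : LipschitzWith (Real.toNNReal C) g := LipschitzWith.of_dist_le_mul fun x y => by
    rw [dist_eq_norm, Real.coe_toNNReal _ hC]; exact (hg x y).2
  have hAnti : AntilipschitzWith 1 g := AntilipschitzWith.of_le_mul_dist fun x y => by
    rw [dist_eq_norm, NNReal.coe_one, one_mul]; exact (hg x y).1
  have h2 : Topology.IsInducing g :=
    (hAnti.isUniformInducing hLip.uniformContinuous).isInducing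
  have h3 : TopologicalSpace.SeparableSpace T := by
    have : SecondCountableTopology T := by
      have : SecondCountableTopology (lp (fun _ : ℕ => ℝ) 2) :=
        UniformSpace.secondCountable_of_separable _
      exact h2.secondCountableTopology
    infer_instance
  exact TopologicalSpace.IsSeparable.of_subtype _

/-- `k` pieces with covers of bounded multiplicity and one further piece `Y`. -/
theorem mix_main.{u} (k : ℕ) (hk : 1 ≤ k) (c : ℝ) (hc : 1 ≤ c) (m : ℕ) (hm : 1 ≤ m) (D : ℝ)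
    (hD : 1 ≤ D) (X : Type u) [MetricSpace X] (A : Fin k → Set X) (Y : Set X)
    (hcov : ∀ x, x ∉ Y → ∃ i, x ∈ A i) (hP : ∀ i, Cov (A i) c m) (hA : ∀ i, Emb (A i) D)
    (E : ℝ) (hE : 1 ≤ E) (hY : Emb Y E) :
    ∃ f : X → lp (fun _ : ℕ => ℝ) 2, ∀ x y, dist x y ≤ ‖f x - f y‖ ∧
      ‖f x - f y‖ ≤ c * (D * (360000 * (1 + Real.log k) +
          1100000 * √((1 + Real.log m) * (1 + Real.log k))) +
          3432 * E * √(1 + Real.log k + Real.log m)) * dist x y := by
  classical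
  have hsepA : ∀ i, TopologicalSpace.IsSeparable (A i) := fun i =>
    (hA i).separable (by linarith)
  have hsepY : TopologicalSpace.IsSeparable Y := hY.separable (by linarith)
  choose g hg using hA
  obtain ⟨gY, hgY⟩ := hY
  let G : Fin k → X → lp (fun _ : ℕ => ℝ) 2 := fun i x => if hx : x ∈ A i then g i ⟨x, hx⟩ else 0
  have hG : ∀ i, ∀ x ∈ A i, ∀ y ∈ A i, dist x y ≤ ‖G i x - G i y‖ ∧
      ‖G i x - G i y‖ ≤ D * dist x y := by
    intro i x hx y hy
    simp only [G, dif_pos hx, dif_pos hy]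
    exact hg i ⟨x, hx⟩ ⟨y, hy⟩
  let GY : X → lp (fun _ : ℕ => ℝ) 2 := fun x => if hx : x ∈ Y then gY ⟨x, hx⟩ else 0
  have hGY : ∀ x ∈ Y, ∀ y ∈ Y, dist x y ≤ ‖GY x - GY y‖ ∧ ‖GY x - GY y‖ ≤ E * dist x y := by
    intro x hx y hy
    simp only [GY, dif_pos hx, dif_pos hy]
    exact hgY ⟨x, hx⟩ ⟨y, hy⟩
  have hlogm : 0 ≤ Real.log m := Real.log_natCast_nonneg m
  have hlogk : 0 ≤ Real.log k := Real.log_natCast_nonneg k
  set Q : ℝ := c * (D * (360000 * (1 + Real.log k) +
          1100000 * √((1 + Real.log m) * (1 + Real.log k))) +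
          3432 * E * √(1 + Real.log k + Real.log m)) with hQ
  have hQ0 : 0 ≤ Q := by positivity
  obtain ⟨H, i1, i2, i3, f, hf⟩ := finite_to_all Q
    (fun S => mix_finite_subset_embed hk c hc m hm A hP Y hcov D hD G hG E hE GY hGY S)
  have hsepX : TopologicalSpace.SeparableSpace X := by
    rw [← TopologicalSpace.isSeparable_univ_iff]
    refine ((TopologicalSpace.IsSeparable.iUnion hsepA).union hsepY).mono fun x _ => ?_
    by_cases hx : x ∈ Y
    · exact Or.inr hx
    · exact Or.inl (Set.mem_iUnion.2 (hcov x hx))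
  have hcont : Continuous f := by
    have : LipschitzWith (Real.toNNReal Q) f := by
      refine LipschitzWith.of_dist_le_mul fun x y => ?_
      rw [dist_eq_norm, Real.coe_toNNReal _ hQ0]
      exact (hf x y).2
    exact this.continuous
  obtain ⟨F, hF⟩ := to_l2 f (TopologicalSpace.isSeparable_range hcont)
  exact ⟨F, fun x y => by rw [hF]; exact hf x y⟩

/-- the union of `s` Euclidean pieces -/
lemma emb_union {X : Type*} [MetricSpace X] (s : ℕ) (B : Fin s → Set X)
    (hB : ∀ j, Emb (B j) 1) :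
    Emb {x | ∃ j, x ∈ B j} (1 + 10000000 * Real.log s * (1 + Real.log s)) := by
  classical
  have hls : 0 ≤ Real.log s := Real.log_natCast_nonneg s
  rcases Nat.lt_or_ge s 2 with hs | hs
  · refine Emb.mono (C := 1) ?_ (by
      have : 0 ≤ 10000000 * Real.log s * (1 + Real.log s) := by positivity
      linarith)
    rcases Nat.eq_zero_or_pos s with h | h
    · subst h
      have e : {x | ∃ j : Fin 0, x ∈ B j} = ∅ := by
        ext x; simp
      rw [e]; exact emb_empty 1
    · obtain rfl : s = 1 := by omega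
      have e : {x | ∃ j : Fin 1, x ∈ B j} = B 0 := by
        ext x
        simp only [Set.mem_ofPred_eq]
        exact ⟨fun ⟨j, hj⟩ => by rwa [Subsingleton.elim j 0] at hj, fun h => ⟨0, h⟩⟩
      rw [e]; exact hB 0
  · set Y : Set X := {x | ∃ j, x ∈ B j} with hY
    obtain ⟨f, hf⟩ := Pool.Agent.H80U.main s Y (fun j => {y : Y | (y : X) ∈ B j})
      (by
        rw [Set.eq_univ_iff_forall]
        rintro ⟨y, j, hy⟩
        rw [Set.mem_iUnion]
        exact ⟨j, hy⟩)
      (fun j => by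
        obtain ⟨g, hg⟩ := hB j
        refine ⟨fun y => g ⟨y.1.1, y.2⟩, Isometry.of_dist_eq fun x y => ?_⟩
        have h1 := hg ⟨x.1.1, x.2⟩ ⟨y.1.1, y.2⟩
        rw [dist_eq_norm]
        have h2 : dist x y = dist (⟨x.1.1, x.2⟩ : B j) ⟨y.1.1, y.2⟩ := rfl
        rw [h2]
        exact le_antisymm (by linarith [h1.2]) h1.1)
    refine ⟨f, fun x y => ⟨(hf x y).1, (hf x y).2.trans ?_⟩⟩
    apply mul_le_mul_of_nonneg_right _ dist_nonneg
    have h2 : Real.log 2 ≤ Real.log s := Real.log_le_log (by norm_num) (by exact_mod_cast hs)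
    have h3 := Real.log_two_gt_d9
    nlinarith

/-- `k` pieces with covers of bounded multiplicity and `s` arbitrary Euclidean pieces. -/
theorem mixed_main.{u} (k s : ℕ) (c : ℝ) (hc : 1 ≤ c) (m : ℕ) (hm : 1 ≤ m) (D : ℝ)
    (hD : 1 ≤ D) (X : Type u) [MetricSpace X] (A : Fin k → Set X) (B : Fin s → Set X)
    (hcov : (⋃ i, A i) ∪ (⋃ j, B j) = Set.univ)
    (hP : ∀ i, Cov (A i) c m) (hA : ∀ i, Emb (A i) D) (hB : ∀ j, Emb (B j) 1) :
    ∃ f : X → lp (fun _ : ℕ => ℝ) 2, ∀ x y, dist x y ≤ ‖f x - f y‖ ∧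
      ‖f x - f y‖ ≤ c * (D * (360000 * (1 + Real.log k) +
          1100000 * √((1 + Real.log m) * (1 + Real.log k))) +
          3432 * (1 + 10000000 * Real.log s * (1 + Real.log s)) *
            √(1 + Real.log k + Real.log m)) * dist x y := by
  classical
  have hls : 0 ≤ Real.log s := Real.log_natCast_nonneg s
  have hE : 1 ≤ 1 + 10000000 * Real.log s * (1 + Real.log s) := by
    have : 0 ≤ 10000000 * Real.log s * (1 + Real.log s) := by positivity
    linarith
  have hcov' : ∀ x, x ∉ {x | ∃ j, x ∈ B j} → ∃ i, x ∈ A i := by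
    intro x hx
    have h1 : x ∈ (⋃ i, A i) ∪ (⋃ j, B j) := by rw [hcov]; exact Set.mem_univ x
    rcases h1 with h1 | h1
    · exact Set.mem_iUnion.1 h1
    · exact absurd (Set.mem_iUnion.1 h1) hx
  rcases Nat.eq_zero_or_pos k with hk | hk
  · subst hk
    have h1 := mix_main 1 le_rfl c hc m hm D hD X (fun _ : Fin 1 => (∅ : Set X))
      {x | ∃ j, x ∈ B j}
      (fun x hx => by
        obtain ⟨i, -⟩ := hcov' x hx
        exact i.elim0)
      (fun _ => cov_empty c m) (fun _ => emb_empty D) _ hE (emb_union s B hB)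
    have e : Real.log ((1 : ℕ) : ℝ) = Real.log ((0 : ℕ) : ℝ) := by simp
    rw [e] at h1
    exact h1
  · exact mix_main k hk c hc m hm D hD X A {x | ∃ j, x ∈ B j} hcov' hP hA _ hE
      (emb_union s B hB)

end Pool.Agent.H98U
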