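import Pool.Agent.H98U.Nagata

/-!
Doubling spaces have covers of bounded multiplicity at every scale.
-/

open Finset

namespace Pool.Agent.H98U

/-- A subset which satisfies the packing form of the doubling condition with constant `lam` has
covers with constant `2` and multiplicity `lam ^ 2`. -/
lemma cov_of_pack {X : Type*} [MetricSpace X] (A : Set X) (lam : ℕ) (hP : Pack A lam) :
    Cov A 2 (lam ^ 2) := by
  classical
  intro s hs
  -- a maximal `s`-separated subset of `A`
  obtain ⟨N, hN⟩ := zorn_subset {N : Set X | N ⊆ A ∧ ∀ q ∈ N, ∀ q' ∈ N, q ≠ q' → s < dist q q'}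
    (fun c hc hchain => by
      refine ⟨⋃₀ c, ⟨?_, ?_⟩, fun t ht => Set.subset_sUnion_of_mem ht⟩
      · exact Set.sUnion_subset fun t ht => (hc ht).1
      · rintro q ⟨t, ht, hq⟩ q' ⟨t', ht', hq'⟩ hne
        rcases hchain.total ht ht' with h | h
        · exact (hc ht').2 q (h hq) q' hq' hne
        · exact (hc ht).2 q hq q' (h hq') hne)
  have hNA := hN.prop.1
  have hsep := hN.prop.2
  have hcov : ∀ a ∈ A, ∃ p ∈ N, dist a p ≤ s := by
    intro a ha
    by_contra hcon
    push Not at hcon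
    have h1 : insert a N ∈ {N : Set X | N ⊆ A ∧ ∀ q ∈ N, ∀ q' ∈ N, q ≠ q' → s < dist q q'} := by
      refine ⟨Set.insert_subset ha hNA, ?_⟩
      rintro q (rfl | hq) q' (rfl | hq') hne
      · exact absurd rfl hne
      · exact hcon q' hq'
      · rw [dist_comm]; exact hcon q hq
      · exact hsep q hq q' hq' hne
    have h2 := hN.le_of_ge h1 (Set.subset_insert a N) (Set.mem_insert a N)
    have h3 := hcon a h2
    rw [dist_self] at h3
    linarith
  refine ⟨(fun n => {q | q ∈ A ∧ dist q n ≤ s}) '' N, fun a ha => ?_, ?_, ?_, fun p hp => ?_⟩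
  · obtain ⟨n, hn, hd⟩ := hcov a ha
    exact ⟨_, ⟨n, hn, rfl⟩, ha, hd⟩
  · rintro _ ⟨n, -, rfl⟩ q hq
    exact hq.1
  · rintro _ ⟨n, -, rfl⟩ x hx y hy
    have := dist_triangle_right x y n
    have h1 := hx.2
    have h2 := hy.2
    linarith
  · have h1 : {C ∈ (fun n => {q | q ∈ A ∧ dist q n ≤ s}) '' N | ∃ q ∈ C, dist q p ≤ s} ⊆
        (fun n => {q | q ∈ A ∧ dist q n ≤ s}) '' {n ∈ N | dist n p ≤ 2 * s} := by
      rintro _ ⟨⟨n, hn, rfl⟩, q, hq, hqp⟩
      refine ⟨n, ⟨hn, ?_⟩, rfl⟩
      have := dist_triangle_left n p q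
      have h2 := hq.2
      linarith
    refine (Set.encard_le_encard h1).trans ((Set.encard_image_le _ _).trans ?_)
    by_contra hcon
    push Not at hcon
    obtain ⟨S, hS, hSc⟩ := Set.exists_subset_encard_eq (Order.add_one_le_of_lt hcon)
    have hfin : S.Finite := Set.finite_of_encard_eq_coe (k := lam ^ 2 + 1) (by
      rw [hSc]; push_cast; rfl)
    have h2 := hP 2 p s hp hs hfin.toFinset
      (fun q hq => hNA (hS (hfin.mem_toFinset.1 hq)).1)
      (fun q hq => by
        have := (hS (hfin.mem_toFinset.1 hq)).2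
        norm_num
        linarith)
      (fun q hq q' hq' hne => hsep q (hS (hfin.mem_toFinset.1 hq)).1 q'
        (hS (hfin.mem_toFinset.1 hq')).1 hne)
    have h3 : (hfin.toFinset.card : ℕ∞) = lam ^ 2 + 1 := by
      rw [← Set.encard_coe_eq_coe_finsetCard, hfin.coe_toFinset, hSc]; push_cast; rfl
    have h4 : hfin.toFinset.card = lam ^ 2 + 1 := by exact_mod_cast h3
    omega

end Pool.Agent.H98U
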