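import Pool.Agent.H98U.Sel
import Pool.Agent.H98U.LowFinal

/-!
Unions of `k` pieces with covers of bounded multiplicity at every scale.
-/

open Finset

namespace Pool.Agent.H98U

open Pool.Agent.H80U

/-- covers of bounded multiplicity at every scale -/
def Cov {X : Type*} [MetricSpace X] (A : Set X) (c : ℝ) (m : ℕ) : Prop :=
  ∀ s : ℝ, 0 < s → ∃ 𝒞 : Set (Set X), (∀ a ∈ A, ∃ C ∈ 𝒞, a ∈ C) ∧ (∀ C ∈ 𝒞, C ⊆ A) ∧
    (∀ C ∈ 𝒞, ∀ x ∈ C, ∀ y ∈ C, dist x y ≤ c * s) ∧
    ∀ p ∈ A, {C ∈ 𝒞 | ∃ q ∈ C, dist q p ≤ s}.encard ≤ m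

/-- Kuratowski map of a finite metric space -/
noncomputable def kur {X : Type*} [MetricSpace X] (x : X) : X → ℝ := fun z => dist x z

lemma kur_isometry {X : Type*} [Fintype X] [MetricSpace X] : Isometry (kur : X → X → ℝ) := by
  refine Isometry.of_dist_eq fun x y => ?_
  apply le_antisymm
  · rw [dist_pi_le_iff dist_nonneg]
    intro z
    rw [Real.dist_eq]
    exact abs_dist_sub_le x y z
  · have := dist_le_pi_dist (kur x) (kur y) y
    simp only [kur, dist_self, Real.dist_eq, sub_zero, abs_of_nonneg dist_nonneg] at this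
    exact this

/-- Single scale extension. -/
theorem nag_single {X : Type} [Fintype X] [MetricSpace X] {n : ℕ} (A : Set X) (hA : A.Nonempty)
    (c : ℝ) (hc : 1 ≤ c) (m : ℕ) (hm : 1 ≤ m) (hC : Cov A c m) (g : X → EuclideanSpace ℝ (Fin n))
    (hg : ∀ a ∈ A, ∀ b ∈ A, ‖g a - g b‖ ≤ dist a b) (r : ℝ) (hr : 0 < r) :
    ∃ F : X → EuclideanSpace ℝ (Fin n),
      (∀ x, Metric.infDist x A ≤ 4 * r → ∀ a ∈ A, ‖F x - g a‖ ≤ 116 * c * (r + dist x a)) ∧
      ∀ x y, Metric.infDist x A ≤ 4 * r → Metric.infDist y A ≤ 4 * r →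
        ‖F x - F y‖ ≤ 1276 * c * √(1 + Real.log m) * dist x y := by
  classical
  obtain ⟨𝒞, hcov, hsub, hdiam, hmult⟩ := hC (16 * r) (by positivity)
  let ι := {C : Set X // C ∈ 𝒞 ∧ C.Nonempty}
  have : Fintype ι := Fintype.ofFinite ι
  have hmem : ∀ a ∈ A, ∃ u : ι, a ∈ u.1 := fun a ha => by
    obtain ⟨C, hC, haC⟩ := hcov a ha
    exact ⟨⟨C, hC, ⟨a, haC⟩⟩, haC⟩
  have hιne : Nonempty ι := by
    obtain ⟨a, ha⟩ := hA
    obtain ⟨u, -⟩ := hmem a ha
    exact ⟨u⟩
  choose pt hpt using fun u : ι => u.2.2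
  have hiso : Isometry (kur : X → X → ℝ) := kur_isometry
  have hptA : ∀ u, pt u ∈ A := fun u => hsub _ u.2.1 (hpt u)
  have hAne : (kur '' A).Nonempty := hA.image _
  have hune : ∀ u : ι, (kur '' u.1).Nonempty := fun u => u.2.2.image _
  have hnear : ∀ e : X → ℝ, ∃ a ∈ A, Metric.infDist e (kur '' A) = dist e (kur a) := fun e => by
    obtain ⟨b, ⟨a, ha, rfl⟩, hb⟩ :=
      (Set.toFinite (kur '' A)).isCompact.exists_infDist_eq_dist hAne e
    exact ⟨a, ha, hb⟩
  have hq : ∀ (u : ι) (e : X → ℝ), Metric.infDist e (kur '' u.1) < 8 * r →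
      ∃ q ∈ u.1, dist e (kur q) < 8 * r := fun u e h => by
    obtain ⟨b, ⟨q, hq, rfl⟩, hb⟩ := (Metric.infDist_lt_iff (hune u)).1 h
    exact ⟨q, hq, hb⟩
  obtain ⟨F, hF1, hF2⟩ := sel (E := X → ℝ) (ι := ι) (fun u => g (pt u))
    (fun u e => Metric.infDist e (kur '' u.1)) (fun e => Metric.infDist e (kur '' A)) r hr m hm
    (48 * c * r) (by positivity)
    (fun u x y => by
      have h1 := Metric.infDist_le_infDist_add_dist (s := kur '' u.1) (x := x) (y := y)
      have h2 := Metric.infDist_le_infDist_add_dist (s := kur '' u.1) (x := y) (y := x)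
      rw [dist_comm y x] at h2
      rw [← dist_eq_norm, abs_le]
      constructor <;> linarith)
    (fun x y => by
      have h1 := Metric.infDist_le_infDist_add_dist (s := kur '' A) (x := x) (y := y)
      rw [← dist_eq_norm]
      exact h1)
    (fun x hx => by
      obtain ⟨a, ha, hxa⟩ := hnear x
      obtain ⟨u, hu⟩ := hmem a ha
      refine ⟨u, le_trans (Metric.infDist_le_dist_of_mem (Set.mem_image_of_mem kur hu)) ?_⟩
      rw [← hxa]; exact hx)
    (fun x hx S hS => by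
      obtain ⟨a, ha, hxa⟩ := hnear x
      have h1 : ((S.image fun u : ι => u.1 : Finset (Set X)) : Set (Set X)) ⊆
          {C ∈ 𝒞 | ∃ q ∈ C, dist q a ≤ 16 * r} := by
        intro C hC
        rw [Finset.mem_coe, Finset.mem_image] at hC
        obtain ⟨u, hu, rfl⟩ := hC
        obtain ⟨q, hq1, hq2⟩ := hq u x (hS u hu)
        refine ⟨u.2.1, q, hq1, ?_⟩
        have h2 := dist_triangle_left (kur q) (kur a) x
        rw [hiso.dist_eq, ← hxa] at h2
        linarith
      have h2 := (Set.encard_le_encard h1).trans (hmult a ha)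
      rw [Set.encard_coe_eq_coe_finsetCard,
        Finset.card_image_of_injective _ Subtype.val_injective] at h2
      exact_mod_cast h2)
    (fun x hx u u' hu hu' => by
      obtain ⟨q, hq1, hq2⟩ := hq u x hu
      obtain ⟨q', hq1', hq2'⟩ := hq u' x hu'
      refine (hg _ (hptA u) _ (hptA u')).trans ?_
      have h1 := hdiam _ u.2.1 _ (hpt u) _ hq1
      have h2 := hdiam _ u'.2.1 _ hq1' _ (hpt u')
      have h3 := dist_triangle_left (kur q) (kur q') x
      rw [hiso.dist_eq] at h3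
      have h4 := dist_triangle4 (pt u) q q' (pt u')
      have h5 : r ≤ c * r := le_mul_of_one_le_left hr.le hc
      linarith)
  have hinf : ∀ x, Metric.infDist (kur x) (kur '' A) = Metric.infDist x A := fun x =>
    Metric.infDist_image hiso
  set μ : ℝ := √(1 + Real.log m) with hμ
  have hμ1 : 1 ≤ μ := by
    rw [hμ, Real.one_le_sqrt]
    linarith [Real.log_natCast_nonneg m]
  have hacc : ∀ x, Metric.infDist x A ≤ 4 * r → ∀ a ∈ A,
      ‖F (kur x) - g a‖ ≤ 116 * c * (r + dist x a) := by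
    intro x hx a ha
    obtain ⟨a', ha', hxa'⟩ := hnear (kur x)
    rw [hinf, hiso.dist_eq] at hxa'
    obtain ⟨u, hu⟩ := hmem a' ha'
    have h1 : Metric.infDist (kur x) (kur '' u.1) ≤ dist x a' := by
      rw [← hiso.dist_eq x a']
      exact Metric.infDist_le_dist_of_mem (Set.mem_image_of_mem kur hu)
    have h2 := hF1 (kur x) (by rw [hinf]; linarith) u (by linarith)
    have h3 := (hg _ (hptA u) _ ha').trans (hdiam _ u.2.1 _ (hpt u) _ hu)
    have h4 := hg _ ha' _ ha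
    have h5 := dist_triangle_left a' a x
    have h6 : F (kur x) - g a = (F (kur x) - g (pt u)) + (g (pt u) - g a') + (g a' - g a) := by
      abel
    rw [h6]
    refine norm_add₃_le.trans ?_
    have h7 : r ≤ c * r := le_mul_of_one_le_left hr.le hc
    have h8 : dist x a ≤ 116 * c * dist x a := by
      apply le_mul_of_one_le_left dist_nonneg; linarith
    linarith
  refine ⟨fun x => F (kur x), hacc, fun x y hx hy => ?_⟩
  have hδ0 : 0 ≤ dist x y := dist_nonneg
  have hcμ : 0 < c * μ := by positivity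
  rcases le_or_gt (dist x y) r with hδ | hδ
  · have h1 := hF2 (kur x) (kur y) (by rw [hinf]; exact hx)
      (by rw [← dist_eq_norm, hiso.dist_eq]; exact hδ)
    rw [← dist_eq_norm (kur x) (kur y), hiso.dist_eq] at h1
    have e0 : 48 * c * r / r = 48 * c := by field_simp
    have e1 : 15 * μ * (48 * c * r / r) * dist x y = 720 * (c * μ) * dist x y := by
      rw [e0]; ring
    rw [e1] at h1
    refine h1.trans ?_
    have : 0 ≤ c * μ * dist x y := by positivity
    linarith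
  · obtain ⟨a, ha, hxa⟩ := hnear (kur x)
    rw [hinf, hiso.dist_eq] at hxa
    have h1 := hacc x hx a ha
    have h2 := hacc y hy a ha
    have h3 := dist_triangle_left y a x
    have e1 : F (kur x) - F (kur y) = (F (kur x) - g a) - (F (kur y) - g a) := by abel
    rw [e1]
    refine (norm_sub_le _ _).trans ?_
    have h4 : dist x a ≤ 4 * r := by rw [← hxa]; exact hx
    have h5 : 116 * c * (r + dist x a) + 116 * c * (r + dist y a) ≤ 116 * c * (11 * dist x y) := by
      rw [← mul_add]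
      apply mul_le_mul_of_nonneg_left _ (by positivity)
      linarith
    have h6 : 116 * c * (11 * dist x y) ≤ 1276 * c * μ * dist x y := by
      have h7 : c * dist x y ≤ c * dist x y * μ := le_mul_of_one_le_right (by positivity) hμ1
      linarith
    linarith

/-- Extension of a Lipschitz map. -/
theorem nag_ext {X : Type} [Fintype X] [MetricSpace X] {n : ℕ} (A : Set X) (hA : A.Nonempty)
    (c : ℝ) (hc : 1 ≤ c) (m : ℕ) (hm : 1 ≤ m) (hC : Cov A c m) (D : ℝ) (hD : 1 ≤ D)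
    (g : X → EuclideanSpace ℝ (Fin n))
    (hg : ∀ a ∈ A, ∀ b ∈ A, ‖g a - g b‖ ≤ D * dist a b) :
    ∃ F : X → EuclideanSpace ℝ (Fin n),
      (∀ x y, ‖F x - F y‖ ≤ D * (3016 * c * √(1 + Real.log m)) * dist x y) ∧
      ∀ x, ∀ s ∈ A, ‖F x - g s‖ ≤ 6 * (58 * c * D) * dist x s := by
  classical
  have hD0 : 0 < D := by linarith
  set μ : ℝ := √(1 + Real.log m) with hμ
  have hμ1 : 1 ≤ μ := by
    rw [hμ, Real.one_le_sqrt]
    linarith [Real.log_natCast_nonneg m]
  set g' : X → EuclideanSpace ℝ (Fin n) := fun x => D⁻¹ • g x with hg'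
  have hgg : ∀ a ∈ A, ∀ b ∈ A, ‖g' a - g' b‖ ≤ dist a b := by
    intro a ha b hb
    rw [hg']; simp only
    rw [← smul_sub, norm_smul, Real.norm_of_nonneg (by positivity), inv_mul_le_iff₀ hD0]
    exact hg a ha b hb
  have h := fun i : ℤ => nag_single A hA c hc m hm hC g' hgg ((2 : ℝ) ^ i) (by positivity)
  choose F h1 h2 using h
  obtain ⟨G, hG1, hG2⟩ := glue A hA g' (116 * c) (1276 * c * μ) (by linarith) (by positivity) F
    (fun m x hx a ha => h1 m x hx a ha) (fun m x y hx hy => h2 m x y hx hy) hgg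
  refine ⟨fun x => D • G x, fun x y => ?_, fun x s hs => ?_⟩
  · rw [← smul_sub, norm_smul, Real.norm_of_nonneg hD0.le, mul_assoc]
    apply mul_le_mul_of_nonneg_left _ hD0.le
    refine (hG1 x y).trans (mul_le_mul_of_nonneg_right ?_ dist_nonneg)
    have h7 : c ≤ c * μ := le_mul_of_one_le_right (by positivity) hμ1
    linarith
  · have e1 : D • G x - g s = D • (G x - g' s) := by
      rw [smul_sub, hg']; simp only
      rw [smul_smul, mul_inv_cancel₀ hD0.ne', one_smul]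
    rw [e1, norm_smul, Real.norm_of_nonneg hD0.le]
    calc D * ‖G x - g' s‖ ≤ D * (3 * (116 * c) * dist x s) :=
          mul_le_mul_of_nonneg_left (hG2 x s hs) hD0.le
      _ = 6 * (58 * c * D) * dist x s := by ring

/-- Finite unions. -/
theorem nag_finite_embed {X : Type} [Fintype X] [MetricSpace X] {k : ℕ} (c : ℝ) (hc : 1 ≤ c)
    (m : ℕ) (hm : 1 ≤ m)
    (A : Fin k → Set X) (hne : ∀ i, (A i).Nonempty) (hcov : ∀ x, ∃ i, x ∈ A i)
    (hP : ∀ i, Cov (A i) c m) {H : Type*} [NormedAddCommGroup H] [InnerProductSpace ℝ H]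
    (D : ℝ) (hD : 1 ≤ D) (g : Fin k → X → H)
    (hg : ∀ i, ∀ x ∈ A i, ∀ y ∈ A i, dist x y ≤ ‖g i x - g i y‖ ∧
      ‖g i x - g i y‖ ≤ D * dist x y) :
    ∃ (H' : Type) (_ : NormedAddCommGroup H') (_ : InnerProductSpace ℝ H') (f : X → H'),
      ∀ x y, dist x y ≤ ‖f x - f y‖ ∧
        ‖f x - f y‖ ≤ D * c * (360000 * (1 + Real.log k) +
          1100000 * √((1 + Real.log m) * (1 + Real.log k))) * dist x y := by
  classical
  by_cases hX : IsEmpty X
  · exact ⟨ℝ, inferInstance, inferInstance, fun _ => 0, fun x => (hX.false x).elim⟩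
  rw [not_isEmpty_iff] at hX
  obtain ⟨x0⟩ := hX
  have hk : 1 ≤ k := by
    obtain ⟨i, -⟩ := hcov x0
    have := i.2; omega
  have hD0 : 0 < D := by linarith
  have hc0 : 0 < c := by linarith
  -- reduction to a finite dimensional space
  let S : Finset H := Finset.univ.image fun p : Fin k × X => g p.1 p.2
  let V : Submodule ℝ H := Submodule.span ℝ (S : Set H)
  have : FiniteDimensional ℝ V := FiniteDimensional.span_finset ℝ S
  let b := stdOrthonormalBasis ℝ V
  have hV : ∀ i x, g i x ∈ V := fun i x =>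
    Submodule.subset_span (Finset.mem_coe.2 (Finset.mem_image.2 ⟨(i, x), Finset.mem_univ _, rfl⟩))
  let g' : Fin k → X → EuclideanSpace ℝ (Fin (Module.finrank ℝ V)) := fun i x =>
    b.repr ⟨g i x, hV i x⟩
  have hg' : ∀ i x y, ‖g' i x - g' i y‖ = ‖g i x - g i y‖ := by
    intro i x y
    simp only [g']
    rw [← map_sub, LinearIsometryEquiv.norm_map]
    rfl
  choose F hF1 hF2 using fun i => nag_ext (A i) (hne i) c hc m hm (hP i) D hD (g' i)
    (fun x hx y hy => by rw [hg']; exact (hg i x hx y hy).2)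
  have hlog : 0 ≤ Real.log m := Real.log_natCast_nonneg m
  obtain ⟨H', i1, i2, f, hf⟩ := finite_embed_of_ext A hne hcov g' (58 * c * D) (by nlinarith)
    (fun i x hx y hy => by rw [hg']; exact (hg i x hx y hy).1)
    (D * (3016 * c * √(1 + Real.log m))) (by positivity) F hF1 hF2
  refine ⟨H', i1, i2, f, fun x y => ⟨(hf x y).1, ?_⟩⟩
  have hρ0 : 0 ≤ dist x y := dist_nonneg
  set l := 1 + Real.log k with hl
  have hl1 : 1 ≤ l := by
    have : 0 ≤ Real.log k := Real.log_nonneg (by exact_mod_cast hk)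
    linarith
  set μ := 1 + Real.log m with hμ
  have hμ1 : 1 ≤ μ := by linarith
  have hT1 : ((Nat.log 2 k : ℕ) : ℝ) + 1 ≤ 3 / 2 * l := log2_le k hk
  have hT0 : (0 : ℝ) ≤ ((Nat.log 2 k : ℕ) : ℝ) + 1 := by positivity
  have hs0 : 0 ≤ √(μ * l) := Real.sqrt_nonneg _
  have hs2 : √(μ * l) ^ 2 = μ * l := Real.sq_sqrt (by positivity)
  have hK2 : √μ ^ 2 = μ := Real.sq_sqrt (by positivity)
  refine le_of_sq_le_sq ?_ (by positivity)
  refine (hf x y).2.trans ?_
  have h1 : 512 * ((28 * (58 * c * D)) ^ 2 * (((Nat.log 2 k : ℕ) : ℝ) + 1) +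
      4 * (D * (3016 * c * √μ)) ^ 2) ≤
      (D * c) ^ 2 * (512 * (1624 ^ 2 * (3 / 2 * l) + 4 * (3016 ^ 2 * μ))) := by
    have e1 : 512 * ((28 * (58 * c * D)) ^ 2 * (((Nat.log 2 k : ℕ) : ℝ) + 1) +
      4 * (D * (3016 * c * √μ)) ^ 2) =
      (D * c) ^ 2 * (512 * (1624 ^ 2 * (((Nat.log 2 k : ℕ) : ℝ) + 1) +
        4 * (3016 ^ 2 * √μ ^ 2))) := by
      ring
    rw [e1, hK2]
    apply mul_le_mul_of_nonneg_left _ (by positivity)
    gcongr
  have h2 : 42 * (((Nat.log 2 k : ℕ) : ℝ) + 1) ≤ 63 * l := by linarith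
  have h3 : 512 * ((28 * (58 * c * D)) ^ 2 * (((Nat.log 2 k : ℕ) : ℝ) + 1) +
      4 * (D * (3016 * c * √μ)) ^ 2) * (42 * (((Nat.log 2 k : ℕ) : ℝ) + 1)) ≤
      (D * c) ^ 2 * (512 * (1624 ^ 2 * (3 / 2 * l) + 4 * (3016 ^ 2 * μ))) * (63 * l) :=
    mul_le_mul h1 h2 (by positivity) (by positivity)
  have h4 : 512 * (1624 ^ 2 * (3 / 2 * l) + 4 * (3016 ^ 2 * μ)) * (63 * l) ≤
      (360000 * l + 1100000 * √(μ * l)) ^ 2 := by
    have e1 : (360000 * l + 1100000 * √(μ * l)) ^ 2 =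
        129600000000 * l ^ 2 + 792000000000 * (l * √(μ * l)) +
          1210000000000 * √(μ * l) ^ 2 := by
      ring
    rw [e1, hs2]
    have e2 : 0 ≤ l * √(μ * l) := by positivity
    have e3 : 0 ≤ μ * l := by positivity
    have e5 : 512 * (1624 ^ 2 * (3 / 2 * l) + 4 * (3016 ^ 2 * μ)) * (63 * l) =
        127606800384 * l ^ 2 + 1173635334144 * (μ * l) := by ring
    rw [e5]
    nlinarith [sq_nonneg l]
  calc _ ≤ (D * c) ^ 2 * (512 * (1624 ^ 2 * (3 / 2 * l) + 4 * (3016 ^ 2 * μ))) * (63 * l) *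
        dist x y ^ 2 := mul_le_mul_of_nonneg_right h3 (by positivity)
    _ = (D * c) ^ 2 * (512 * (1624 ^ 2 * (3 / 2 * l) + 4 * (3016 ^ 2 * μ)) * (63 * l)) *
        dist x y ^ 2 := by ring
    _ ≤ (D * c) ^ 2 * (360000 * l + 1100000 * √(μ * l)) ^ 2 * dist x y ^ 2 :=
        mul_le_mul_of_nonneg_right (mul_le_mul_of_nonneg_left h4 (by positivity)) (by positivity)
    _ = (D * c * (360000 * l + 1100000 * √(μ * l)) * dist x y) ^ 2 := by ring

lemma Cov.preimage {X Y : Type*} [MetricSpace X] [MetricSpace Y] {A : Set X} {c : ℝ} {m : ℕ}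
    (hP : Cov A c m) (e : Y → X) (he : ∀ a b, dist (e a) (e b) = dist a b) :
    Cov (e ⁻¹' A) c m := by
  classical
  intro s hs
  obtain ⟨𝒞, h1, h2, h3, h4⟩ := hP s hs
  refine ⟨(fun C => e ⁻¹' C) '' 𝒞, fun a ha => ?_, ?_, ?_, fun p hp => ?_⟩
  · obtain ⟨C, hC, haC⟩ := h1 (e a) ha
    exact ⟨e ⁻¹' C, ⟨C, hC, rfl⟩, haC⟩
  · rintro _ ⟨C, hC, rfl⟩
    exact Set.preimage_mono (h2 C hC)
  · rintro _ ⟨C, hC, rfl⟩ x hx y hy
    rw [← he]
    exact h3 C hC _ hx _ hy
  · refine le_trans (Set.encard_le_encard ?_)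
      ((Set.encard_image_le (fun C => e ⁻¹' C) _).trans (h4 (e p) hp))
    rintro _ ⟨⟨C, hC, rfl⟩, q, hq, hqp⟩
    exact ⟨C, ⟨hC, e q, hq, by rw [he]; exact hqp⟩, rfl⟩

theorem nag_finite_subset_embed.{u} {k : ℕ} (c : ℝ) (hc : 1 ≤ c) (m : ℕ) (hm : 1 ≤ m)
    {X : Type u} [MetricSpace X]
    (A : Fin k → Set X) (hcov : ∀ x, ∃ i, x ∈ A i) (hP : ∀ i, Cov (A i) c m)
    {H : Type*} [NormedAddCommGroup H] [InnerProductSpace ℝ H] (D : ℝ) (hD : 1 ≤ D)
    (g : Fin k → X → H)
    (hg : ∀ i, ∀ x ∈ A i, ∀ y ∈ A i, dist x y ≤ ‖g i x - g i y‖ ∧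
      ‖g i x - g i y‖ ≤ D * dist x y)
    (S : Finset X) :
    ∃ (H' : Type) (_ : NormedAddCommGroup H') (_ : InnerProductSpace ℝ H')
      (f : X → H'), ∀ x ∈ S, ∀ y ∈ S, dist x y ≤ ‖f x - f y‖ ∧
        ‖f x - f y‖ ≤ D * c * (360000 * (1 + Real.log k) +
          1100000 * √((1 + Real.log m) * (1 + Real.log k))) * dist x y := by
  classical
  by_cases hS : S = ∅
  · subst hS
    exact ⟨ℝ, inferInstance, inferInstance, fun _ => 0, fun x hx => by simp at hx⟩
  obtain ⟨x0, hx0⟩ := Finset.nonempty_iff_ne_empty.2 hS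
  obtain ⟨e⟩ : Nonempty (Pt S.card ≃ S) := ⟨(S.equivFin.symm : Fin S.card ≃ S)⟩
  let emb : Pt S.card → X := fun j => (e j : X)
  have hemb : Function.Injective emb := fun a b h => e.injective (Subtype.ext h)
  let : MetricSpace (Pt S.card) := MetricSpace.induced emb hemb inferInstance
  have hd : ∀ a b : Pt S.card, dist a b = dist (emb a) (emb b) := fun a b => rfl
  obtain ⟨i0, hi0⟩ := hcov x0
  -- index replacement for classes missing `S`
  let s : Fin k → Fin k := fun i => if ∃ x ∈ S, x ∈ A i then i else i0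
  obtain ⟨H', j1, j2, f, hf⟩ := nag_finite_embed (X := Pt S.card) c hc m hm
    (fun i => emb ⁻¹' (A (s i)))
    (fun i => by
      by_cases h : ∃ x ∈ S, x ∈ A i
      · obtain ⟨x, hx, hxA⟩ := h
        refine ⟨e.symm ⟨x, hx⟩, ?_⟩
        have hs : s i = i := if_pos ⟨x, hx, hxA⟩
        show emb (e.symm ⟨x, hx⟩) ∈ A (s i)
        rw [hs]
        simpa [emb] using hxA
      · refine ⟨e.symm ⟨x0, hx0⟩, ?_⟩
        have hs : s i = i0 := if_neg h
        show emb (e.symm ⟨x0, hx0⟩) ∈ A (s i)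
        rw [hs]
        simpa [emb] using hi0)
    (fun a => by
      obtain ⟨i, hi⟩ := hcov (emb a)
      refine ⟨i, ?_⟩
      have hs : s i = i := if_pos ⟨emb a, (e a).2, hi⟩
      show emb a ∈ A (s i)
      rw [hs]; exact hi)
    (fun i => (hP (s i)).preimage emb fun a b => (hd a b).symm)
    D hD (fun i a => g (s i) (emb a))
    (fun i a ha b hb => hg (s i) _ ha _ hb)
  refine ⟨H', j1, j2, fun x => if hx : x ∈ S then f (e.symm ⟨x, hx⟩) else 0, ?_⟩
  intro x hx y hy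
  have h1 := hf (e.symm ⟨x, hx⟩) (e.symm ⟨y, hy⟩)
  have h2 : dist (e.symm ⟨x, hx⟩) (e.symm ⟨y, hy⟩) = dist x y := by
    rw [hd]
    simp [emb]
  rw [h2] at h1
  simp only [dif_pos hx, dif_pos hy]
  exact h1

/-- Unions of `k` Euclidean pieces with covers of bounded multiplicity. -/
theorem nag_main.{u} (k : ℕ) (c : ℝ) (hc : 1 ≤ c) (m : ℕ) (hm : 1 ≤ m) (D : ℝ) (hD : 1 ≤ D)
    (X : Type u) [MetricSpace X] (A : Fin k → Set X) (hcov : ⋃ i, A i = Set.univ)
    (hP : ∀ i, Cov (A i) c m)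
    (hA : ∀ i, ∃ g : A i → lp (fun _ : ℕ => ℝ) 2, ∀ x y : A i,
      dist x y ≤ ‖g x - g y‖ ∧ ‖g x - g y‖ ≤ D * dist x y) :
    ∃ f : X → lp (fun _ : ℕ => ℝ) 2, ∀ x y, dist x y ≤ ‖f x - f y‖ ∧
      ‖f x - f y‖ ≤ D * c * (360000 * (1 + Real.log k) +
          1100000 * √((1 + Real.log m) * (1 + Real.log k))) * dist x y := by
  classical
  have hcov' : ∀ x, ∃ i, x ∈ A i := by
    intro x
    have : x ∈ ⋃ i, A i := by rw [hcov]; exact Set.mem_univ x
    simpa using this
  choose g hg using hA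
  let G : Fin k → X → lp (fun _ : ℕ => ℝ) 2 := fun i x => if hx : x ∈ A i then g i ⟨x, hx⟩ else 0
  have hG : ∀ i, ∀ x ∈ A i, ∀ y ∈ A i, dist x y ≤ ‖G i x - G i y‖ ∧
      ‖G i x - G i y‖ ≤ D * dist x y := by
    intro i x hx y hy
    simp only [G, dif_pos hx, dif_pos hy]
    exact hg i ⟨x, hx⟩ ⟨y, hy⟩
  have hlog : 0 ≤ Real.log m := Real.log_natCast_nonneg m
  have hlogk : 0 ≤ Real.log k := Real.log_natCast_nonneg k
  obtain ⟨H, i1, i2, i3, f, hf⟩ := finite_to_all (D * c * (360000 * (1 + Real.log k) +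
      1100000 * √((1 + Real.log m) * (1 + Real.log k))))
    (fun S => nag_finite_subset_embed c hc m hm A hcov' hP D hD G hG S)
  -- separability
  have := l2_separable
  have hsepA : ∀ i, TopologicalSpace.IsSeparable (A i) := by
    intro i
    have h1 : TopologicalSpace.IsSeparable (Set.range (g i)) :=
      TopologicalSpace.IsSeparable.of_separableSpace _
    have hLip : LipschitzWith (Real.toNNReal D) (g i) := LipschitzWith.of_dist_le_mul fun x y => by
      rw [dist_eq_norm, Real.coe_toNNReal _ (by linarith)]; exact (hg i x y).2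
    have hAnti : AntilipschitzWith 1 (g i) := AntilipschitzWith.of_le_mul_dist fun x y => by
      rw [dist_eq_norm, NNReal.coe_one, one_mul]; exact (hg i x y).1
    have h2 : Topology.IsInducing (g i) :=
      (hAnti.isUniformInducing hLip.uniformContinuous).isInducing
    have h3 : TopologicalSpace.SeparableSpace (A i) := by
      have : SecondCountableTopology (A i) := by
        have : SecondCountableTopology (lp (fun _ : ℕ => ℝ) 2) :=
          UniformSpace.secondCountable_of_separable _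
        exact h2.secondCountableTopology
      infer_instance
    exact TopologicalSpace.IsSeparable.of_subtype _
  have hsepX : TopologicalSpace.SeparableSpace X := by
    rw [← TopologicalSpace.isSeparable_univ_iff, ← hcov]
    exact TopologicalSpace.IsSeparable.iUnion hsepA
  have hcont : Continuous f := by
    have : LipschitzWith (Real.toNNReal (D * c * (360000 * (1 + Real.log k) +
        1100000 * √((1 + Real.log m) * (1 + Real.log k))))) f := by
      refine LipschitzWith.of_dist_le_mul fun x y => ?_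
      rw [dist_eq_norm, Real.coe_toNNReal _ (by positivity)]
      exact (hf x y).2
    exact this.continuous
  obtain ⟨F, hF⟩ := to_l2 f (TopologicalSpace.isSeparable_range hcont)
  exact ⟨F, fun x y => by rw [hF]; exact hf x y⟩

/-- covers of a subset from covers of the induced metric space -/
lemma cov_of_subtype {X : Type*} [MetricSpace X] (A : Set X) (c : ℝ) (m : ℕ)
    (h : ∀ s : ℝ, 0 < s → ∃ 𝒞 : Set (Set A), ⋃₀ 𝒞 = Set.univ ∧
      (∀ C ∈ 𝒞, ∀ x ∈ C, ∀ y ∈ C, dist x y ≤ c * s) ∧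
      ∀ p : A, {C ∈ 𝒞 | ∃ q ∈ C, dist q p ≤ s}.encard ≤ m) : Cov A c m := by
  classical
  intro s hs
  obtain ⟨𝒞, h1, h2, h3⟩ := h s hs
  refine ⟨(fun C => Subtype.val '' C) '' 𝒞, fun a ha => ?_, ?_, ?_, fun p hp => ?_⟩
  · have : (⟨a, ha⟩ : A) ∈ ⋃₀ 𝒞 := by rw [h1]; exact Set.mem_univ _
    obtain ⟨C, hC, haC⟩ := this
    exact ⟨Subtype.val '' C, ⟨C, hC, rfl⟩, ⟨⟨a, ha⟩, haC, rfl⟩⟩
  · rintro _ ⟨C, hC, rfl⟩ x ⟨y, -, rfl⟩
    exact y.2
  · rintro _ ⟨C, hC, rfl⟩ _ ⟨x, hx, rfl⟩ _ ⟨y, hy, rfl⟩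
    exact h2 C hC x hx y hy
  · refine le_trans (Set.encard_le_encard ?_)
      ((Set.encard_image_le (fun C => Subtype.val '' C) _).trans (h3 ⟨p, hp⟩))
    rintro _ ⟨⟨C, hC, rfl⟩, _, ⟨q, hq, rfl⟩, hqp⟩
    exact ⟨C, ⟨hC, q, hq, hqp⟩, rfl⟩

end Pool.Agent.H98U
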