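import Pool.Agent.H98U.AllButMain
import Pool.Agent.H80U.Final

/-!
Spaces which are the union of `k` pieces with covers of bounded multiplicity and one further
Euclidean piece (or `s` further Euclidean pieces).
-/

open Finset

namespace Pool.Agent.H98U

open Pool.Agent.H80U

set_option linter.unusedSectionVars false
set_option linter.unusedVariables false

/-- `k` pieces which need not cover the space: the lower bound holds for pairs with at least one
point in a piece. -/
theorem part_embed_of_ext {X : Type} [Fintype X] [MetricSpace X] {k : ℕ} (A : Fin k → Set X)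
    (hne : ∀ i, (A i).Nonempty) (hk : 1 ≤ k)
    {H : Type} [NormedAddCommGroup H] [InnerProductSpace ℝ H] (g : Fin k → X → H) (D : ℝ) (hD : 1 ≤ D)
    (hg : ∀ i, ∀ x ∈ A i, ∀ y ∈ A i, dist x y ≤ ‖g i x - g i y‖)
    (L : ℝ) (hLp : 0 < L) (F : Fin k → X → H)
    (hF1 : ∀ i x y, ‖F i x - F i y‖ ≤ L * dist x y)
    (hF2 : ∀ i x, ∀ s ∈ A i, ‖F i x - g i s‖ ≤ 6 * D * dist x s) :
    ∃ (H' : Type) (_ : NormedAddCommGroup H') (_ : InnerProductSpace ℝ H') (f : X → H'),
      ∀ x y, ((∃ i, x ∈ A i) → dist x y ≤ ‖f x - f y‖) ∧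
        ‖f x - f y‖ ^ 2 ≤ 512 * ((28 * D) ^ 2 * ((Nat.log 2 k : ℕ) + 1) + 4 * L ^ 2) *
          (42 * ((Nat.log 2 k : ℕ) + 1)) * dist x y ^ 2 := by
  classical
  by_cases hX : IsEmpty X
  · exact ⟨ℝ, inferInstance, inferInstance, fun _ => 0, fun x => (hX.false x).elim⟩
  rw [not_isEmpty_iff] at hX
  obtain ⟨x0⟩ := hX
  have hD0 : 0 < D := by linarith
  obtain ⟨B, hB⟩ : ∃ B : ℝ, ∀ x y : X, dist x y ≤ B := by
    obtain ⟨p, -, hmax⟩ := Finset.exists_max_image (Finset.univ : Finset (X × X))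
      (fun p : X × X => dist p.1 p.2) ⟨(x0, x0), Finset.mem_univ _⟩
    exact ⟨dist p.1 p.2, fun x y => hmax (x, y) (Finset.mem_univ _)⟩
  -- scales
  have hsc : ∀ s : ℝ, ∃ m : ℤ, 0 < s → ∀ s' d : ℝ, 0 ≤ d →
      1 / 64 * (min s d) ^ 2 ≤ qm m s s' d := by
    intro s
    by_cases hs : 0 < s
    · obtain ⟨m, hm⟩ := exists_scale hs
      exact ⟨m, fun _ => hm⟩
    · exact ⟨0, fun h => absurd h hs⟩
  choose mm hmm using hsc
  set Z : Finset ℤ := Finset.univ.image
    (fun p : Finset (Fin k) × Fin k × X => mm (psi A B p.1 p.2.1 p.2.2)) with hZ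
  set T := Nat.log 2 k with hT
  have hkT : k < 2 ^ (T + 1) := Nat.lt_pow_succ_log_self (by norm_num) k
  set q : X → X → ℝ := fun x y => ∑ t : Fin (T + 1), ∑ I, wt k (1 / 2 ^ ((t : ℕ) + 1)) I *
    QQ A B L Z F I x y with hq
  have hp01 : ∀ t : ℕ, (0 : ℝ) ≤ 1 / 2 ^ (t + 1) ∧ (1 : ℝ) / 2 ^ (t + 1) ≤ 1 := by
    intro t
    refine ⟨by positivity, ?_⟩
    rw [div_le_one (by positivity)]
    exact one_le_pow₀ (by norm_num)
  have hqHD : HD q := by
    refine HD.sum _ fun t => HD.sum _ fun I => ?_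
    exact (QQ_HD A B L hLp Z F I).smul (wt_nonneg k (hp01 t).1 (hp01 t).2 I)
  have hup : ∀ x y, q x y ≤ 42 * (T + 1) * dist x y ^ 2 := by
    intro x y
    have h1 : ∀ t : Fin (T + 1), ∑ I, wt k (1 / 2 ^ ((t : ℕ) + 1)) I * QQ A B L Z F I x y ≤
        42 * dist x y ^ 2 := by
      intro t
      calc _ ≤ ∑ I, wt k (1 / 2 ^ ((t : ℕ) + 1)) I * (42 * dist x y ^ 2) :=
            Finset.sum_le_sum fun I _ => mul_le_mul_of_nonneg_left
              (QQ_le A B L hLp Z F (fun i => hF1 i) I x y) (wt_nonneg k (hp01 t).1 (hp01 t).2 I)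
        _ = 42 * dist x y ^ 2 := by rw [← Finset.sum_mul, wt_sum, one_mul]
    calc q x y ≤ ∑ _t : Fin (T + 1), 42 * dist x y ^ 2 := Finset.sum_le_sum fun t _ => h1 t
      _ = 42 * (T + 1) * dist x y ^ 2 := by
        rw [Finset.sum_const, Finset.card_univ, Fintype.card_fin, nsmul_eq_mul]
        push_cast; ring
  -- lower bound
  have hlo : ∀ x y, (∃ i, x ∈ A i) → 1 / 512 * min ((dist x y / (28 * D)) ^ 2 / (T + 1)) ((dist x y / (2 * L)) ^ 2) ≤
      q x y := by
    intro x y hx0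
    set ρ := dist x y with hρ
    have hρ0 : 0 ≤ ρ := dist_nonneg
    set e := ρ / (28 * D) with he
    have he0 : 0 ≤ e := by positivity
    set v := ρ / (2 * L) with hv
    have hv0 : 0 ≤ v := by positivity
    set d : Fin k → ℝ := fun i => Metric.infDist x (A i) with hd
    have hd0 : ∀ i, 0 ≤ d i := fun i => Metric.infDist_nonneg
    have heB : e ≤ B := by
      have := hB x y
      have : e ≤ ρ := by rw [he]; exact div_le_self hρ0 (by linarith)
      linarith
    have hlow : ∀ i, Metric.infDist x (A i) ≤ e → Metric.infDist y (A i) ≤ e →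
        v * L ≤ ‖F i x - F i y‖ := by
      intro i hx hy
      obtain ⟨s, hs, hsd⟩ := (Set.toFinite (A i)).isCompact.exists_infDist_eq_dist (hne i) x
      obtain ⟨s', hs', hsd'⟩ := (Set.toFinite (A i)).isCompact.exists_infDist_eq_dist (hne i) y
      have a1 := hF2 i x s hs
      have a2 := hF2 i y s' hs'
      have a3 := hg i s hs s' hs'
      have a4 : dist x s ≤ e := by rw [← hsd]; exact hx
      have a5 : dist y s' ≤ e := by rw [← hsd']; exact hy
      have a6 : ρ ≤ dist x s + dist s s' + dist y s' := by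
        have := dist_triangle4 x s s' y
        rw [dist_comm s' y] at this
        exact this
      have a7 : ‖g i s - g i s'‖ ≤ ‖F i x - g i s‖ + ‖F i x - F i y‖ + ‖F i y - g i s'‖ := by
        have : g i s - g i s' = -(F i x - g i s) + (F i x - F i y) + (F i y - g i s') := by abel
        rw [this]
        refine (norm_add_le _ _).trans (add_le_add_left ((norm_add_le _ _).trans ?_) _)
        rw [norm_neg]
      have a8 : v * L = ρ / 2 := by rw [hv]; field_simp
      rw [a8]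
      have a9 : 28 * (D * e) = ρ := by rw [he]; field_simp
      have a10 : e ≤ D * e := by nlinarith
      have a11 : 6 * D * dist x s ≤ 6 * (D * e) := by
        have := mul_le_mul_of_nonneg_left a4 hD0.le
        linarith
      have a12 : 6 * D * dist y s' ≤ 6 * (D * e) := by
        have := mul_le_mul_of_nonneg_left (show dist y s' ≤ e by rw [← hsd']; exact hy) hD0.le
        linarith
      linarith
    have hlev : ∀ t ∈ Finset.range (T + 1), 1 / 512 * (min (tau d e (t + 1) - tau d e t) v) ^ 2 ≤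
        ∑ I, wt k (1 / 2 ^ (t + 1)) I * QQ A B L Z F I x y := by
      intro t _
      rcases eq_or_lt_of_le (tau_mono d e t) with h1 | h1
      · rw [h1, sub_self, min_eq_left hv0]
        have : 0 ≤ ∑ I, wt k (1 / 2 ^ (t + 1)) I * QQ A B L Z F I x y :=
          Finset.sum_nonneg fun I _ => mul_nonneg (wt_nonneg k (hp01 t).1 (hp01 t).2 I)
            (QQ_nonneg A B L Z F I x y)
        simpa using this
      · have h2 := sample t (Finset.univ.filter fun i => Metric.infDist x (A i) < tau d e (t + 1))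
          (Finset.univ.filter fun i => Metric.infDist x (A i) ≤ tau d e t)
          (fun i hi => by
            rw [Finset.mem_filter] at hi ⊢
            exact ⟨hi.1, lt_of_le_of_lt hi.2 h1⟩)
          (tau_card d e t (lt_of_lt_of_le h1 (tau_le d e (t + 1))))
          (tau_card_lt d e (t + 1))
          (fun I => QQ A B L Z F I x y) (fun I => QQ_nonneg A B L Z F I x y)
          (1 / 64 * (min (tau d e (t + 1) - tau d e t) v) ^ 2) (by positivity)
          (fun J hJ => QQ_dichotomy A B L hLp Z F x y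
            (fun I i hpos => ⟨mm (psi A B I i x), by
              rw [hZ, Finset.mem_image]
              exact ⟨(I, i, x), Finset.mem_univ _, rfl⟩, fun s' d' hd' => hmm _ hpos s' d' hd'⟩)
            e (tau d e t) (tau d e (t + 1)) v h1 (tau_le d e (t + 1)) heB hv0 hlow J hJ)
        refine le_trans (le_of_eq ?_) h2
        ring
    have hsum : ∑ t ∈ Finset.range (T + 1), (tau d e (t + 1) - tau d e t) = e := by
      rw [Finset.sum_range_sub (tau d e), tau_top d e (T + 1) hkT]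
      obtain ⟨i, hi⟩ := hx0
      rw [tau_zero d e hd0 he0 (i := i) (Metric.infDist_zero_of_mem hi), sub_zero]
    have hcs := sum_min_sq T (fun t => tau d e (t + 1) - tau d e t)
      (fun t => by linarith [tau_mono d e t]) e v hv0 hsum he0
    have hqsum : q x y = ∑ t ∈ Finset.range (T + 1), ∑ I, wt k (1 / 2 ^ (t + 1)) I *
        QQ A B L Z F I x y := by
      rw [hq]
      exact Fin.sum_univ_eq_sum_range (fun t => ∑ I, wt k (1 / 2 ^ (t + 1)) I *
        QQ A B L Z F I x y) (T + 1)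
    rw [hqsum]
    calc 1 / 512 * min (e ^ 2 / (T + 1)) (v ^ 2)
        ≤ 1 / 512 * ∑ t ∈ Finset.range (T + 1), (min (tau d e (t + 1) - tau d e t) v) ^ 2 :=
          mul_le_mul_of_nonneg_left hcs (by norm_num)
      _ = ∑ t ∈ Finset.range (T + 1), 1 / 512 * (min (tau d e (t + 1) - tau d e t) v) ^ 2 := by
          rw [Finset.mul_sum]
      _ ≤ _ := Finset.sum_le_sum hlev
  -- rescaling
  set Λ : ℝ := 512 * ((28 * D) ^ 2 * (T + 1) + 4 * L ^ 2) with hΛ
  have hΛ0 : 0 ≤ Λ := by positivity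
  obtain ⟨H', i1, i2, f, hf⟩ := hqHD.smul hΛ0
  refine ⟨H', i1, i2, f, fun x y => ?_⟩
  have hρ0 : 0 ≤ dist x y := dist_nonneg
  have hlow : (∃ i, x ∈ A i) → dist x y ^ 2 ≤ ‖f x - f y‖ ^ 2 := by
    intro hx0
    rw [hf]
    refine le_trans ?_ (mul_le_mul_of_nonneg_left (hlo x y hx0) hΛ0)
    have e1 : Λ * (1 / 512 * min ((dist x y / (28 * D)) ^ 2 / (T + 1)) ((dist x y / (2 * L)) ^ 2)) =
        ((28 * D) ^ 2 * (T + 1) + 4 * L ^ 2) *
          min ((dist x y / (28 * D)) ^ 2 / (T + 1)) ((dist x y / (2 * L)) ^ 2) := by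
      rw [hΛ]; ring
    rw [e1]
    rcases min_choice ((dist x y / (28 * D)) ^ 2 / ((T : ℝ) + 1)) ((dist x y / (2 * L)) ^ 2) with h1 | h1
    · rw [h1]
      have e2 : (28 * D) ^ 2 * ((T : ℝ) + 1) * ((dist x y / (28 * D)) ^ 2 / (T + 1)) = dist x y ^ 2 := by
        field_simp
      have e3 : 0 ≤ 4 * L ^ 2 * ((dist x y / (28 * D)) ^ 2 / (T + 1)) := by positivity
      linarith
    · rw [h1]
      have e2 : 4 * L ^ 2 * (dist x y / (2 * L)) ^ 2 = dist x y ^ 2 := by
        field_simp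
        ring
      have e3 : 0 ≤ (28 * D) ^ 2 * ((T : ℝ) + 1) * (dist x y / (2 * L)) ^ 2 := by positivity
      linarith
  have hupp : ‖f x - f y‖ ^ 2 ≤ Λ * (42 * ((T : ℝ) + 1)) * dist x y ^ 2 := by
    rw [hf]
    refine (mul_le_mul_of_nonneg_left (hup x y) hΛ0).trans (le_of_eq ?_)
    ring
  constructor
  · exact fun hx0 => le_of_sq_le_sq (hlow hx0) (norm_nonneg _)
  · exact hupp

/-- Finite spaces with `k` pieces which need not cover the space. -/
theorem nag_part_embed {X : Type} [Fintype X] [MetricSpace X] {k : ℕ} (c : ℝ) (hc : 1 ≤ c)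
    (m : ℕ) (hm : 1 ≤ m)
    (A : Fin k → Set X) (hne : ∀ i, (A i).Nonempty) (hk : 1 ≤ k)
    (hP : ∀ i, Cov (A i) c m) {H : Type*} [NormedAddCommGroup H] [InnerProductSpace ℝ H]
    (D : ℝ) (hD : 1 ≤ D) (g : Fin k → X → H)
    (hg : ∀ i, ∀ x ∈ A i, ∀ y ∈ A i, dist x y ≤ ‖g i x - g i y‖ ∧
      ‖g i x - g i y‖ ≤ D * dist x y) :
    ∃ (H' : Type) (_ : NormedAddCommGroup H') (_ : InnerProductSpace ℝ H') (f : X → H'),
      ∀ x y, ((∃ i, x ∈ A i) → dist x y ≤ ‖f x - f y‖) ∧
        ‖f x - f y‖ ≤ D * c * (360000 * (1 + Real.log k) +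
          1100000 * √((1 + Real.log m) * (1 + Real.log k))) * dist x y := by
  classical
  by_cases hX : IsEmpty X
  · exact ⟨ℝ, inferInstance, inferInstance, fun _ => 0, fun x => (hX.false x).elim⟩
  rw [not_isEmpty_iff] at hX
  obtain ⟨x0⟩ := hX
  have hD0 : 0 < D := by linarith
  have hc0 : 0 < c := by linarith
  -- reduction to a finite dimensional space
  let S : Finset H := Finset.univ.image fun p : Fin k × X => g p.1 p.2
  let V : Submodule ℝ H := Submodule.span ℝ (S : Set H)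
  have : FiniteDimensional ℝ V := FiniteDimensional.span_finset ℝ S
  let b := stdOrthonormalBasis ℝ V
  have hV : ∀ i x, g i x ∈ V := fun i x =>
    Submodule.subset_span (Finset.mem_coe.2 (Finset.mem_image.2 ⟨(i, x), Finset.mem_univ _, rfl⟩))
  let g' : Fin k → X → EuclideanSpace ℝ (Fin (Module.finrank ℝ V)) := fun i x =>
    b.repr ⟨g i x, hV i x⟩
  have hg' : ∀ i x y, ‖g' i x - g' i y‖ = ‖g i x - g i y‖ := by
    intro i x y
    simp only [g']
    rw [← map_sub, LinearIsometryEquiv.norm_map]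
    rfl
  choose F hF1 hF2 using fun i => nag_ext (A i) (hne i) c hc m hm (hP i) D hD (g' i)
    (fun x hx y hy => by rw [hg']; exact (hg i x hx y hy).2)
  have hlog : 0 ≤ Real.log m := Real.log_natCast_nonneg m
  obtain ⟨H', i1, i2, f, hf⟩ := part_embed_of_ext A hne hk g' (58 * c * D) (by nlinarith)
    (fun i x hx y hy => by rw [hg']; exact (hg i x hx y hy).1)
    (D * (3016 * c * √(1 + Real.log m))) (by positivity) F hF1 hF2
  refine ⟨H', i1, i2, f, fun x y => ⟨(hf x y).1, ?_⟩⟩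
  have hρ0 : 0 ≤ dist x y := dist_nonneg
  set l := 1 + Real.log k with hl
  have hl1 : 1 ≤ l := by
    have : 0 ≤ Real.log k := Real.log_nonneg (by exact_mod_cast hk)
    linarith
  set μ := 1 + Real.log m with hμ
  have hμ1 : 1 ≤ μ := by linarith
  have hT1 : ((Nat.log 2 k : ℕ) : ℝ) + 1 ≤ 3 / 2 * l := log2_le k hk
  have hT0 : (0 : ℝ) ≤ ((Nat.log 2 k : ℕ) : ℝ) + 1 := by positivity
  have hs0 : 0 ≤ √(μ * l) := Real.sqrt_nonneg _
  have hs2 : √(μ * l) ^ 2 = μ * l := Real.sq_sqrt (by positivity)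
  have hK2 : √μ ^ 2 = μ := Real.sq_sqrt (by positivity)
  refine le_of_sq_le_sq ?_ (by positivity)
  refine (hf x y).2.trans ?_
  have h1 : 512 * ((28 * (58 * c * D)) ^ 2 * (((Nat.log 2 k : ℕ) : ℝ) + 1) +
      4 * (D * (3016 * c * √μ)) ^ 2) ≤
      (D * c) ^ 2 * (512 * (1624 ^ 2 * (3 / 2 * l) + 4 * (3016 ^ 2 * μ))) := by
    have e1 : 512 * ((28 * (58 * c * D)) ^ 2 * (((Nat.log 2 k : ℕ) : ℝ) + 1) +
      4 * (D * (3016 * c * √μ)) ^ 2) =
      (D * c) ^ 2 * (512 * (1624 ^ 2 * (((Nat.log 2 k : ℕ) : ℝ) + 1) +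
        4 * (3016 ^ 2 * √μ ^ 2))) := by
      ring
    rw [e1, hK2]
    apply mul_le_mul_of_nonneg_left _ (by positivity)
    gcongr
  have h2 : 42 * (((Nat.log 2 k : ℕ) : ℝ) + 1) ≤ 63 * l := by linarith
  have h3 : 512 * ((28 * (58 * c * D)) ^ 2 * (((Nat.log 2 k : ℕ) : ℝ) + 1) +
      4 * (D * (3016 * c * √μ)) ^ 2) * (42 * (((Nat.log 2 k : ℕ) : ℝ) + 1)) ≤
      (D * c) ^ 2 * (512 * (1624 ^ 2 * (3 / 2 * l) + 4 * (3016 ^ 2 * μ))) * (63 * l) :=
    mul_le_mul h1 h2 (by positivity) (by positivity)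
  have h4 : 512 * (1624 ^ 2 * (3 / 2 * l) + 4 * (3016 ^ 2 * μ)) * (63 * l) ≤
      (360000 * l + 1100000 * √(μ * l)) ^ 2 := by
    have e1 : (360000 * l + 1100000 * √(μ * l)) ^ 2 =
        129600000000 * l ^ 2 + 792000000000 * (l * √(μ * l)) +
          1210000000000 * √(μ * l) ^ 2 := by
      ring
    rw [e1, hs2]
    have e2 : 0 ≤ l * √(μ * l) := by positivity
    have e3 : 0 ≤ μ * l := by positivity
    have e5 : 512 * (1624 ^ 2 * (3 / 2 * l) + 4 * (3016 ^ 2 * μ)) * (63 * l) =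
        127606800384 * l ^ 2 + 1173635334144 * (μ * l) := by ring
    rw [e5]
    nlinarith [sq_nonneg l]
  calc _ ≤ (D * c) ^ 2 * (512 * (1624 ^ 2 * (3 / 2 * l) + 4 * (3016 ^ 2 * μ))) * (63 * l) *
        dist x y ^ 2 := mul_le_mul_of_nonneg_right h3 (by positivity)
    _ = (D * c) ^ 2 * (512 * (1624 ^ 2 * (3 / 2 * l) + 4 * (3016 ^ 2 * μ)) * (63 * l)) *
        dist x y ^ 2 := by ring
    _ ≤ (D * c) ^ 2 * (360000 * l + 1100000 * √(μ * l)) ^ 2 * dist x y ^ 2 :=
        mul_le_mul_of_nonneg_right (mul_le_mul_of_nonneg_left h4 (by positivity)) (by positivity)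
    _ = (D * c * (360000 * l + 1100000 * √(μ * l)) * dist x y) ^ 2 := by ring


end Pool.Agent.H98U
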