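import Pool.Agent.H98U.JL

/-!
Doubling subsets: packing numbers, single scale extension, gluing of scales.
-/

open Finset

namespace Pool.Agent.H98U

/-- packing form of the doubling condition for a subset -/
def Pack {X : Type*} [MetricSpace X] (A : Set X) (lam : ℕ) : Prop :=
  ∀ (j : ℕ) (p : X) (r : ℝ), p ∈ A → 0 < r → ∀ S : Finset X, (∀ q ∈ S, q ∈ A) →
    (∀ q ∈ S, dist q p ≤ 2 ^ j * (r / 2)) → (∀ q ∈ S, ∀ q' ∈ S, q ≠ q' → r < dist q q') →
    S.card ≤ lam ^ j

lemma pack_of_doubling {X : Type*} [MetricSpace X] (A : Set X) (lam : ℕ)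
    (h : ∀ (p : A) (r : ℝ), 0 < r → ∃ T : Finset A, T.card ≤ lam ∧
      ∀ q : A, dist q p ≤ 2 * r → ∃ t ∈ T, dist q t ≤ r) : Pack A lam := by
  classical
  intro j
  induction j with
  | zero =>
    intro p r hp hr S hSA hS hsep
    rw [pow_zero, Finset.card_le_one]
    intro q hq q' hq'
    by_contra hne
    have h1 := hsep q hq q' hq' hne
    have h2 := hS q hq
    have h3 := hS q' hq'
    have h4 := dist_triangle_right q q' p
    rw [pow_zero, one_mul] at h2 h3
    linarith
  | succ j ih =>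
    intro p r hp hr S hSA hS hsep
    obtain ⟨T, hT, hcov⟩ := h ⟨p, hp⟩ (2 ^ j * (r / 2)) (by positivity)
    have h1 : S ⊆ T.biUnion fun t => S.filter fun q => dist q (t : X) ≤ 2 ^ j * (r / 2) := by
      intro q hq
      obtain ⟨t, ht, hqt⟩ := hcov ⟨q, hSA q hq⟩ (by
        have := hS q hq
        show dist q p ≤ _
        rw [pow_succ] at this
        linarith)
      rw [Finset.mem_biUnion]
      exact ⟨t, ht, Finset.mem_filter.2 ⟨hq, hqt⟩⟩
    calc S.card ≤ _ := Finset.card_le_card h1
      _ ≤ ∑ t ∈ T, (S.filter fun q => dist q (t : X) ≤ 2 ^ j * (r / 2)).card :=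
          Finset.card_biUnion_le
      _ ≤ ∑ _t ∈ T, lam ^ j := Finset.sum_le_sum fun t _ =>
          ih t r t.2 hr _ (fun q hq => hSA q (Finset.mem_filter.1 hq).1)
            (fun q hq => (Finset.mem_filter.1 hq).2)
            (fun q hq q' hq' => hsep q (Finset.mem_filter.1 hq).1 q' (Finset.mem_filter.1 hq').1)
      _ = T.card * lam ^ j := by rw [Finset.sum_const, smul_eq_mul]
      _ ≤ lam * lam ^ j := Nat.mul_le_mul_right _ hT
      _ = lam ^ (j + 1) := by rw [pow_succ, mul_comm]

/-- nets -/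
lemma exists_net {X : Type*} [Fintype X] [MetricSpace X] (A : Set X) (r : ℝ) (hr : 0 ≤ r) :
    ∃ N : Finset X, (∀ q ∈ N, q ∈ A) ∧ (∀ q ∈ N, ∀ q' ∈ N, q ≠ q' → r < dist q q') ∧
      ∀ a ∈ A, ∃ p ∈ N, dist a p ≤ r := by
  classical
  set 𝒮 : Finset (Finset X) := Finset.univ.filter fun N =>
    (∀ q ∈ N, q ∈ A) ∧ (∀ q ∈ N, ∀ q' ∈ N, q ≠ q' → r < dist q q') with h𝒮
  have hne : 𝒮.Nonempty := ⟨∅, by rw [h𝒮, Finset.mem_filter]; simp⟩
  obtain ⟨N, hN, hmax⟩ := Finset.exists_max_image 𝒮 Finset.card hne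
  rw [h𝒮, Finset.mem_filter] at hN
  refine ⟨N, hN.2.1, hN.2.2, fun a ha => ?_⟩
  by_contra hcon
  push Not at hcon
  have haN : a ∉ N := by
    intro h
    have h1 := hcon a h
    rw [dist_self] at h1
    linarith
  have h1 : insert a N ∈ 𝒮 := by
    rw [h𝒮, Finset.mem_filter]
    refine ⟨Finset.mem_univ _, fun q hq => ?_, fun q hq q' hq' hne => ?_⟩
    · rcases Finset.mem_insert.1 hq with rfl | h
      · exact ha
      · exact hN.2.1 q h
    · rcases Finset.mem_insert.1 hq with rfl | h
      · rcases Finset.mem_insert.1 hq' with rfl | h'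
        · exact absurd rfl hne
        · exact hcon q' h'
      · rcases Finset.mem_insert.1 hq' with rfl | h'
        · rw [dist_comm]; exact hcon q h
        · exact hN.2.2 q h q' h' hne
  have h2 := hmax _ h1
  rw [Finset.card_insert_of_notMem haN] at h2
  omega

/-- gluing of scales -/
theorem glue {X : Type*} [Fintype X] [MetricSpace X] {H : Type*} [NormedAddCommGroup H]
    [NormedSpace ℝ H] (A : Set X) (hA : A.Nonempty) (g : X → H) (C L : ℝ) (hC : 1 ≤ C)
    (hL : 0 ≤ L) (F : ℤ → X → H)
    (h1 : ∀ m x, Metric.infDist x A ≤ 4 * 2 ^ m → ∀ a ∈ A, ‖F m x - g a‖ ≤ C * (2 ^ m + dist x a))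
    (h2 : ∀ m x y, Metric.infDist x A ≤ 4 * 2 ^ m → Metric.infDist y A ≤ 4 * 2 ^ m →
      ‖F m x - F m y‖ ≤ L * dist x y)
    (hg : ∀ a ∈ A, ∀ b ∈ A, ‖g a - g b‖ ≤ dist a b) :
    ∃ G : X → H, (∀ x y, ‖G x - G y‖ ≤ (L + 15 * C) * dist x y) ∧
      ∀ x, ∀ a ∈ A, ‖G x - g a‖ ≤ 3 * C * dist x a := by
  classical
  set t : X → ℝ := fun x => Metric.infDist x A with ht
  have ht0 : ∀ x, 0 ≤ t x := fun x => Metric.infDist_nonneg
  have htd : ∀ x, ∀ a ∈ A, t x ≤ dist x a := fun x a ha => Metric.infDist_le_dist_of_mem ha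
  have htl : ∀ x y, t x ≤ t y + dist x y := fun x y => Metric.infDist_le_infDist_add_dist
  have hnear : ∀ x, ∃ a ∈ A, t x = dist x a := fun x =>
    (Set.toFinite A).isCompact.exists_infDist_eq_dist hA x
  set m : X → ℤ := fun x => Int.log 2 (t x) with hm
  have hm1 : ∀ x, 0 < t x → (2 : ℝ) ^ m x ≤ t x := fun x hx => by
    have := Int.zpow_log_le_self (R := ℝ) (b := 2) (by norm_num) hx
    simpa using this
  have hm2 : ∀ x, t x < (2 : ℝ) ^ (m x + 1) := fun x => by
    have := Int.lt_zpow_succ_log_self (R := ℝ) (b := 2) (by norm_num) (t x)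
    simpa using this
  have hz : ∀ n : ℤ, (0 : ℝ) < 2 ^ n := fun n => by positivity
  have hz1 : ∀ n : ℤ, (2 : ℝ) ^ (n + 1) = 2 * 2 ^ n := fun n => by
    rw [zpow_add₀ (by norm_num), zpow_one]; ring
  set τ : X → ℝ := fun x => (t x - 2 ^ m x) / 2 ^ m x with hτ
  set G : X → H := fun x => if x ∈ A then g x else (1 - τ x) • F (m x) x + τ x • F (m x + 1) x
    with hG
  have htpos : ∀ x, x ∉ A → 0 < t x := by
    intro x hx
    obtain ⟨a, ha, hxa⟩ := hnear x
    rw [hxa]
    exact dist_pos.2 fun h => hx (h ▸ ha)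
  have hτ01 : ∀ x, x ∉ A → 0 ≤ τ x ∧ τ x ≤ 1 := by
    intro x hx
    have h3 := hm1 x (htpos x hx)
    have h4 := hm2 x
    rw [hz1] at h4
    have h5 := hz (m x)
    constructor
    · exact div_nonneg (by linarith) h5.le
    · rw [hτ]; simp only; rw [div_le_one h5]; linarith
  have hGdef : ∀ x, x ∉ A → G x = (1 - τ x) • F (m x) x + τ x • F (m x + 1) x := fun x hx => by
    rw [hG]; simp only [if_neg hx]
  -- accuracy
  have hacc : ∀ x, ∀ a ∈ A, ‖G x - g a‖ ≤ 3 * C * dist x a := by
    intro x a ha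
    by_cases hx : x ∈ A
    · have : G x = g x := by rw [hG]; simp only [if_pos hx]
      rw [this]
      refine (hg x hx a ha).trans ?_
      nlinarith [dist_nonneg (x := x) (y := a)]
    · have e1 : G x - g a = (1 - τ x) • (F (m x) x - g a) + τ x • (F (m x + 1) x - g a) := by
        rw [hGdef x hx]; module
      obtain ⟨h01, h11⟩ := hτ01 x hx
      have h3 := hm1 x (htpos x hx)
      have h4 := hm2 x
      have h5 := htd x a ha
      rw [hz1] at h4
      have b1 := h1 (m x) x (by show t x ≤ _; linarith [hz (m x)]) a ha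
      have b2 := h1 (m x + 1) x (by show t x ≤ _; rw [hz1]; linarith [hz (m x)]) a ha
      rw [hz1] at b2
      have b3 : ‖F (m x) x - g a‖ ≤ 3 * C * dist x a := b1.trans (by nlinarith)
      have b4 : ‖F (m x + 1) x - g a‖ ≤ 3 * C * dist x a := b2.trans (by nlinarith)
      rw [e1]
      calc _ ≤ ‖(1 - τ x) • (F (m x) x - g a)‖ + ‖τ x • (F (m x + 1) x - g a)‖ := norm_add_le _ _
        _ = (1 - τ x) * ‖F (m x) x - g a‖ + τ x * ‖F (m x + 1) x - g a‖ := by
            rw [norm_smul, norm_smul, Real.norm_of_nonneg (by linarith), Real.norm_of_nonneg h01]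
        _ ≤ (1 - τ x) * (3 * C * dist x a) + τ x * (3 * C * dist x a) :=
            add_le_add (mul_le_mul_of_nonneg_left b3 (by linarith))
              (mul_le_mul_of_nonneg_left b4 h01)
        _ = 3 * C * dist x a := by ring
  -- consecutive scales
  have hcons : ∀ (n : ℤ) x, t x ≤ 2 * 2 ^ n → ‖F (n + 1) x - F n x‖ ≤ 7 * C * 2 ^ n := by
    intro n x hx
    obtain ⟨a, ha, hxa⟩ := hnear x
    have hn := hz n
    have b1 := h1 n x (by show t x ≤ _; linarith) a ha
    have b2 := h1 (n + 1) x (by show t x ≤ _; rw [hz1]; linarith) a ha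
    rw [hz1, ← hxa] at b2
    rw [← hxa] at b1
    have e1 : F (n + 1) x - F n x = (F (n + 1) x - g a) - (F n x - g a) := by abel
    rw [e1]
    refine (norm_sub_le _ _).trans ?_
    nlinarith
  have key : ∀ x y, t y ≤ t x → ‖G x - G y‖ ≤ (L + 15 * C) * dist x y := by
    intro x y hyx
    have hd := dist_nonneg (x := x) (y := y)
    by_cases hy : y ∈ A
    · have : G y = g y := by rw [hG]; simp only [if_pos hy]
      rw [this]
      refine (hacc x y hy).trans ?_
      nlinarith
    have hty := htpos y hy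
    have hx : x ∉ A := by
      intro hx
      have : t x = 0 := Metric.infDist_zero_of_mem hx
      linarith
    have htx := htpos x hx
    have hδ : t x - t y ≤ dist x y := by linarith [htl x y]
    by_cases hhalf : t y < t x / 2
    · obtain ⟨a, ha, hxa⟩ := hnear x
      have b1 := hacc x a ha
      have b2 := hacc y a ha
      have b3 : dist y a ≤ dist x y + t x := by
        have := dist_triangle y x a
        rw [dist_comm y x, ← hxa] at this
        exact this
      rw [← hxa] at b1
      have e1 : G x - G y = (G x - g a) - (G y - g a) := by abel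
      rw [e1]
      refine (norm_sub_le _ _).trans ?_
      have b4 : 3 * C * dist y a ≤ 3 * C * (dist x y + t x) :=
        mul_le_mul_of_nonneg_left b3 (by linarith)
      have b5 : t x ≤ 2 * dist x y := by linarith
      nlinarith
    push Not at hhalf
    obtain ⟨hx0, hx1⟩ := hτ01 x hx
    obtain ⟨hy0, hy1⟩ := hτ01 y hy
    have a1 := hm1 x htx
    have a2 := hm2 x
    have a3 := hm1 y hty
    have a4 := hm2 y
    have hmono : m y ≤ m x := by
      have : (2 : ℝ) ^ m y < 2 ^ (m x + 1) := lt_of_le_of_lt (a3.trans hyx) a2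
      have := (zpow_lt_zpow_iff_right₀ (by norm_num : (1 : ℝ) < 2)).1 this
      omega
    have hup : m x ≤ m y + 1 := by
      have : (2 : ℝ) ^ m x < 2 ^ (m y + 1 + 1) := by
        rw [hz1]
        exact lt_of_le_of_lt a1 (by linarith)
      have := (zpow_lt_zpow_iff_right₀ (by norm_num : (1 : ℝ) < 2)).1 this
      omega
    rw [hz1] at a2 a4
    have hpm := hz (m y)
    rcases (by omega : m x = m y ∨ m x = m y + 1) with he | he
    · -- same scale
      rw [hGdef x hx, hGdef y hy]
      have e1 : (1 - τ x) • F (m x) x + τ x • F (m x + 1) x -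
          ((1 - τ y) • F (m y) y + τ y • F (m y + 1) y) =
          (1 - τ x) • (F (m y) x - F (m y) y) + τ x • (F (m y + 1) x - F (m y + 1) y) +
            (τ x - τ y) • (F (m y + 1) y - F (m y) y) := by
        rw [he]; module
      rw [e1]
      rw [he] at a2
      have c1 := h2 (m y) x y (by show t x ≤ _; linarith) (by show t y ≤ _; linarith)
      have c2 := h2 (m y + 1) x y (by show t x ≤ _; rw [hz1]; linarith)
        (by show t y ≤ _; rw [hz1]; linarith)
      have c3 := hcons (m y) y (by linarith)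
      have c4 : |τ x - τ y| = (t x - t y) / 2 ^ m y := by
        rw [hτ]; simp only; rw [he, ← sub_div, abs_of_nonneg (div_nonneg (by linarith) hpm.le)]
        congr 1; ring
      calc _ ≤ ‖(1 - τ x) • (F (m y) x - F (m y) y)‖ + ‖τ x • (F (m y + 1) x - F (m y + 1) y)‖ +
            ‖(τ x - τ y) • (F (m y + 1) y - F (m y) y)‖ := norm_add₃_le
        _ = (1 - τ x) * ‖F (m y) x - F (m y) y‖ + τ x * ‖F (m y + 1) x - F (m y + 1) y‖ +
            (t x - t y) / 2 ^ m y * ‖F (m y + 1) y - F (m y) y‖ := by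
            rw [norm_smul, norm_smul, norm_smul, Real.norm_of_nonneg (by linarith),
              Real.norm_of_nonneg hx0, Real.norm_eq_abs, c4]
        _ ≤ (1 - τ x) * (L * dist x y) + τ x * (L * dist x y) +
            (t x - t y) / 2 ^ m y * (7 * C * 2 ^ m y) := by
            refine add_le_add (add_le_add (mul_le_mul_of_nonneg_left c1 (by linarith))
              (mul_le_mul_of_nonneg_left c2 hx0)) (mul_le_mul_of_nonneg_left c3 ?_)
            exact div_nonneg (by linarith) hpm.le
        _ = L * dist x y + 7 * C * (t x - t y) := by field_simp; ring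
        _ ≤ (L + 15 * C) * dist x y := by nlinarith
    · -- neighbouring scales
      have e2 : t x ≤ 4 * 2 ^ m y := by linarith
      have e3 : 2 * 2 ^ m y ≤ t x := by rw [he, hz1] at a1; exact a1
      have d1 : ‖G x - F (m y + 1) x‖ ≤ 7 * C * (t x - 2 * 2 ^ m y) := by
        have f1 : G x - F (m y + 1) x = τ x • (F (m y + 1 + 1) x - F (m y + 1) x) := by
          rw [hGdef x hx, he]; module
        have f2 : τ x = (t x - 2 * 2 ^ m y) / (2 * 2 ^ m y) := by
          rw [hτ]; simp only; rw [he, hz1]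
        rw [f1, norm_smul, Real.norm_of_nonneg hx0, f2]
        have f3 := hcons (m y + 1) x (by rw [hz1]; linarith)
        rw [hz1] at f3
        calc _ ≤ (t x - 2 * 2 ^ m y) / (2 * 2 ^ m y) * (7 * C * (2 * 2 ^ m y)) :=
              mul_le_mul_of_nonneg_left f3 (div_nonneg (by linarith) (by positivity))
          _ = 7 * C * (t x - 2 * 2 ^ m y) := by field_simp
      have d2 := h2 (m y + 1) x y (by show t x ≤ _; rw [hz1]; linarith)
        (by show t y ≤ _; rw [hz1]; linarith)
      have d3 : ‖F (m y + 1) y - G y‖ ≤ 7 * C * (2 * 2 ^ m y - t y) := by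
        have f1 : F (m y + 1) y - G y = (1 - τ y) • (F (m y + 1) y - F (m y) y) := by
          rw [hGdef y hy]; module
        have f2 : 1 - τ y = (2 * 2 ^ m y - t y) / 2 ^ m y := by
          rw [hτ]; simp only; field_simp; ring
        rw [f1, norm_smul, Real.norm_of_nonneg (by linarith), f2]
        have f3 := hcons (m y) y (by linarith)
        calc _ ≤ (2 * 2 ^ m y - t y) / 2 ^ m y * (7 * C * 2 ^ m y) :=
              mul_le_mul_of_nonneg_left f3 (div_nonneg (by linarith) hpm.le)
          _ = 7 * C * (2 * 2 ^ m y - t y) := by field_simp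
      have e4 : G x - G y = (G x - F (m y + 1) x) + (F (m y + 1) x - F (m y + 1) y) +
          (F (m y + 1) y - G y) := by abel
      rw [e4]
      refine norm_add₃_le.trans ?_
      nlinarith
  refine ⟨G, fun x y => ?_, hacc⟩
  rcases le_total (t y) (t x) with h | h
  · exact key x y h
  · rw [norm_sub_rev, dist_comm]; exact key y x h

end Pool.Agent.H98U
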