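import Pool.Agent.H98U.Scale

/-!
Sign averaged selection among at most `m` active vectors.
-/

open Finset

namespace Pool.Agent.H98U

/-- Sign averaged selection. -/
theorem sel {E : Type*} [NormedAddCommGroup E] [NormedSpace ℝ E] {ι : Type*} [Fintype ι]
    [Nonempty ι] {n : ℕ} (p : ι → EuclideanSpace ℝ (Fin n)) (zz : ι → E → ℝ) (t : E → ℝ) (r : ℝ) (hr : 0 < r)
    (m : ℕ) (hm : 1 ≤ m) (M : ℝ) (hM0 : 0 < M)
    (hz : ∀ u x y, |zz u x - zz u y| ≤ ‖x - y‖) (ht : ∀ x y, t x ≤ t y + ‖x - y‖)
    (h0 : ∀ x, t x ≤ 5 * r → ∃ u, zz u x ≤ 5 * r)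
    (hc : ∀ x, t x ≤ 5 * r → ∀ S : Finset ι, (∀ u ∈ S, zz u x < 8 * r) → S.card ≤ m)
    (hM : ∀ x, t x ≤ 5 * r → ∀ u u', zz u x < 8 * r → zz u' x < 8 * r → ‖p u - p u'‖ ≤ M) :
    ∃ F : E → EuclideanSpace ℝ (Fin n),
      (∀ x, t x ≤ 5 * r → ∀ u, zz u x < 8 * r → ‖F x - p u‖ ≤ 2 * M) ∧
      ∀ x y, t x ≤ 4 * r → ‖x - y‖ ≤ r →
        ‖F x - F y‖ ≤ 15 * √(1 + Real.log m) * (M / r) * ‖x - y‖ := by
  classical
  have hN0 : (0 : ℝ) < 2 ^ n := by positivity
  have hcard : ((Finset.univ : Finset (Fin n → Bool)).card : ℝ) = 2 ^ n := by simp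
  have hlog : 0 ≤ Real.log m := Real.log_natCast_nonneg m
  have hmp : (0 : ℝ) < m := by exact_mod_cast hm
  have hsm : 0 < √(1 + Real.log m) := Real.sqrt_pos.2 (by positivity)
  set K : ℝ := 3 * √(1 + Real.log m) * (M / r) with hK
  have hK0 : 0 < K := by positivity
  have hK2 : (K * r) ^ 2 = 9 * (1 + Real.log m) * M ^ 2 := by
    have h1 : √(1 + Real.log m) ^ 2 = 1 + Real.log m := Real.sq_sqrt (by positivity)
    have h2 : K * r = 3 * √(1 + Real.log m) * M := by rw [hK]; field_simp
    rw [h2, mul_pow, mul_pow, h1]; ring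
  -- active indices
  set act : E → Finset ι := fun x => Finset.univ.filter fun u => zz u x < 8 * r with hact
  have hmem : ∀ x u, u ∈ act x ↔ zz u x < 8 * r := fun x u => by simp [hact]
  set yy : ι → E → ℝ := fun u x => (8 * r - zz u x) / r with hyy
  have hyp : ∀ x u, u ∈ act x → 0 < yy u x := fun x u hu => by
    have := (hmem x u).1 hu
    rw [hyy]; exact div_pos (by linarith) hr
  set pen : ι → E → ℝ := fun u x => K * r / yy u x with hpen
  have hmin : ∀ (θ : Fin n → Bool) (x : E), ∃ b : ι, t x ≤ 5 * r → b ∈ act x ∧ ∀ c ∈ act x,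
      pr θ (p b) + pen b x ≤ pr θ (p c) + pen c x := by
    intro θ x
    by_cases hx : t x ≤ 5 * r
    · obtain ⟨u, hu⟩ := h0 x hx
      obtain ⟨b, hb, hb2⟩ := Finset.exists_min_image (act x) (fun b => pr θ (p b) + pen b x)
        ⟨u, (hmem x u).2 (by linarith)⟩
      exact ⟨b, fun _ => ⟨hb, hb2⟩⟩
    · exact ⟨Classical.arbitrary ι, fun h => absurd h hx⟩
  choose b hbb using hmin
  set U : E → (Fin n → Bool) → ℝ := fun x θ => pr θ (p (b θ x)) + pen (b θ x) x with hU
  -- fourth negative moment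
  have hT : ∀ x, t x ≤ 5 * r → ∑ θ, (1 / yy (b θ x) x) ^ 4 ≤ 2 ^ n * 3 := by
    intro x hx
    obtain ⟨u0, hu0⟩ := h0 x hx
    have hu0a : u0 ∈ act x := (hmem x u0).2 (by linarith)
    have hy0 : 3 ≤ yy u0 x := by
      rw [hyy]; simp only; rw [le_div_iff₀ hr]; linarith
    have hp0 : pen u0 x ≤ K * r / 3 := by
      rw [hpen]; simp only
      exact div_le_div_of_nonneg_left (by positivity) (by norm_num) hy0
    set A' := (act x).filter fun u => yy u x < 1 with hA'
    -- Chernoff parameter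
    set τ : ι → ℝ := fun u => 2 / 3 * (K * r / yy u x) / M ^ 2 with hτ
    have h1 : ∀ θ, (1 / yy (b θ x) x) ^ 4 ≤ 1 + ∑ u ∈ A', (1 / yy u x) ^ 4 *
        (Real.exp (τ u * pr θ (p u0 - p u)) * Real.exp (-(τ u * (pen u x - pen u0 x)))) := by
      intro θ
      have hb1 := (hbb θ x hx).1
      have hyb := hyp x _ hb1
      by_cases hcase : yy (b θ x) x < 1
      · have hmemA : b θ x ∈ A' := Finset.mem_filter.2 ⟨hb1, hcase⟩
        have hτ0 : 0 ≤ τ (b θ x) := by rw [hτ]; positivity
        have h2 : (1 / yy (b θ x) x) ^ 4 ≤ (1 / yy (b θ x) x) ^ 4 *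
            (Real.exp (τ (b θ x) * pr θ (p u0 - p (b θ x))) *
              Real.exp (-(τ (b θ x) * (pen (b θ x) x - pen u0 x)))) := by
          rw [← Real.exp_add]
          apply le_mul_of_one_le_right (by positivity)
          apply Real.one_le_exp
          have h3 := (hbb θ x hx).2 u0 hu0a
          rw [pr_sub]
          have : 0 ≤ τ (b θ x) * ((pr θ (p u0) + pen u0 x) -
              (pr θ (p (b θ x)) + pen (b θ x) x)) := mul_nonneg hτ0 (by linarith)
          linarith
        have h4 := Finset.single_le_sum (f := fun u => (1 / yy u x) ^ 4 *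
          (Real.exp (τ u * pr θ (p u0 - p u)) * Real.exp (-(τ u * (pen u x - pen u0 x)))))
          (fun u _ => by positivity) hmemA
        linarith
      · push Not at hcase
        have h3 : (1 / yy (b θ x) x) ^ 4 ≤ 1 := by
          apply pow_le_one₀ (by positivity)
          rw [div_le_one hyb]; exact hcase
        have h4 : 0 ≤ ∑ u ∈ A', (1 / yy u x) ^ 4 *
            (Real.exp (τ u * pr θ (p u0 - p u)) * Real.exp (-(τ u * (pen u x - pen u0 x)))) :=
          Finset.sum_nonneg fun u _ => by positivity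
        linarith
    have h2 : ∀ u ∈ A', ∑ θ : Fin n → Bool, (1 / yy u x) ^ 4 *
        (Real.exp (τ u * pr θ (p u0 - p u)) * Real.exp (-(τ u * (pen u x - pen u0 x)))) ≤
        (2 : ℝ) ^ n * (2 * (1 / (m : ℝ))) := by
      intro u hu
      rw [hA', Finset.mem_filter] at hu
      have hyu := hyp x u hu.1
      set w := 1 / yy u x with hw
      have hw1 : 1 ≤ w := by rw [hw, le_div_iff₀ hyu]; linarith [hu.2]
      have hpu : pen u x = K * r * w := by rw [hpen, hw]; simp only; ring
      have hτu : τ u = 2 / 3 * (K * r * w) / M ^ 2 := by rw [hτ, hw]; simp only; ring_nf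
      have hnorm : ‖p u0 - p u‖ ≤ M := hM x hx u0 u ((hmem x u0).1 hu0a) ((hmem x u).1 hu.1)
      have hm' := mgf_lin (p u0 - p u) (τ u)
      rw [div_le_iff₀ hN0] at hm'
      have e1 : ∑ θ : Fin n → Bool, w ^ 4 *
          (Real.exp (τ u * pr θ (p u0 - p u)) * Real.exp (-(τ u * (pen u x - pen u0 x)))) =
          w ^ 4 * Real.exp (-(τ u * (pen u x - pen u0 x))) *
            ∑ θ : Fin n → Bool, Real.exp (τ u * pr θ (p u0 - p u)) := by
        rw [Finset.mul_sum]
        exact Finset.sum_congr rfl fun θ _ => by ring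
      rw [e1]
      have hτ0 : 0 ≤ τ u := by rw [hτu]; positivity
      have hexp : -(τ u * (pen u x - pen u0 x)) + τ u ^ 2 * ‖p u0 - p u‖ ^ 2 / 2 ≤
          -(2 * (1 + Real.log m) * w ^ 2) := by
        have f1 : τ u * (2 / 3 * (K * r * w)) ≤ τ u * (pen u x - pen u0 x) := by
          apply mul_le_mul_of_nonneg_left _ hτ0
          rw [hpu]
          have : K * r / 3 ≤ K * r * w / 3 := by
            have : 0 < K * r := by positivity
            nlinarith
          linarith
        have f3 : τ u ^ 2 * ‖p u0 - p u‖ ^ 2 ≤ τ u ^ 2 * M ^ 2 :=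
          mul_le_mul_of_nonneg_left (pow_le_pow_left₀ (norm_nonneg _) hnorm 2) (by positivity)
        have f4 : τ u ^ 2 * M ^ 2 = τ u * (2 / 3 * (K * r * w)) := by
          rw [hτu]; field_simp
        have f5 : τ u * (2 / 3 * (K * r * w)) = 4 * (1 + Real.log m) * w ^ 2 := by
          have : τ u * (2 / 3 * (K * r * w)) = 4 / 9 * ((K * r) ^ 2 * w ^ 2) / M ^ 2 := by
            rw [hτu]; ring
          rw [this, hK2]; field_simp
        linarith
      have hw4 : w ^ 4 ≤ 2 * Real.exp (w ^ 2) := by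
        have := Real.quadratic_le_exp_of_nonneg (sq_nonneg w)
        nlinarith [sq_nonneg w]
      calc w ^ 4 * Real.exp (-(τ u * (pen u x - pen u0 x))) *
            ∑ θ : Fin n → Bool, Real.exp (τ u * pr θ (p u0 - p u))
          ≤ w ^ 4 * Real.exp (-(τ u * (pen u x - pen u0 x))) *
            (Real.exp (τ u ^ 2 * ‖p u0 - p u‖ ^ 2 / 2) * 2 ^ n) :=
            mul_le_mul_of_nonneg_left hm' (by positivity)
        _ = 2 ^ n * (w ^ 4 * Real.exp (-(τ u * (pen u x - pen u0 x)) +
              τ u ^ 2 * ‖p u0 - p u‖ ^ 2 / 2)) := by rw [Real.exp_add]; ring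
        _ ≤ 2 ^ n * (2 * Real.exp (w ^ 2) * Real.exp (-(2 * (1 + Real.log m) * w ^ 2))) := by
            apply mul_le_mul_of_nonneg_left _ hN0.le
            exact mul_le_mul hw4 (Real.exp_le_exp.2 hexp) (Real.exp_pos _).le (by positivity)
        _ = 2 ^ n * (2 * Real.exp (w ^ 2 - 2 * (1 + Real.log m) * w ^ 2)) := by
            rw [mul_assoc 2, ← Real.exp_add]; ring_nf
        _ ≤ 2 ^ n * (2 * Real.exp (-Real.log m)) := by
            apply mul_le_mul_of_nonneg_left _ hN0.le
            apply mul_le_mul_of_nonneg_left _ (by norm_num)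
            apply Real.exp_le_exp.2
            have hw2 : 1 ≤ w ^ 2 := one_le_pow₀ hw1
            nlinarith [mul_nonneg hlog (by linarith : (0 : ℝ) ≤ w ^ 2 - 1)]
        _ = 2 ^ n * (2 * (1 / (m : ℝ))) := by
            rw [Real.exp_neg, Real.exp_log hmp, one_div]
    have h3 : (A'.card : ℝ) ≤ m := by
      have : A'.card ≤ m := hc x hx A' fun u hu =>
        (hmem x u).1 (Finset.mem_filter.1 hu).1
      exact_mod_cast this
    calc ∑ θ, (1 / yy (b θ x) x) ^ 4
        ≤ ∑ θ : Fin n → Bool, (1 + ∑ u ∈ A', (1 / yy u x) ^ 4 *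
          (Real.exp (τ u * pr θ (p u0 - p u)) * Real.exp (-(τ u * (pen u x - pen u0 x))))) :=
          Finset.sum_le_sum fun θ _ => h1 θ
      _ = 2 ^ n * 1 + ∑ u ∈ A', ∑ θ : Fin n → Bool, (1 / yy u x) ^ 4 *
          (Real.exp (τ u * pr θ (p u0 - p u)) * Real.exp (-(τ u * (pen u x - pen u0 x)))) := by
          rw [Finset.sum_add_distrib, Finset.sum_const, nsmul_eq_mul, hcard, Finset.sum_comm]
      _ ≤ 2 ^ n * 1 + ∑ _u ∈ A', 2 ^ n * (2 * (1 / (m : ℝ))) :=
          add_le_add le_rfl (Finset.sum_le_sum h2)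
      _ = 2 ^ n * 1 + 2 ^ n * (2 * (1 / (m : ℝ))) * A'.card := by
          rw [Finset.sum_const, nsmul_eq_mul]; ring
      _ ≤ 2 ^ n * 1 + 2 ^ n * (2 * (1 / (m : ℝ))) * m :=
          add_le_add le_rfl (mul_le_mul_of_nonneg_left h3 (by positivity))
      _ = 2 ^ n * 3 := by field_simp; norm_num
  -- uniform lower bound for `yy`
  set y0 : ℝ := K * r / (K * r / 3 + √n * M) with hy0
  have hKr : 0 < K * r := by positivity
  have hden : 0 < K * r / 3 + √n * M := by positivity
  have hy0p : 0 < y0 := by positivity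
  have hyb : ∀ x θ, t x ≤ 5 * r → y0 ≤ yy (b θ x) x := by
    intro x θ hx
    obtain ⟨u0, hu0⟩ := h0 x hx
    have hu0a : u0 ∈ act x := (hmem x u0).2 (by linarith)
    have hy3 : 3 ≤ yy u0 x := by
      rw [hyy]; simp only; rw [le_div_iff₀ hr]; linarith
    have hp0 : pen u0 x ≤ K * r / 3 := by
      rw [hpen]; simp only
      exact div_le_div_of_nonneg_left (by positivity) (by norm_num) hy3
    have h1 := (hbb θ x hx).2 u0 hu0a
    have h2 := pr_abs θ (p u0 - p (b θ x))
    have h3 : ‖p u0 - p (b θ x)‖ ≤ M := hM x hx u0 _ ((hmem x u0).1 hu0a)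
      ((hmem x _).1 (hbb θ x hx).1)
    rw [pr_sub] at h2
    have h4 := (abs_le.1 h2).2
    have h5 : √(n : ℝ) * ‖p u0 - p (b θ x)‖ ≤ √n * M :=
      mul_le_mul_of_nonneg_left h3 (Real.sqrt_nonneg _)
    have h6 : pen (b θ x) x ≤ K * r / 3 + √n * M := by linarith
    have hyb' := hyp x _ (hbb θ x hx).1
    rw [hpen] at h6; simp only at h6
    rw [div_le_iff₀ hyb'] at h6
    rw [hy0, div_le_iff₀ hden]
    linarith
  -- one small step
  have hstep : ∀ x y, t x ≤ 5 * r → t y ≤ 5 * r → ‖x - y‖ ≤ r * y0 / 2 →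
      ‖(WithLp.toLp 2 (cf (U x)) : EuclideanSpace ℝ (Fin n)) - WithLp.toLp 2 (cf (U y))‖ ≤
        5 * K * ‖x - y‖ := by
    intro x y hx hy hxy
    have hone : ∀ x y θ, t x ≤ 5 * r → t y ≤ 5 * r → ‖x - y‖ ≤ r * y0 / 2 →
        U x θ - U y θ ≤ 2 * K * ‖x - y‖ * (1 / yy (b θ y) y) ^ 2 := by
      intro x y θ hx hy hxy
      set u := b θ y with hu
      have hua := (hbb θ y hy).1
      have hyu := hyp y u hua
      have hyl := hyb y θ hy
      rw [← hu] at hyl
      have hzd : zz u x ≤ zz u y + ‖x - y‖ := by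
        have := (abs_le.1 (hz u x y)).2; linarith
      have hyd : yy u y - ‖x - y‖ / r ≤ yy u x := by
        rw [hyy]; simp only; rw [← sub_div]
        exact div_le_div_of_nonneg_right (by linarith) hr.le
      have hδr : ‖x - y‖ / r ≤ yy u y / 2 := by
        rw [div_le_iff₀ hr]
        have : r * y0 ≤ r * yy u y := mul_le_mul_of_nonneg_left hyl hr.le
        linarith
      have hyx : yy u y / 2 ≤ yy u x := by linarith
      have hyx0 : 0 < yy u x := by linarith
      have hux : u ∈ act x := by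
        rw [hmem]
        rw [hyy] at hyx0; simp only at hyx0
        by_contra hcon
        push Not at hcon
        have : (8 * r - zz u x) / r ≤ 0 := div_nonpos_of_nonpos_of_nonneg (by linarith) hr.le
        linarith
      have h1 := (hbb θ x hx).2 u hux
      have h2 : U x θ - U y θ ≤ pen u x - pen u y := by
        simp only [hU]; linarith
      refine h2.trans ?_
      rw [hpen]; simp only
      have e1 : K * r / yy u x - K * r / yy u y = K * r * (yy u y - yy u x) /
          (yy u x * yy u y) := by field_simp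
      rw [e1]
      have e2 : yy u y - yy u x ≤ ‖x - y‖ / r := by linarith
      have e3 : (1 / yy u y) ^ 2 = 1 / (yy u y * yy u y) := by rw [div_pow, one_pow, sq]
      rw [e3, mul_one_div, div_le_div_iff₀ (by positivity) (by positivity)]
      have e4 : K * r * (yy u y - yy u x) ≤ K * ‖x - y‖ := by
        calc K * r * (yy u y - yy u x) ≤ K * r * (‖x - y‖ / r) :=
              mul_le_mul_of_nonneg_left e2 hKr.le
          _ = K * ‖x - y‖ := by field_simp
      have e5 : 0 ≤ K * ‖x - y‖ := by positivity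
      calc K * r * (yy u y - yy u x) * (yy u y * yy u y)
          ≤ K * ‖x - y‖ * (yy u y * yy u y) := mul_le_mul_of_nonneg_right e4 (by positivity)
        _ ≤ K * ‖x - y‖ * (2 * yy u x * yy u y) := by
            apply mul_le_mul_of_nonneg_left _ e5
            nlinarith
        _ = 2 * K * ‖x - y‖ * (yy u x * yy u y) := by ring
    have h1 : ‖(WithLp.toLp 2 (cf (U x)) : EuclideanSpace ℝ (Fin n)) - WithLp.toLp 2 (cf (U y))‖ ^ 2
        ≤ (5 * K * ‖x - y‖) ^ 2 := by
      rw [norm_sq']
      have e1 : ∀ l, (WithLp.toLp 2 (cf (U x)) - WithLp.toLp 2 (cf (U y)) :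
          EuclideanSpace ℝ (Fin n)) l = cf (fun θ => U x θ - U y θ) l := by
        intro l
        rw [cf_sub]; simp
      simp only [e1]
      refine (bessel _).trans ?_
      rw [div_le_iff₀ hN0]
      have e2 : ∀ θ ∈ (Finset.univ : Finset (Fin n → Bool)), (U x θ - U y θ) ^ 2 ≤
          (2 * K * ‖x - y‖) ^ 2 * ((1 / yy (b θ x) x) ^ 4 + (1 / yy (b θ y) y) ^ 4) := by
        intro θ _
        have f1 := hone x y θ hx hy hxy
        have f2 := hone y x θ hy hx (by rw [norm_sub_rev]; exact hxy)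
        rw [norm_sub_rev y x] at f2
        set P := (1 / yy (b θ x) x) ^ 2 with hPd
        set Q := (1 / yy (b θ y) y) ^ 2 with hQd
        have hP0 : 0 ≤ P := by positivity
        have hQ0 : 0 ≤ Q := by positivity
        have hKδ : 0 ≤ 2 * K * ‖x - y‖ := by positivity
        have f5 : (1 / yy (b θ x) x) ^ 4 = P ^ 2 := by rw [hPd]; ring
        have f6 : (1 / yy (b θ y) y) ^ 4 = Q ^ 2 := by rw [hQd]; ring
        rw [f5, f6, ← sq_abs]
        rcases le_total (U x θ) (U y θ) with h | h
        · have h7 : |U x θ - U y θ| ≤ 2 * K * ‖x - y‖ * P := by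
            rw [abs_of_nonpos (by linarith)]; linarith
          calc |U x θ - U y θ| ^ 2 ≤ (2 * K * ‖x - y‖ * P) ^ 2 :=
                pow_le_pow_left₀ (abs_nonneg _) h7 2
            _ = (2 * K * ‖x - y‖) ^ 2 * P ^ 2 := by ring
            _ ≤ _ := mul_le_mul_of_nonneg_left (by nlinarith [sq_nonneg Q]) (sq_nonneg _)
        · have h7 : |U x θ - U y θ| ≤ 2 * K * ‖x - y‖ * Q := by
            rw [abs_of_nonneg (by linarith)]; linarith
          calc |U x θ - U y θ| ^ 2 ≤ (2 * K * ‖x - y‖ * Q) ^ 2 :=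
                pow_le_pow_left₀ (abs_nonneg _) h7 2
            _ = (2 * K * ‖x - y‖) ^ 2 * Q ^ 2 := by ring
            _ ≤ _ := mul_le_mul_of_nonneg_left (by nlinarith [sq_nonneg P]) (sq_nonneg _)
      refine (Finset.sum_le_sum e2).trans ?_
      rw [← Finset.mul_sum, Finset.sum_add_distrib]
      have g1 := hT x hx
      have g2 := hT y hy
      calc (2 * K * ‖x - y‖) ^ 2 * (∑ θ, (1 / yy (b θ x) x) ^ 4 + ∑ θ, (1 / yy (b θ y) y) ^ 4)
          ≤ (2 * K * ‖x - y‖) ^ 2 * (6 * 2 ^ n) :=
            mul_le_mul_of_nonneg_left (by linarith) (sq_nonneg _)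
        _ ≤ (5 * K * ‖x - y‖) ^ 2 * 2 ^ n := by
            have : 0 ≤ (K * ‖x - y‖) ^ 2 * 2 ^ n := by positivity
            nlinarith
    exact le_of_sq_le_sq h1 (by positivity)
  refine ⟨fun x => WithLp.toLp 2 (cf (U x)), ?_, ?_⟩
  · -- accuracy
    intro x hx u hu
    have h1 : ‖(WithLp.toLp 2 (cf (U x)) : EuclideanSpace ℝ (Fin n)) - p u‖ ^ 2 ≤ (2 * M) ^ 2 := by
      rw [norm_sq']
      have e1 : ∀ l, (WithLp.toLp 2 (cf (U x)) - p u : EuclideanSpace ℝ (Fin n)) l =
          cf (fun θ => U x θ - pr θ (p u)) l := by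
        intro l
        rw [cf_sub, cf_pr]; simp
      simp only [e1]
      have e2 := flip_bound (fun θ => U x θ - pr θ (p u)) (fun θ l => (p (b θ x) - p u) l)
        (fun θ l => by
          have h2 := (hbb θ x hx).2 (b (flp l θ) x) (hbb _ x hx).1
          have h3 : pr θ (p (b (flp l θ) x)) - pr θ (p u) -
              (pr (flp l θ) (p (b (flp l θ) x)) - pr (flp l θ) (p u)) =
              2 * sg (θ l) * (p (b (flp l θ) x) - p u) l := by
            rw [← pr_sub, ← pr_sub]
            generalize (p (b (flp l θ) x) - p u) = w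
            unfold pr
            rw [← Finset.sum_sub_distrib, Finset.sum_eq_single l]
            · rw [flp_same, sg_not]; ring
            · intro m _ hm
              rw [flp_ne hm]; ring
            · intro h; exact absurd (Finset.mem_univ l) h
          simp only [hU] at h2 ⊢
          linarith)
        (M ^ 2) (fun θ => by
          rw [← norm_sq']
          exact pow_le_pow_left₀ (norm_nonneg _)
            (hM x hx _ u ((hmem x _).1 (hbb θ x hx).1) hu) 2)
      refine e2.trans ?_
      nlinarith [sq_nonneg M]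
    exact le_of_sq_le_sq h1 (by positivity)
  · -- Lipschitz bound
    intro x y hx hxy
    by_cases hxy0 : x = y
    · subst hxy0; simp
    have hδ : 0 < ‖x - y‖ := norm_pos_iff.2 (sub_ne_zero.2 hxy0)
    obtain ⟨N, hN⟩ := exists_nat_gt (‖x - y‖ / (r * y0 / 2))
    have hry : 0 < r * y0 / 2 := by positivity
    have hNp : (0 : ℝ) < N := lt_trans (by positivity) hN
    have hNn : N ≠ 0 := by rintro rfl; simp at hNp
    set xs : ℕ → E := fun i => x + ((i : ℝ) / N) • (y - x) with hxs
    have hx0 : xs 0 = x := by simp [hxs]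
    have hxN : xs N = y := by
      simp only [hxs]
      rw [div_self hNp.ne', one_smul]; abel
    have hsteps : ∀ i, ‖xs i - xs (i + 1)‖ = ‖x - y‖ / N := by
      intro i
      have : xs i - xs (i + 1) = (1 / (N : ℝ)) • (x - y) := by
        simp only [hxs]
        push_cast
        rw [add_div]; module
      rw [this, norm_smul, Real.norm_of_nonneg (by positivity)]; ring
    have hti : ∀ i, i ≤ N → t (xs i) ≤ 5 * r := by
      intro i hi
      have h1 := ht (xs i) x
      have h2 : ‖xs i - x‖ ≤ ‖x - y‖ := by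
        have : xs i - x = ((i : ℝ) / N) • (y - x) := by simp only [hxs]; abel
        rw [this, norm_smul, Real.norm_of_nonneg (by positivity), norm_sub_rev y x]
        apply mul_le_of_le_one_left (norm_nonneg _)
        rw [div_le_one hNp]; exact_mod_cast hi
      linarith
    have htel : ∀ j, j ≤ N → ‖(WithLp.toLp 2 (cf (U (xs 0))) : EuclideanSpace ℝ (Fin n)) -
        WithLp.toLp 2 (cf (U (xs j)))‖ ≤ j * (5 * K * (‖x - y‖ / N)) := by
      intro j
      induction j with
      | zero => intro _; simp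
      | succ j ih =>
        intro hj
        have h1 := ih (by omega)
        have h2 := hstep (xs j) (xs (j + 1)) (hti j (by omega)) (hti (j + 1) hj) (by
          rw [hsteps, div_le_iff₀ hNp]
          rw [div_lt_iff₀ hry] at hN
          linarith)
        rw [hsteps] at h2
        have h3 := norm_sub_le_norm_sub_add_norm_sub
          (WithLp.toLp 2 (cf (U (xs 0))) : EuclideanSpace ℝ (Fin n))
          (WithLp.toLp 2 (cf (U (xs j)))) (WithLp.toLp 2 (cf (U (xs (j + 1)))))
        push_cast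
        linarith
    have h1 := htel N le_rfl
    rw [hx0, hxN] at h1
    refine h1.trans (le_of_eq ?_)
    rw [hK]; field_simp; norm_num

end Pool.Agent.H98U
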