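import Pool.Agent.H98U.Scale

/-!
Single scale extension for doubling subsets.
-/

open Finset

namespace Pool.Agent.H98U

/-- Single scale extension of a Lipschitz map of a doubling subset. -/
theorem single {X : Type} [Fintype X] [MetricSpace X] {n : ℕ} (A : Set X) (hA : A.Nonempty)
    (lam : ℕ) (hlam : 2 ≤ lam) (hP : Pack A lam) (g : X → EuclideanSpace ℝ (Fin n))
    (hg : ∀ a ∈ A, ∀ b ∈ A, ‖g a - g b‖ ≤ dist a b) (r : ℝ) (hr : 0 < r) (K : ℝ) (hK0 : 0 < K)
    (hK : K ^ 2 = 8 * (1 + Real.log lam)) :
    ∃ F : X → EuclideanSpace ℝ (Fin n),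
      (∀ x, Metric.infDist x A ≤ 4 * r → ∀ a ∈ A, ‖F x - g a‖ ≤ 65 * (r + dist x a)) ∧
      ∀ x y, Metric.infDist x A ≤ 4 * r → Metric.infDist y A ≤ 4 * r →
        ‖F x - F y‖ ≤ (129 * K + 715) * dist x y := by
  classical
  have hN0 : (0 : ℝ) < 2 ^ n := by positivity
  have hcard : ((Finset.univ : Finset (Fin n → Bool)).card : ℝ) = 2 ^ n := by simp
  have hlog : 0 ≤ Real.log lam := Real.log_natCast_nonneg lam
  have hlog2 : Real.log 2 ≤ Real.log lam :=
    Real.log_le_log (by norm_num) (by exact_mod_cast hlam)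
  have hlamp : (0 : ℝ) < lam := by
    have : 0 < lam := by omega
    exact_mod_cast this
  obtain ⟨N, hNA, hNsep, hNcov⟩ := exists_net A r hr.le
  have hnear : ∀ x, ∃ a ∈ A, Metric.infDist x A = dist x a := fun x =>
    (Set.toFinite A).isCompact.exists_infDist_eq_dist hA x
  have hNne : N.Nonempty := by
    obtain ⟨a, ha⟩ := hA
    obtain ⟨p, hp, -⟩ := hNcov a ha
    exact ⟨p, hp⟩
  set pen : X → X → ℝ := fun x p => K * (dist x p + dist x p ^ 2 / r) with hpen
  have hmin : ∀ (θ : Fin n → Bool) (x : X), ∃ b ∈ N, ∀ c ∈ N,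
      pr θ (g b) + pen x b ≤ pr θ (g c) + pen x c := fun θ x =>
    Finset.exists_min_image N (fun b => pr θ (g b) + pen x b) hNne
  choose b hbN hb using hmin
  set U : X → (Fin n → Bool) → ℝ := fun x θ => pr θ (g (b θ x)) + pen x (b θ x) with hU
  -- second moment of the distance to the minimiser
  have hT : ∀ x, Metric.infDist x A ≤ 4 * r →
      ∑ θ, dist x (b θ x) ^ 2 ≤ 2 ^ n * (1025 * r ^ 2) := by
    intro x hx
    obtain ⟨a', ha', hxa'⟩ := hnear x
    obtain ⟨a, haN, haa⟩ := hNcov a' ha'
    have hxa : dist x a ≤ 5 * r := by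
      have := dist_triangle x a' a
      linarith
    set N' := N.filter fun p => 32 * r < dist x p with hN'
    set τ : ℝ := K / (2 * r) with hτ
    have hτ0 : 0 < τ := by positivity
    have h1 : ∀ θ, dist x (b θ x) ^ 2 ≤ 1024 * r ^ 2 + ∑ p ∈ N', dist x p ^ 2 *
        (Real.exp (τ * pr θ (g a - g p)) * Real.exp (-(τ * (pen x p - pen x a)))) := by
      intro θ
      by_cases hc : 32 * r < dist x (b θ x)
      · have hmem : b θ x ∈ N' := Finset.mem_filter.2 ⟨hbN θ x, hc⟩
        have h2 : dist x (b θ x) ^ 2 ≤ dist x (b θ x) ^ 2 *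
            (Real.exp (τ * pr θ (g a - g (b θ x))) *
              Real.exp (-(τ * (pen x (b θ x) - pen x a)))) := by
          rw [← Real.exp_add]
          apply le_mul_of_one_le_right (sq_nonneg _)
          apply Real.one_le_exp
          have h3 := hb θ x a haN
          rw [pr_sub]
          have : 0 ≤ τ * ((pr θ (g a) + pen x a) - (pr θ (g (b θ x)) + pen x (b θ x))) :=
            mul_nonneg hτ0.le (by linarith)
          linarith
        have h4 := Finset.single_le_sum (f := fun p => dist x p ^ 2 *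
          (Real.exp (τ * pr θ (g a - g p)) * Real.exp (-(τ * (pen x p - pen x a)))))
          (fun p _ => by positivity) hmem
        have h5 : 0 ≤ 1024 * r ^ 2 := by positivity
        linarith
      · push Not at hc
        have h3 : dist x (b θ x) ^ 2 ≤ (32 * r) ^ 2 :=
          pow_le_pow_left₀ dist_nonneg hc 2
        have h4 : 0 ≤ ∑ p ∈ N', dist x p ^ 2 *
            (Real.exp (τ * pr θ (g a - g p)) * Real.exp (-(τ * (pen x p - pen x a)))) :=
          Finset.sum_nonneg fun p _ => by positivity
        linarith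
    have h2 : ∀ p ∈ N', ∑ θ : Fin n → Bool, dist x p ^ 2 *
        (Real.exp (τ * pr θ (g a - g p)) * Real.exp (-(τ * (pen x p - pen x a)))) ≤
        2 ^ n * (r ^ 2 * Real.exp (-((dist x p / r) ^ 2 * Real.log lam))) := by
      intro p hp
      rw [hN', Finset.mem_filter] at hp
      set u := dist x p with hu
      have hu0 : 0 < u := by
        have := hp.2; linarith
      have hga : ‖g a - g p‖ ≤ 37 / 32 * u := by
        refine (hg a (hNA a haN) p (hNA p hp.1)).trans ?_
        have := dist_triangle_left a p x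
        have := hp.2
        linarith
      have hpd : K * u ^ 2 / r ≤ pen x p - pen x a := by
        rw [hpen]; simp only
        have e1 : dist x a ^ 2 / r ≤ 25 * r := by
          rw [div_le_iff₀ hr]; nlinarith [dist_nonneg (x := x) (y := a)]
        have e2 : K * (dist x a + dist x a ^ 2 / r) ≤ K * (30 * r) :=
          mul_le_mul_of_nonneg_left (by linarith) hK0.le
        have e3 : K * (30 * r) ≤ K * u := mul_le_mul_of_nonneg_left (by linarith [hp.2]) hK0.le
        have e4 : K * (u + u ^ 2 / r) = K * u + K * u ^ 2 / r := by ring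
        rw [← hu, e4]; linarith
      have hm := mgf_lin (g a - g p) τ
      rw [div_le_iff₀ hN0] at hm
      have e1 : ∑ θ : Fin n → Bool, u ^ 2 *
          (Real.exp (τ * pr θ (g a - g p)) * Real.exp (-(τ * (pen x p - pen x a)))) =
          u ^ 2 * Real.exp (-(τ * (pen x p - pen x a))) *
            ∑ θ : Fin n → Bool, Real.exp (τ * pr θ (g a - g p)) := by
        rw [Finset.mul_sum]
        exact Finset.sum_congr rfl fun θ _ => by ring
      rw [e1]
      set z := (u / r) ^ 2 with hz
      have hz0 : 0 ≤ z := sq_nonneg _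
      have hexp : -(τ * (pen x p - pen x a)) + τ ^ 2 * ‖g a - g p‖ ^ 2 / 2 ≤ -(K ^ 2 * z / 4) := by
        have f1 : τ * (K * u ^ 2 / r) ≤ τ * (pen x p - pen x a) :=
          mul_le_mul_of_nonneg_left hpd hτ0.le
        have f2 : τ * (K * u ^ 2 / r) = K ^ 2 * z / 2 := by
          rw [hτ, hz]; field_simp
        have f3 : τ ^ 2 * ‖g a - g p‖ ^ 2 ≤ τ ^ 2 * (37 / 32 * u) ^ 2 :=
          mul_le_mul_of_nonneg_left (pow_le_pow_left₀ (norm_nonneg _) hga 2) (by positivity)
        have f4 : τ ^ 2 * (37 / 32 * u) ^ 2 = (37 / 64) ^ 2 * (K ^ 2 * z) := by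
          rw [hτ, hz]; field_simp; norm_num
        have f5 : 0 ≤ K ^ 2 * z := by positivity
        linarith
      have hz1 : u ^ 2 = r ^ 2 * z := by rw [hz]; field_simp
      have hz2 : z ≤ Real.exp z := by linarith [Real.add_one_le_exp z]
      calc u ^ 2 * Real.exp (-(τ * (pen x p - pen x a))) *
            ∑ θ : Fin n → Bool, Real.exp (τ * pr θ (g a - g p))
          ≤ u ^ 2 * Real.exp (-(τ * (pen x p - pen x a))) *
            (Real.exp (τ ^ 2 * ‖g a - g p‖ ^ 2 / 2) * 2 ^ n) :=
            mul_le_mul_of_nonneg_left hm (by positivity)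
        _ = 2 ^ n * (u ^ 2 * Real.exp (-(τ * (pen x p - pen x a)) +
              τ ^ 2 * ‖g a - g p‖ ^ 2 / 2)) := by rw [Real.exp_add]; ring
        _ ≤ 2 ^ n * (r ^ 2 * Real.exp z * Real.exp (-(K ^ 2 * z / 4))) := by
            apply mul_le_mul_of_nonneg_left _ hN0.le
            rw [hz1]
            apply mul_le_mul _ (Real.exp_le_exp.2 hexp) (Real.exp_pos _).le (by positivity)
            exact mul_le_mul_of_nonneg_left hz2 (by positivity)
        _ = 2 ^ n * (r ^ 2 * Real.exp (z - K ^ 2 * z / 4)) := by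
            rw [mul_assoc (r ^ 2), ← Real.exp_add]; ring_nf
        _ ≤ 2 ^ n * (r ^ 2 * Real.exp (-(z * Real.log lam))) := by
            apply mul_le_mul_of_nonneg_left _ hN0.le
            apply mul_le_mul_of_nonneg_left _ (by positivity)
            apply Real.exp_le_exp.2
            rw [hK]
            nlinarith [mul_nonneg hz0 hlog]
    -- shells
    have hsh : ∀ p, ∃ j : ℕ, p ∈ N' → 5 ≤ j ∧ (2 : ℝ) ^ j ≤ dist x p / r ∧
        dist x p / r < 2 ^ (j + 1) := by
      intro p
      by_cases hp : p ∈ N'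
      · have h3 : 32 < dist x p / r := by
          rw [lt_div_iff₀ hr]; exact (Finset.mem_filter.1 hp).2
        obtain ⟨j, hj1, hj2⟩ := exists_nat_pow_near (x := dist x p / r) (y := 2) (by linarith)
          (by norm_num)
        refine ⟨j, fun _ => ⟨?_, hj1, hj2⟩⟩
        by_contra hcon
        have h4 : (2 : ℝ) ^ (j + 1) ≤ 2 ^ 5 := pow_le_pow_right₀ (by norm_num) (by omega)
        norm_num at h4
        linarith
      · exact ⟨0, fun h => absurd h hp⟩
    choose jf hjf using hsh
    have h3 : ∑ p ∈ N', Real.exp (-((dist x p / r) ^ 2 * Real.log lam)) ≤ 1 := by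
      have e1 := Finset.sum_fiberwise_of_maps_to (s := N') (t := N'.image jf) (g := jf)
        (fun p hp => Finset.mem_image_of_mem jf hp)
        (fun p => Real.exp (-((dist x p / r) ^ 2 * Real.log lam)))
      rw [← e1]
      have e2 : ∀ j ∈ N'.image jf, ∑ p ∈ N'.filter (fun p => jf p = j),
          Real.exp (-((dist x p / r) ^ 2 * Real.log lam)) ≤ (1 / 2 : ℝ) ^ j * (1 / 2) := by
        intro j hj
        obtain ⟨p0, hp0, hj0⟩ := Finset.mem_image.1 hj
        have hj5 : 5 ≤ j := by rw [← hj0]; exact (hjf p0 hp0).1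
        have c1 : (N'.filter fun p => jf p = j).card ≤ lam ^ (j + 3) := by
          refine hP (j + 3) a r (hNA a haN) hr _ (fun q hq => ?_) (fun q hq => ?_)
            (fun q hq q' hq' => ?_)
          · exact hNA q (Finset.mem_filter.1 (Finset.mem_filter.1 hq).1).1
          · have hq1 := (Finset.mem_filter.1 hq).1
            have hq2 := (hjf q hq1).2.2
            rw [(Finset.mem_filter.1 hq).2, div_lt_iff₀ hr] at hq2
            have hq3 := dist_triangle_left q a x
            have hp2 : (2 : ℝ) ^ 5 ≤ 2 ^ j := pow_le_pow_right₀ (by norm_num) hj5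
            have hp3 : (2 : ℝ) ^ (j + 1) = 2 * 2 ^ j := by rw [pow_succ]; ring
            have hp4 : (2 : ℝ) ^ (j + 3) = 8 * 2 ^ j := by rw [pow_add]; ring
            rw [hp3] at hq2
            rw [hp4]
            nlinarith
          · exact hNsep q (Finset.mem_filter.1 (Finset.mem_filter.1 hq).1).1 q'
              (Finset.mem_filter.1 (Finset.mem_filter.1 hq').1).1
        have c2 : ∀ p ∈ N'.filter (fun p => jf p = j),
            Real.exp (-((dist x p / r) ^ 2 * Real.log lam)) ≤
              Real.exp (-((2 * j + 4 : ℝ) * Real.log lam)) := by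
          intro p hp
          have hp1 := (hjf p (Finset.mem_filter.1 hp).1).2.1
          rw [(Finset.mem_filter.1 hp).2] at hp1
          apply Real.exp_le_exp.2
          have d1 : (2 * j + 4 : ℝ) ≤ (dist x p / r) ^ 2 := by
            have d2 : ((2 : ℝ) ^ j) ^ 2 ≤ (dist x p / r) ^ 2 :=
              pow_le_pow_left₀ (by positivity) hp1 2
            have d3 : (j : ℝ) + 1 ≤ 2 ^ j := by
              have : j + 1 ≤ 2 ^ j := Nat.lt_two_pow_self
              exact_mod_cast this
            have d4 : (32 : ℝ) ≤ 2 ^ j := by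
              have : (2 : ℝ) ^ 5 ≤ 2 ^ j := pow_le_pow_right₀ (by norm_num) hj5
              norm_num at this; exact this
            nlinarith
          nlinarith
        calc _ ≤ ∑ _p ∈ N'.filter (fun p => jf p = j),
              Real.exp (-((2 * j + 4 : ℝ) * Real.log lam)) := Finset.sum_le_sum c2
          _ = ((N'.filter fun p => jf p = j).card : ℝ) *
              Real.exp (-((2 * j + 4 : ℝ) * Real.log lam)) := by
              rw [Finset.sum_const, nsmul_eq_mul]
          _ ≤ (lam : ℝ) ^ (j + 3) * Real.exp (-((2 * j + 4 : ℝ) * Real.log lam)) := by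
              apply mul_le_mul_of_nonneg_right _ (Real.exp_pos _).le
              exact_mod_cast c1
          _ = Real.exp ((j + 3 : ℕ) * Real.log lam) *
              Real.exp (-((2 * j + 4 : ℝ) * Real.log lam)) := by
              rw [Real.exp_nat_mul, Real.exp_log hlamp]
          _ = Real.exp (-((j + 1 : ℕ) * Real.log lam)) := by
              rw [← Real.exp_add]; congr 1; push_cast; ring
          _ ≤ Real.exp (-((j + 1 : ℕ) * Real.log 2)) := by
              apply Real.exp_le_exp.2
              have : (0 : ℝ) ≤ ((j + 1 : ℕ) : ℝ) := Nat.cast_nonneg _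
              nlinarith
          _ = (1 / 2 : ℝ) ^ j * (1 / 2) := by
              rw [← mul_neg, Real.exp_nat_mul, Real.exp_neg, Real.exp_log (by norm_num),
                pow_succ]
              norm_num
      refine (Finset.sum_le_sum e2).trans ?_
      rw [← Finset.sum_mul]
      have e3 : ∑ j ∈ N'.image jf, (1 / 2 : ℝ) ^ j ≤
          ∑ j ∈ Finset.range ((N'.image jf).sup id + 1), (1 / 2 : ℝ) ^ j := by
        refine Finset.sum_le_sum_of_subset_of_nonneg (fun j hj => ?_)
          (fun j _ _ => by positivity)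
        rw [Finset.mem_range]
        have := Finset.le_sup (f := id) hj
        simp only [id] at this
        omega
      have e4 := sum_geometric_two_le ((N'.image jf).sup id + 1)
      linarith
    calc ∑ θ, dist x (b θ x) ^ 2
        ≤ ∑ θ : Fin n → Bool, (1024 * r ^ 2 + ∑ p ∈ N', dist x p ^ 2 *
          (Real.exp (τ * pr θ (g a - g p)) * Real.exp (-(τ * (pen x p - pen x a))))) :=
          Finset.sum_le_sum fun θ _ => h1 θ
      _ = 2 ^ n * (1024 * r ^ 2) + ∑ p ∈ N', ∑ θ : Fin n → Bool, dist x p ^ 2 *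
          (Real.exp (τ * pr θ (g a - g p)) * Real.exp (-(τ * (pen x p - pen x a)))) := by
          rw [Finset.sum_add_distrib, Finset.sum_const, nsmul_eq_mul, hcard, Finset.sum_comm]
      _ ≤ 2 ^ n * (1024 * r ^ 2) + ∑ p ∈ N', 2 ^ n * (r ^ 2 *
          Real.exp (-((dist x p / r) ^ 2 * Real.log lam))) :=
          add_le_add le_rfl (Finset.sum_le_sum h2)
      _ = 2 ^ n * (1024 * r ^ 2) + 2 ^ n * r ^ 2 *
          ∑ p ∈ N', Real.exp (-((dist x p / r) ^ 2 * Real.log lam)) := by
          congr 1
          rw [Finset.mul_sum]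
          exact Finset.sum_congr rfl fun p _ => by ring
      _ ≤ 2 ^ n * (1024 * r ^ 2) + 2 ^ n * r ^ 2 * 1 :=
          add_le_add le_rfl (mul_le_mul_of_nonneg_left h3 (by positivity))
      _ = 2 ^ n * (1025 * r ^ 2) := by ring
  -- accuracy
  have hacc : ∀ x, Metric.infDist x A ≤ 4 * r → ∀ a ∈ A,
      ‖(WithLp.toLp 2 (cf (U x)) : EuclideanSpace ℝ (Fin n)) - g a‖ ≤ 65 * (r + dist x a) := by
    intro x hx s hs
    have h1 : ‖(WithLp.toLp 2 (cf (U x)) : EuclideanSpace ℝ (Fin n)) - g s‖ ^ 2 ≤
        (65 * (r + dist x s)) ^ 2 := by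
      rw [norm_sq']
      have e1 : ∀ l, (WithLp.toLp 2 (cf (U x)) - g s : EuclideanSpace ℝ (Fin n)) l =
          cf (fun θ => U x θ - pr θ (g s)) l := by
        intro l
        rw [cf_sub, cf_pr]; simp
      simp only [e1]
      have e2 := flip_avg (fun θ => U x θ - pr θ (g s)) (fun θ l => (g (b θ x) - g s) l)
        (fun θ l => by
          have h2 := hb θ x (b (flp l θ) x) (hbN _ x)
          have h3 : pr θ (g (b (flp l θ) x)) - pr θ (g s) -
              (pr (flp l θ) (g (b (flp l θ) x)) - pr (flp l θ) (g s)) =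
              2 * sg (θ l) * (g (b (flp l θ) x) - g s) l := by
            rw [← pr_sub, ← pr_sub]
            generalize (g (b (flp l θ) x) - g s) = w
            unfold pr
            rw [← Finset.sum_sub_distrib, Finset.sum_eq_single l]
            · rw [flp_same, sg_not]; ring
            · intro m _ hm
              rw [flp_ne hm]; ring
            · intro h; exact absurd (Finset.mem_univ l) h
          simp only [hU] at h2 ⊢
          linarith)
        (2050 * r ^ 2 + 2 * dist x s ^ 2) (by
          simp only [← norm_sq']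
          have f1 : ∀ θ ∈ (Finset.univ : Finset (Fin n → Bool)),
              ‖g (b θ x) - g s‖ ^ 2 ≤ 2 * dist x (b θ x) ^ 2 + 2 * dist x s ^ 2 := by
            intro θ _
            have f2 := hg _ (hNA _ (hbN θ x)) s hs
            have f3 := dist_triangle_left (b θ x) s x
            have f4 : ‖g (b θ x) - g s‖ ^ 2 ≤ (dist x (b θ x) + dist x s) ^ 2 :=
              pow_le_pow_left₀ (norm_nonneg _) (f2.trans f3) 2
            nlinarith [sq_nonneg (dist x (b θ x) - dist x s)]
          refine (Finset.sum_le_sum f1).trans ?_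
          rw [Finset.sum_add_distrib, ← Finset.mul_sum, Finset.sum_const, nsmul_eq_mul, hcard]
          have := hT x hx
          linarith)
      refine e2.trans ?_
      nlinarith [sq_nonneg r, sq_nonneg (dist x s), mul_nonneg hr.le (dist_nonneg (x := x) (y := s))]
    exact le_of_sq_le_sq h1 (by positivity)
  refine ⟨fun x => WithLp.toLp 2 (cf (U x)), hacc, fun x y hx hy => ?_⟩
  have hδ0 : 0 ≤ dist x y := dist_nonneg
  rcases le_or_gt (dist x y) r with hδ | hδ
  · -- small distances
    have hone : ∀ x y θ, dist x y ≤ r → U x θ - U y θ ≤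
        K * dist x y * (2 + 2 * (dist y (b θ y) / r)) := by
      intro x y θ hxy
      have h1 := hb θ x (b θ y) (hbN θ y)
      have h2 := dist_triangle x y (b θ y)
      have h3 : U x θ - U y θ ≤ pen x (b θ y) - pen y (b θ y) := by
        simp only [hU]; linarith
      refine h3.trans ?_
      rw [hpen]; simp only
      set v := dist y (b θ y) with hv
      set w := dist x (b θ y) with hw
      set δ := dist x y with hδ'
      have hv0 : 0 ≤ v := dist_nonneg
      have hw0 : 0 ≤ w := dist_nonneg
      have hδ0 : 0 ≤ δ := dist_nonneg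
      have h4 : w ^ 2 ≤ (v + δ) ^ 2 := pow_le_pow_left₀ hw0 (by linarith) 2
      have h5 : w ^ 2 / r - v ^ 2 / r ≤ δ + 2 * (v / r) * δ := by
        rw [← sub_div, div_le_iff₀ hr]
        have : (δ + 2 * (v / r) * δ) * r = δ * r + 2 * v * δ := by field_simp
        rw [this]
        nlinarith
      have h6 : K * (w + w ^ 2 / r) - K * (v + v ^ 2 / r) =
          K * ((w - v) + (w ^ 2 / r - v ^ 2 / r)) := by ring
      rw [h6]
      calc K * ((w - v) + (w ^ 2 / r - v ^ 2 / r)) ≤ K * (δ + (δ + 2 * (v / r) * δ)) :=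
            mul_le_mul_of_nonneg_left (by linarith) hK0.le
        _ = K * δ * (2 + 2 * (v / r)) := by ring
    have h1 : ‖(WithLp.toLp 2 (cf (U x)) : EuclideanSpace ℝ (Fin n)) - WithLp.toLp 2 (cf (U y))‖ ^ 2
        ≤ (129 * K * dist x y) ^ 2 := by
      rw [norm_sq']
      have e1 : ∀ l, (WithLp.toLp 2 (cf (U x)) - WithLp.toLp 2 (cf (U y)) :
          EuclideanSpace ℝ (Fin n)) l = cf (fun θ => U x θ - U y θ) l := by
        intro l
        rw [cf_sub]; simp
      simp only [e1]
      refine (bessel _).trans ?_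
      rw [div_le_iff₀ hN0]
      have e2 : ∀ θ ∈ (Finset.univ : Finset (Fin n → Bool)), (U x θ - U y θ) ^ 2 ≤
          (K * dist x y) ^ 2 * (8 + 8 / r ^ 2 * dist x (b θ x) ^ 2 +
            8 / r ^ 2 * dist y (b θ y) ^ 2) := by
        intro θ _
        have f1 := hone x y θ hδ
        have f2 := hone y x θ (by rw [dist_comm]; exact hδ)
        rw [dist_comm y x] at f2
        set P := dist x (b θ x) / r with hPd
        set Q := dist y (b θ y) / r with hQd
        have hP0 : 0 ≤ P := by positivity
        have hQ0 : 0 ≤ Q := by positivity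
        have hKδ : 0 ≤ K * dist x y := by positivity
        have f3 : |U x θ - U y θ| ≤ K * dist x y * (2 + 2 * P + 0 * Q) ∨
            |U x θ - U y θ| ≤ K * dist x y * (2 + 2 * Q + 0 * P) := by
          rcases le_total (U x θ) (U y θ) with h | h
          · left; rw [abs_of_nonpos (by linarith)]; linarith
          · right; rw [abs_of_nonneg (by linarith)]; linarith
        have f4 : (U x θ - U y θ) ^ 2 ≤ (K * dist x y) ^ 2 * (8 + 8 * P ^ 2 + 8 * Q ^ 2) := by
          rw [← sq_abs]
          rcases f3 with h | h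
          · calc |U x θ - U y θ| ^ 2 ≤ (K * dist x y * (2 + 2 * P + 0 * Q)) ^ 2 :=
                  pow_le_pow_left₀ (abs_nonneg _) h 2
              _ = (K * dist x y) ^ 2 * (2 + 2 * P) ^ 2 := by ring
              _ ≤ _ := mul_le_mul_of_nonneg_left
                  (by nlinarith [sq_nonneg (P - 1), sq_nonneg Q]) (sq_nonneg _)
          · calc |U x θ - U y θ| ^ 2 ≤ (K * dist x y * (2 + 2 * Q + 0 * P)) ^ 2 :=
                  pow_le_pow_left₀ (abs_nonneg _) h 2
              _ = (K * dist x y) ^ 2 * (2 + 2 * Q) ^ 2 := by ring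
              _ ≤ _ := mul_le_mul_of_nonneg_left
                  (by nlinarith [sq_nonneg (Q - 1), sq_nonneg P]) (sq_nonneg _)
        have f5 : 8 * P ^ 2 = 8 / r ^ 2 * dist x (b θ x) ^ 2 := by
          rw [hPd]; field_simp
        have f6 : 8 * Q ^ 2 = 8 / r ^ 2 * dist y (b θ y) ^ 2 := by
          rw [hQd]; field_simp
        rw [f5, f6] at f4
        exact f4
      refine (Finset.sum_le_sum e2).trans ?_
      rw [← Finset.mul_sum, Finset.sum_add_distrib, Finset.sum_add_distrib, ← Finset.mul_sum,
        ← Finset.mul_sum, Finset.sum_const, nsmul_eq_mul, hcard]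
      have g1 := hT x hx
      have g2 := hT y hy
      have g3 : 8 / r ^ 2 * ∑ θ, dist x (b θ x) ^ 2 ≤ 8 / r ^ 2 * (2 ^ n * (1025 * r ^ 2)) :=
        mul_le_mul_of_nonneg_left g1 (by positivity)
      have g4 : 8 / r ^ 2 * ∑ θ, dist y (b θ y) ^ 2 ≤ 8 / r ^ 2 * (2 ^ n * (1025 * r ^ 2)) :=
        mul_le_mul_of_nonneg_left g2 (by positivity)
      have g5 : 8 / r ^ 2 * (2 ^ n * (1025 * r ^ 2)) = 8200 * 2 ^ n := by field_simp; ring
      rw [g5] at g3 g4
      calc (K * dist x y) ^ 2 * (2 ^ n * 8 + 8 / r ^ 2 * ∑ θ, dist x (b θ x) ^ 2 +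
            8 / r ^ 2 * ∑ θ, dist y (b θ y) ^ 2)
          ≤ (K * dist x y) ^ 2 * (16641 * 2 ^ n) :=
            mul_le_mul_of_nonneg_left (by linarith) (sq_nonneg _)
        _ = (129 * K * dist x y) ^ 2 * 2 ^ n := by ring
    have h2 := le_of_sq_le_sq h1 (by positivity)
    nlinarith
  · -- large distances
    obtain ⟨a, ha, hxa⟩ := hnear x
    have h1 := hacc x hx a ha
    have h2 := hacc y hy a ha
    have h3 := dist_triangle_left y a x
    have e1 : (WithLp.toLp 2 (cf (U x)) : EuclideanSpace ℝ (Fin n)) - WithLp.toLp 2 (cf (U y)) =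
        (WithLp.toLp 2 (cf (U x)) - g a) - (WithLp.toLp 2 (cf (U y)) - g a) := by abel
    rw [e1]
    refine (norm_sub_le _ _).trans ?_
    have h4 : dist x a ≤ 4 * r := by rw [← hxa]; exact hx
    have h5 : 0 ≤ K * dist x y := by positivity
    nlinarith

end Pool.Agent.H98U
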